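import Mathlib
import Pool.Agent.H450R3.BH.Stubs2

/-!
Tables bounded by algebraic curves with many isotropic tangent lines (foci): definitions and basic
facts about places.
-/

set_option autoImplicit false

namespace H719FO

open IntermediateField H450BH WithZero
open scoped ComplexConjugate

section Places

/-- A place of the function field `K / k`: a normalised discrete valuation, trivial on `k`. -/
structure Pl (k K : Type) [Field k] [Field K] [Algebra k K] (w : Valuation K ℤᵐ⁰) : Prop where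
  surj : Function.Surjective w
  triv : ∀ c : k, c ≠ 0 → w (algebraMap k K c) = 1

variable {K : Type} [Field K]

/-- The order of `f` at the place `w` (and `0` for `f = 0`). -/
noncomputable def od (w : Valuation K ℤᵐ⁰) (f : K) : ℤ := -WithZero.log (w f)

theorem w_eq (w : Valuation K ℤᵐ⁰) {f : K} (hf : f ≠ 0) : w f = WithZero.exp (-od w f) := by
  unfold od
  rw [neg_neg, WithZero.exp_log ((w.ne_zero_iff).2 hf)]

@[simp] theorem od_zero (w : Valuation K ℤᵐ⁰) : od w 0 = 0 := by simp [od]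

@[simp] theorem od_one (w : Valuation K ℤᵐ⁰) : od w 1 = 0 := by simp [od]

theorem od_mul (w : Valuation K ℤᵐ⁰) {f g : K} (hf : f ≠ 0) (hg : g ≠ 0) :
    od w (f * g) = od w f + od w g := by
  unfold od
  rw [map_mul, WithZero.log_mul ((w.ne_zero_iff).2 hf) ((w.ne_zero_iff).2 hg)]
  ring

@[simp] theorem od_inv (w : Valuation K ℤᵐ⁰) (f : K) : od w f⁻¹ = -od w f := by
  unfold od
  rw [map_inv₀, WithZero.log_inv]

@[simp] theorem od_neg (w : Valuation K ℤᵐ⁰) (f : K) : od w (-f) = od w f := by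
  unfold od
  rw [Valuation.map_neg]

theorem od_pow (w : Valuation K ℤᵐ⁰) (f : K) (n : ℕ) : od w (f ^ n) = n * od w f := by
  unfold od
  rw [map_pow, WithZero.log_pow]
  simp

theorem lt_one_iff (w : Valuation K ℤᵐ⁰) {f : K} (hf : f ≠ 0) : w f < 1 ↔ 0 < od w f := by
  rw [w_eq w hf, ← WithZero.exp_zero, WithZero.exp_lt_exp]
  omega

theorem le_one_iff (w : Valuation K ℤᵐ⁰) {f : K} (hf : f ≠ 0) : w f ≤ 1 ↔ 0 ≤ od w f := by
  rw [w_eq w hf, ← WithZero.exp_zero, WithZero.exp_le_exp]
  omega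

theorem eq_one_iff (w : Valuation K ℤᵐ⁰) {f : K} (hf : f ≠ 0) : w f = 1 ↔ od w f = 0 := by
  rw [w_eq w hf, ← WithZero.exp_zero, WithZero.exp_inj]
  omega

theorem le_iff (w : Valuation K ℤᵐ⁰) {f g : K} (hf : f ≠ 0) (hg : g ≠ 0) :
    w f ≤ w g ↔ od w g ≤ od w f := by
  rw [w_eq w hf, w_eq w hg, WithZero.exp_le_exp]
  omega

theorem lt_iff (w : Valuation K ℤᵐ⁰) {f g : K} (hf : f ≠ 0) (hg : g ≠ 0) :
    w f < w g ↔ od w g < od w f := by
  rw [w_eq w hf, w_eq w hg, WithZero.exp_lt_exp]
  omega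

end Places

section Slots

variable {k : Type} [Field k]

/-- The curve `P = 0` has at its nonsingular point `c` contact of order `r` with the line
`X i = c i`. -/
def Ct (i i' : Fin 2) (P : MvPolynomial (Fin 2) k) (c : Fin 2 → k) (r : ℕ) : Prop :=
  ∃ U V : MvPolynomial (Fin 2) k,
    P = (MvPolynomial.X i - MvPolynomial.C (c i)) * U +
      (MvPolynomial.X i' - MvPolynomial.C (c i')) ^ r * V ∧
    MvPolynomial.eval c U ≠ 0 ∧ MvPolynomial.eval c V ≠ 0

/-- `P = ∑ pₙ(X i) (X i')ⁿ` and `Q = ∑ pₙ(X i) (X i')^(d - n)`. -/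
def Fl (i i' : Fin 2) (d : ℕ) (P Q : MvPolynomial (Fin 2) k) : Prop :=
  ∃ p : ℕ → Polynomial k,
    P = ∑ n ∈ Finset.range (d + 1),
      Polynomial.aeval (MvPolynomial.X i : MvPolynomial (Fin 2) k) (p n) *
        MvPolynomial.X i' ^ n ∧
    Q = ∑ n ∈ Finset.range (d + 1),
      Polynomial.aeval (MvPolynomial.X i : MvPolynomial (Fin 2) k) (p n) *
        MvPolynomial.X i' ^ (d - n)

/-- A point at which an isotropic line `X i = c i` touches the curve: at a finite point `c`
(`inf = false`), or at infinity (`inf = true`, then `Q` is the curve in the coordinates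
`X i, 1 / X i'`). -/
structure Slot (k : Type) [Field k] where
  i : Fin 2
  i' : Fin 2
  inf : Bool
  c : Fin 2 → k
  r : ℕ
  d : ℕ
  Q : MvPolynomial (Fin 2) k

structure Slot.Ok (s : Slot k) (P : MvPolynomial (Fin 2) k) : Prop where
  ne : s.i ≠ s.i'
  ct : Ct s.i s.i' s.Q s.c s.r
  fin : s.inf = false → s.Q = P ∧ 2 ≤ s.r
  infi : s.inf = true → 1 ≤ s.r ∧ s.c s.i' = 0 ∧ Fl s.i s.i' s.d P s.Q

/-- The weight of a slot. -/
def Slot.wt (s : Slot k) : ℕ := if s.inf = true then 2 * s.r + 3 else 2 * s.r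

variable {K : Type} [Field K] [Algebra k K]

/-- The point `q` of the curve is centred at the slot `s` at the place `w`. -/
def Slot.Cen (s : Slot k) (w : Valuation K ℤᵐ⁰) (q : Fin 2 → K) : Prop :=
  w (q s.i - algebraMap k K (s.c s.i)) < 1 ∧
    (s.inf = false → w (q s.i' - algebraMap k K (s.c s.i')) < 1) ∧
    (s.inf = true → q s.i' ≠ 0 ∧ w (q s.i')⁻¹ < 1)

/-- The order at `w` of the local parameter of the slot `s` on `q`. -/
noncomputable def Slot.mu (s : Slot k) (w : Valuation K ℤᵐ⁰) (q : Fin 2 → K) : ℤ :=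
  if s.inf = true then -od w (q s.i') else od w (q s.i' - algebraMap k K (s.c s.i'))

/-- Base change of a slot. -/
noncomputable def Slot.map {E : Type} [Field E] (f : k →+* E) (s : Slot k) : Slot E where
  i := s.i
  i' := s.i'
  inf := s.inf
  c := fun l => f (s.c l)
  r := s.r
  d := s.d
  Q := MvPolynomial.map f s.Q

end Slots

end H719FO
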