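import Mathlib
import Pool.Agent.H719R3.FO.Defs

/-!
Statements (as Props) of the independent parts.
A task `X` proves `theorem X_proof : St_X` in `Pool/Agent/H719R3/FO/X.lean`.
-/

set_option autoImplicit false

namespace H719FO

open IntermediateField H450BH WithZero Pool.Agent.H719R3.BG
open scoped ComplexConjugate

/-! ### The combinatorial inequality at one place -/

/-- The data of a vertex at a place: `a`, `b` the orders of the poles of its coordinates, `ty = 1`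
or `ty = 2`: a slot of the first or second kind with contact order `r` and local parameter of order
`μ`; any other `ty`: no slot. -/
structure VD where
  a : ℤ
  b : ℤ
  ty : ℕ
  r : ℤ
  μ : ℤ

/-- exchange the two coordinates -/
def VD.sw (u : VD) : VD where
  a := u.b
  b := u.a
  ty := if u.ty = 1 then 2 else if u.ty = 2 then 1 else u.ty
  r := u.r
  μ := u.μ

/-- what is known about a slot of the first kind: the first coordinate is finite, the second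
coordinate is finite (`b = 0`, `r ≥ 2`) or has a pole of order `μ` -/
def VD.ok1 (u : VD) : Prop :=
  u.ty = 1 → 0 < u.μ ∧ 1 ≤ u.r ∧ u.a = 0 ∧ ((u.b = 0 ∧ 2 ≤ u.r) ∨ u.b = u.μ)

/-- Two neighbouring vertices in the same slot of the first kind; `x`, `y` are the orders of the
differences of the first and of the second coordinates. -/
def Same1 (u v : VD) (x y : ℤ) : Prop :=
  u.r = v.r ∧ (u.b = 0 ↔ v.b = 0) ∧
  min u.μ v.μ ≤ y + u.b + v.b ∧ (u.μ ≠ v.μ → y + u.b + v.b = min u.μ v.μ) ∧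
  (u.r - 1) * min u.μ v.μ ≤ x - (y + u.b + v.b) ∧
  (u.μ ≠ v.μ → x - (y + u.b + v.b) = (u.r - 1) * min u.μ v.μ) ∧
  ((u.r - 1) * min u.μ v.μ < x - (y + u.b + v.b) → y + u.b + v.b = min u.μ v.μ ∧ 2 ≤ u.r)

/-- an edge between two vertices, seen from the first coordinate -/
def Edge1 (u v : VD) (x y : ℤ) : Prop :=
  -max u.a v.a ≤ x ∧ (u.a ≠ v.a → x = -max u.a v.a) ∧
  (u.ty = 1 → v.ty = 1 → x = 0 ∨ Same1 u v x y)

/-- twice the share of the edge `x + y` which goes to the vertex `u`, if `u` is a slot of the first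
kind; `v` is the other end of the edge -/
def sh1 (u v : VD) (x y : ℤ) : ℤ :=
  if u.b = 0 then
    (if v.ty = 1 ∧ x ≠ 0 then x + y else 2 * max 0 (x - y))
  else if v.ty = 1 then
    (if x ≠ 0 then
      (if u.μ = v.μ then x + y
        else if u.μ < v.μ then (u.r - 1) * u.μ + (v.μ - u.μ)
        else (u.r - 1) * v.μ - 3 * (u.μ - v.μ))
    else if v.b = 0 then -4 * u.μ
    else if u.μ < v.μ then 2 * v.μ
    else if v.μ < u.μ then -4 * u.μ
    else y)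
  else if v.ty = 2 then
    (if v.a = 0 then 2 * (x + y) else -2 * u.μ)
  else 2 * (x + y) + 4 * max v.a v.b

/-- twice the share of the edge which goes to the vertex `u` -/
def sh (u v : VD) (x y : ℤ) : ℤ :=
  if u.ty = 1 then sh1 u v x y
  else if u.ty = 2 then sh1 u.sw v.sw y x
  else -4 * max u.a u.b

/-- twice the weight of a vertex at a place -/
def VD.v2 (u : VD) : ℤ :=
  if u.ty = 1 then (if u.b = 0 then 2 * (u.r * u.μ) else (2 * u.r - 5) * u.μ)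
  else if u.ty = 2 then (if u.a = 0 then 2 * (u.r * u.μ) else (2 * u.r - 5) * u.μ)
  else -8 * max u.a u.b

/-- LOCE: the shares of the two ends of an edge add up to at most the edge. -/
def St_LOCE : Prop := ∀ (u v : VD) (x y : ℤ), 0 ≤ u.a → 0 ≤ u.b → 0 ≤ v.a → 0 ≤ v.b →
  u.ok1 → u.sw.ok1 → v.ok1 → v.sw.ok1 → Edge1 u v x y → Edge1 u.sw v.sw y x →
  sh u v x y + sh v u x y ≤ 2 * (x + y)

/-- LOCX: the share of a finite slot. -/
def St_LOCX : Prop := ∀ (u v : VD) (x y : ℤ), 0 ≤ u.a → 0 ≤ u.b → 0 ≤ v.a → 0 ≤ v.b →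
  u.ok1 → v.ok1 → v.sw.ok1 → Edge1 u v x y → Edge1 u.sw v.sw y x →
  u.ty = 1 → u.b = 0 →
  (0 ≤ (x - y) - (u.r - 1) * u.μ →
    (u.r + 1) * u.μ + ((x - y) - (u.r - 1) * u.μ) ≤ sh1 u v x y ∨
    2 * ((u.r - 1) * u.μ) + 2 * ((x - y) - (u.r - 1) * u.μ) ≤ sh1 u v x y) ∧
  ((x - y) - (u.r - 1) * u.μ < 0 →
    (u.r - 1) * u.μ + ((x - y) - (u.r - 1) * u.μ) ≤ sh1 u v x y ∧
    2 * u.μ + 2 * ((x - y) - (u.r - 1) * u.μ) ≤ sh1 u v x y)

/-- LOCI: the share of an infinite slot. -/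
def St_LOCI : Prop := ∀ (u v : VD) (x y : ℤ), 0 ≤ u.a → 0 ≤ u.b → 0 ≤ v.a → 0 ≤ v.b →
  u.ok1 → v.ok1 → v.sw.ok1 → Edge1 u v x y → Edge1 u.sw v.sw y x →
  u.ty = 1 → u.b ≠ 0 →
  (0 ≤ (x - y) - (u.r + 1) * u.μ →
    (u.r - 1) * u.μ + ((x - y) - (u.r + 1) * u.μ) ≤ sh1 u v x y) ∧
  ((x - y) - (u.r + 1) * u.μ < 0 →
    (u.r - 4) * u.μ + ((x - y) - (u.r + 1) * u.μ) ≤ sh1 u v x y)

/-- LOC: the inequality at one place. -/
def St_LOC : Prop := ∀ (n : ℕ), 0 < n → ∀ (u : ℤ → VD) (x y : ℤ → ℤ),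
  (∀ j, u (j + n) = u j) → (∀ j, x (j + n) = x j) → (∀ j, y (j + n) = y j) →
  (∀ j, 0 ≤ (u j).a ∧ 0 ≤ (u j).b ∧ (u j).ok1 ∧ (u j).sw.ok1) →
  (∀ j, Edge1 (u j) (u (j + 1)) (x j) (y j) ∧ Edge1 (u j).sw (u (j + 1)).sw (y j) (x j)) →
  -- the law of reflection at the slots
  (∀ j, (u j).ty = 1 → (x (j - 1) - y (j - 1)) + (x j - y j) =
    if (u j).b = 0 then 2 * (((u j).r - 1) * (u j).μ) else 2 * (((u j).r + 1) * (u j).μ)) →
  (∀ j, (u j).ty = 2 → (y (j - 1) - x (j - 1)) + (y j - x j) =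
    if (u j).a = 0 then 2 * (((u j).r - 1) * (u j).μ) else 2 * (((u j).r + 1) * (u j).μ)) →
  ∑ j ∈ Finset.range n, (u (j : ℤ)).v2 ≤ ∑ j ∈ Finset.range n, 2 * (x (j : ℤ) + y (j : ℤ))

/-! ### Places -/

/-- DED: the places above a maximal ideal of a Dedekind domain with residue field `k`. -/
def St_DED : Prop := ∀ (k R F K : Type) [Field k] [CommRing R] [IsDedekindDomain R] [Field F]
  [Field K] [Algebra k R] [Algebra R F] [IsFractionRing R F] [Algebra F K] [Algebra R K]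
  [IsScalarTower R F K] [Algebra k K] [IsScalarTower k R K] [CharZero k] [IsAlgClosed k]
  [FiniteDimensional F K] (t : R), t ≠ 0 → (Ideal.span {t}).IsMaximal →
  (∀ x : R, ∃ c : k, x - algebraMap k R c ∈ Ideal.span {t}) →
  ∃ V : Finset (Valuation K ℤᵐ⁰),
    (∀ w, w ∈ V ↔ Pl k K w ∧ (∀ x : R, w (algebraMap R K x) ≤ 1) ∧ w (algebraMap R K t) < 1) ∧
    ∑ w ∈ V, od w (algebraMap R K t) = Module.finrank F K

/-- DU: the zeros of a function. -/
def St_DU : Prop := ∀ (k K : Type) [Field k] [Field K] [Algebra k K] [CharZero k] [IsAlgClosed k],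
  OneDim k K → ∀ f : K, f ∉ Set.range (algebraMap k K) →
  ∃ V : Finset (Valuation K ℤᵐ⁰), (∀ w, w ∈ V ↔ Pl k K w ∧ 0 < od w f) ∧
    ∑ w ∈ V, od w f = dg k K f

/-- DEG: the order of a function summed over all places is zero. -/
def St_DEG : Prop := ∀ (k K : Type) [Field k] [Field K] [Algebra k K] [CharZero k]
  [IsAlgClosed k], OneDim k K → ∀ u : K, u ≠ 0 →
  ∃ V : Finset (Valuation K ℤᵐ⁰), (∀ w ∈ V, Pl k K w) ∧ ∀ V' : Finset (Valuation K ℤᵐ⁰),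
    V ⊆ V' → (∀ w ∈ V', Pl k K w) → ∑ w ∈ V', od w u = 0

/-- NOR: the poles of a point of a curve of degree `m`. -/
def St_NOR : Prop := ∀ (k K : Type) [Field k] [Field K] [Algebra k K] [CharZero k]
  [IsAlgClosed k], OneDim k K → ∀ (P : MvPolynomial (Fin 2) k) (q : Fin 2 → K), P ≠ 0 →
  MvPolynomial.aeval q P = 0 → ∀ V : Finset (Valuation K ℤᵐ⁰), (∀ w ∈ V, Pl k K w) →
  ∑ w ∈ V, max (max 0 (-od w (q 0))) (max 0 (-od w (q 1))) ≤
    P.totalDegree * Module.finrank k⟮q 0, q 1⟯ K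

/-- CEN: the places above a nonsingular point of the curve. -/
def St_CEN : Prop := ∀ (k K : Type) [Field k] [Field K] [Algebra k K] [CharZero k]
  [IsAlgClosed k], OneDim k K → ∀ (i i' : Fin 2), i ≠ i' →
  ∀ (P : MvPolynomial (Fin 2) k) (c : Fin 2 → k) (r : ℕ), Irreducible P → 1 ≤ r →
  Ct i i' P c r →
  ∀ q : Fin 2 → K, MvPolynomial.aeval q P = 0 → (∃ l, q l ∉ Set.range (algebraMap k K)) →
  ∃ V : Finset (Valuation K ℤᵐ⁰),
    (∀ w ∈ V, Pl k K w ∧ ∀ l, w (q l - algebraMap k K (c l)) < 1) ∧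
    (Module.finrank k⟮q 0, q 1⟯ K : ℤ) ≤ ∑ w ∈ V, od w (q i' - algebraMap k K (c i'))

/-! ### Local analysis at a nonsingular point -/

/-- VX: one point near `c`. -/
def St_VX : Prop := ∀ (k K : Type) [Field k] [Field K] [Algebra k K] [CharZero k]
  (w : Valuation K ℤᵐ⁰), Pl k K w → ∀ (i i' : Fin 2), i ≠ i' →
  ∀ (P : MvPolynomial (Fin 2) k) (c : Fin 2 → k) (r : ℕ), 1 ≤ r → Ct i i' P c r →
  ∀ q : Fin 2 → K, MvPolynomial.aeval q P = 0 → (∃ l, q l ∉ Set.range (algebraMap k K)) →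
  (∀ l, w (q l - algebraMap k K (c l)) < 1) →
  q i' ≠ algebraMap k K (c i') ∧ 0 < od w (q i' - algebraMap k K (c i')) ∧
  MvPolynomial.aeval q (MvPolynomial.pderiv i P) ≠ 0 ∧
  od w (MvPolynomial.aeval q (MvPolynomial.pderiv i P)) = 0 ∧
  MvPolynomial.aeval q (MvPolynomial.pderiv i' P) ≠ 0 ∧
  od w (MvPolynomial.aeval q (MvPolynomial.pderiv i' P)) =
    ((r : ℤ) - 1) * od w (q i' - algebraMap k K (c i')) ∧
  od w (q i - algebraMap k K (c i)) = r * od w (q i' - algebraMap k K (c i'))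

/-- VE: two points near `c`. -/
def St_VE : Prop := ∀ (k K : Type) [Field k] [Field K] [Algebra k K] [CharZero k]
  (w : Valuation K ℤᵐ⁰), Pl k K w → ∀ (i i' : Fin 2), i ≠ i' →
  ∀ (P : MvPolynomial (Fin 2) k) (c : Fin 2 → k) (r : ℕ), 1 ≤ r → Ct i i' P c r →
  ∀ q q' : Fin 2 → K, MvPolynomial.aeval q P = 0 → (∃ l, q l ∉ Set.range (algebraMap k K)) →
  (∀ l, w (q l - algebraMap k K (c l)) < 1) →
  MvPolynomial.aeval q' P = 0 → (∃ l, q' l ∉ Set.range (algebraMap k K)) →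
  (∀ l, w (q' l - algebraMap k K (c l)) < 1) → (∀ l, q' l ≠ q l) →
  ∀ μ μ' s t : ℤ, od w (q i' - algebraMap k K (c i')) = μ →
  od w (q' i' - algebraMap k K (c i')) = μ' → od w (q' i' - q i') = s →
  od w (q' i - q i) = s + t →
  min μ μ' ≤ s ∧ (μ ≠ μ' → s = min μ μ') ∧ (r - 1) * min μ μ' ≤ t ∧
  (μ ≠ μ' → t = (r - 1) * min μ μ') ∧ ((r - 1) * min μ μ' < t → s = min μ μ' ∧ 2 ≤ r)

/-! ### The flip -/

/-- FLP: the relation between a curve and its flip. -/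
def St_FLP : Prop := ∀ (k K : Type) [Field k] [Field K] [Algebra k K] (i i' : Fin 2), i ≠ i' →
  ∀ (P Q : MvPolynomial (Fin 2) k) (d : ℕ), Fl i i' d P Q → ∀ q : Fin 2 → K, q i' ≠ 0 →
  ∀ q' : Fin 2 → K, q' = Function.update q i' (q i')⁻¹ →
  MvPolynomial.aeval q P = q i' ^ d * MvPolynomial.aeval q' Q ∧
  MvPolynomial.aeval q (MvPolynomial.pderiv i P) =
    q i' ^ d * MvPolynomial.aeval q' (MvPolynomial.pderiv i Q) ∧
  q i' ^ 2 * MvPolynomial.aeval q (MvPolynomial.pderiv i' P) =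
    d * (q i' * MvPolynomial.aeval q P) -
      q i' ^ d * MvPolynomial.aeval q' (MvPolynomial.pderiv i' Q)

/-- FLI: the flip of an irreducible curve is irreducible. -/
def St_FLI : Prop := ∀ (k : Type) [Field k] (i i' : Fin 2), i ≠ i' →
  ∀ (P Q : MvPolynomial (Fin 2) k) (d : ℕ) (c : Fin 2 → k) (r : ℕ), 1 ≤ r → Irreducible P →
  Fl i i' d P Q → c i' = 0 → Ct i i' Q c r → Irreducible Q

/-- FLZ: the coordinate which is flipped does not vanish. -/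
def St_FLZ : Prop := ∀ (k K : Type) [Field k] [Field K] [Algebra k K], OneDim k K →
  ∀ (i i' : Fin 2), i ≠ i' →
  ∀ (P Q : MvPolynomial (Fin 2) k) (d : ℕ) (c : Fin 2 → k) (r : ℕ), 1 ≤ r → Irreducible P →
  Fl i i' d P Q → c i' = 0 → Ct i i' Q c r →
  ∀ q : Fin 2 → K, MvPolynomial.aeval q P = 0 → (∃ l, q l ∉ Set.range (algebraMap k K)) →
  q i' ≠ 0

/-! ### Slots -/

/-- SLV: one vertex in a slot. -/
def St_SLV : Prop := ∀ (k K : Type) [Field k] [Field K] [Algebra k K] [CharZero k]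
  (w : Valuation K ℤᵐ⁰), Pl k K w → ∀ (P : MvPolynomial (Fin 2) k) (s : Slot k), s.Ok P →
  ∀ q : Fin 2 → K, MvPolynomial.aeval q P = 0 → (∃ l, q l ∉ Set.range (algebraMap k K)) →
  s.Cen w q →
  0 < s.mu w q ∧ MvPolynomial.aeval q (MvPolynomial.pderiv s.i P) ≠ 0 ∧
  MvPolynomial.aeval q (MvPolynomial.pderiv s.i' P) ≠ 0 ∧
  od w (MvPolynomial.aeval q (MvPolynomial.pderiv s.i' P)) -
    od w (MvPolynomial.aeval q (MvPolynomial.pderiv s.i P)) =
    if s.inf = true then ((s.r : ℤ) + 1) * s.mu w q else ((s.r : ℤ) - 1) * s.mu w q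

/-- SLE: two vertices in the same slot. -/
def St_SLE : Prop := ∀ (k K : Type) [Field k] [Field K] [Algebra k K] [CharZero k]
  (w : Valuation K ℤᵐ⁰), Pl k K w → ∀ (P : MvPolynomial (Fin 2) k) (s : Slot k), s.Ok P →
  ∀ q q' : Fin 2 → K, MvPolynomial.aeval q P = 0 → (∃ l, q l ∉ Set.range (algebraMap k K)) →
  s.Cen w q →
  MvPolynomial.aeval q' P = 0 → (∃ l, q' l ∉ Set.range (algebraMap k K)) →
  s.Cen w q' → (∀ l, q' l ≠ q l) →
  ∀ μ μ' β β' x y : ℤ, s.mu w q = μ → s.mu w q' = μ' →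
  (if s.inf = true then μ else 0) = β → (if s.inf = true then μ' else 0) = β' →
  od w (q' s.i - q s.i) = x → od w (q' s.i' - q s.i') = y →
  min μ μ' ≤ y + β + β' ∧ (μ ≠ μ' → y + β + β' = min μ μ') ∧
  (s.r - 1) * min μ μ' ≤ x - (y + β + β') ∧
  (μ ≠ μ' → x - (y + β + β') = (s.r - 1) * min μ μ') ∧
  ((s.r - 1) * min μ μ' < x - (y + β + β') → y + β + β' = min μ μ' ∧ 2 ≤ s.r)

/-- SLC: the places at which a point is centred at a slot. -/
def St_SLC : Prop := ∀ (k K : Type) [Field k] [Field K] [Algebra k K] [CharZero k]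
  [IsAlgClosed k], OneDim k K → ∀ (P : MvPolynomial (Fin 2) k) (s : Slot k), Irreducible P →
  s.Ok P → ∀ q : Fin 2 → K, MvPolynomial.aeval q P = 0 →
  (∃ l, q l ∉ Set.range (algebraMap k K)) →
  ∃ V : Finset (Valuation K ℤᵐ⁰), (∀ w ∈ V, Pl k K w ∧ s.Cen w q) ∧
    (Module.finrank k⟮q 0, q 1⟯ K : ℤ) ≤ ∑ w ∈ V, s.mu w q

/-- CNT: the counting inequality. -/
def St_CNT : Prop := ∀ (k K : Type) [Field k] [Field K] [Algebra k K] [CharZero k]
  [IsAlgClosed k], OneDim k K → ∀ (P : MvPolynomial (Fin 2) k) (n : ℕ), 0 < n → Irreducible P →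
  ∀ (ι : Type) [Fintype ι] (s : ι → Slot k), (∀ a, (s a).Ok P) →
  (∀ a b, (s a).i = (s b).i → (s a).c (s a).i = (s b).c (s b).i → a = b) →
  8 * P.totalDegree < ∑ a, (s a).wt →
  ∀ q : ℤ → Fin 2 → K, (∀ j, q (j + n) = q j) → (∀ j, MvPolynomial.aeval (q j) P = 0) →
  (∀ j i, q (j + 1) i ≠ q j i) →
  (∀ j, (∃ i, q j i ∉ Set.range (algebraMap k K)) →
    MvPolynomial.aeval (q j) (MvPolynomial.pderiv 1 P) ^ 2 *
      ((q j 1 - q (j - 1) 1) * (q (j + 1) 1 - q j 1)) =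
    MvPolynomial.aeval (q j) (MvPolynomial.pderiv 0 P) ^ 2 *
      ((q j 0 - q (j - 1) 0) * (q (j + 1) 0 - q j 0))) →
  ∀ j i, q j i ∈ Set.range (algebraMap k K)

/-! ### The end -/

/-- FLD2: FLD with an algebraically closed field of constants. -/
def St_FLD2 : Prop := ∀ (k Ω : Type) [Field k] [Field Ω] [Algebra k Ω] [CharZero k]
  [IsAlgClosed Ω] (S : Finset Ω), (∃ s ∈ S, Transcendental k s) →
  ∃ E : IntermediateField k Ω, IsAlgClosed E ∧ (∃ s ∈ S, s ∉ E) ∧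
    OneDim E (adjoin E (S : Set Ω))

/-- the curve `conj P (conj w, conj z) = 0` -/
noncomputable def cj (P : MvPolynomial (Fin 2) ℂ) : MvPolynomial (Fin 2) ℂ :=
  MvPolynomial.rename (Equiv.swap (0 : Fin 2) 1) (MvPolynomial.map (starRingEnd ℂ) P)

/-- SYM: a real curve. -/
def St_SYM : Prop := ∀ (P : MvPolynomial (Fin 2) ℂ), Irreducible P → ∀ S : Set ℂ, S.Infinite →
  (∀ p ∈ S, MvPolynomial.eval ![p, conj p] P = 0) → ∃ c : ℂ, c ≠ 0 ∧ cj P = MvPolynomial.C c * P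

/-- The hypothesis of the theorem: `F` the simple isotropic tangents, `G` the asymptotes. -/
def Hyp (P : MvPolynomial (Fin 2) ℂ) (F G : Finset ℂ) (r : ℂ → ℕ) : Prop :=
  Disjoint F G ∧ (∀ a ∈ F, 2 ≤ r a ∧ ∃ b : ℂ, Ct 0 1 P ![a, b] (r a)) ∧
  (∀ a ∈ G, 1 ≤ r a ∧ ∃ (d : ℕ) (Q : MvPolynomial (Fin 2) ℂ), Fl 0 1 d P Q ∧
    Ct 0 1 Q ![a, 0] (r a)) ∧
  4 * P.totalDegree < ∑ a ∈ F, 2 * r a + ∑ a ∈ G, (2 * r a + 3)

/-- SLT: the slots of both kinds. -/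
def St_SLT : Prop := ∀ (P : MvPolynomial (Fin 2) ℂ), (∃ c : ℂ, c ≠ 0 ∧
  cj P = MvPolynomial.C c * P) → ∀ (F G : Finset ℂ) (r : ℂ → ℕ), Hyp P F G r →
  ∃ (ι : Type) (_ : Fintype ι) (s : ι → Slot ℂ), (∀ a, (s a).Ok P) ∧
    (∀ a b, (s a).i = (s b).i → (s a).c (s a).i = (s b).c (s b).i → a = b) ∧
    8 * P.totalDegree < ∑ a, (s a).wt

/-- SLM: base change of slots. -/
def St_SLM : Prop := ∀ (k E : Type) [Field k] [Field E] (f : k →+* E)
  (P : MvPolynomial (Fin 2) k) (s : Slot k), s.Ok P → (s.map f).Ok (MvPolynomial.map f P)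

/-- GER2: GER over an algebraically closed field. -/
def St_GER2 : Prop := ∀ (Ω : Set ℂ), Table Ω → ∀ (P : MvPolynomial (Fin 2) ℂ), Irreducible P →
  (∀ p ∈ frontier Ω, MvPolynomial.eval ![p, conj p] P = 0) →
  ∀ n : ℕ, 0 < n → {x : ℤ → ℂ | Polygon Ω n x}.Infinite →
  ∃ (L : Type) (_ : Field L) (_ : Algebra ℂ L) (_ : IsAlgClosed L) (q : ℤ → Fin 2 → L),
    (∀ j, q (j + n) = q j) ∧ (∀ j, MvPolynomial.aeval (q j) P = 0) ∧
    (∀ j i, q (j + 1) i ≠ q j i) ∧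
    (∀ j, (∃ i, q j i ∉ Set.range (algebraMap ℂ L)) →
      MvPolynomial.aeval (q j) (MvPolynomial.pderiv 1 P) ^ 2 *
        ((q j 1 - q (j - 1) 1) * (q (j + 1) 1 - q j 1)) =
      MvPolynomial.aeval (q j) (MvPolynomial.pderiv 0 P) ^ 2 *
        ((q j 0 - q (j - 1) 0) * (q (j + 1) 0 - q j 0))) ∧
    ∃ j i, q j i ∉ Set.range (algebraMap ℂ L)

/-- FIN: the theorem. -/
def St_FIN : Prop := ∀ (Ω : Set ℂ), Table Ω → ∀ (P : MvPolynomial (Fin 2) ℂ), Irreducible P →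
  (∀ p ∈ frontier Ω, MvPolynomial.eval ![p, conj p] P = 0) →
  ∀ (F G : Finset ℂ) (r : ℂ → ℕ), Hyp P F G r →
  ∀ n : ℕ, 0 < n → {x : ℤ → ℂ | Polygon Ω n x}.Finite

end H719FO
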