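import Mathlib
import Pool.Agent.H719R3.FO.Stubs
import Pool.Agent.H450R3.BH.KER

/-!
CEN: the places above a nonsingular point of the curve.
-/

set_option autoImplicit false

namespace H719FO

open IntermediateField H450BH WithZero

section Ring

variable {k F : Type} [Field k] [Field F] [Algebra k F]

/-- the kernel of the evaluation at `c` -/
noncomputable abbrev cenP (c : Fin 2 → k) : Ideal (MvPolynomial (Fin 2) k) :=
  RingHom.ker (MvPolynomial.eval c)

instance cenP_prime (c : Fin 2 → k) : (cenP c).IsPrime := RingHom.ker_isPrime _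

theorem cen_unit (f : MvPolynomial (Fin 2) k →ₐ[k] F) (c : Fin 2 → k)
    (hf : ∀ H, MvPolynomial.eval c H ≠ 0 → f H ≠ 0) (y : (cenP c).primeCompl) :
    IsUnit (f (y : MvPolynomial (Fin 2) k)) := by
  have h : MvPolynomial.eval c (y : MvPolynomial (Fin 2) k) ≠ 0 := y.2
  exact (hf _ h).isUnit

/-- the evaluation on the local ring at `c` -/
noncomputable def cenL (f : MvPolynomial (Fin 2) k →ₐ[k] F) (c : Fin 2 → k)
    (hf : ∀ H, MvPolynomial.eval c H ≠ 0 → f H ≠ 0) :
    Localization.AtPrime (cenP c) →ₐ[k] F :=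
  IsLocalization.liftAlgHom (M := (cenP c).primeCompl) (f := f) (cen_unit f c hf)

/-- the local ring of the curve at `c` -/
noncomputable def cenR (f : MvPolynomial (Fin 2) k →ₐ[k] F) (c : Fin 2 → k)
    (hf : ∀ H, MvPolynomial.eval c H ≠ 0 → f H ≠ 0) : Subalgebra k F :=
  (cenL f c hf).range

theorem mem_cenR (f : MvPolynomial (Fin 2) k →ₐ[k] F) (c : Fin 2 → k)
    (hf : ∀ H, MvPolynomial.eval c H ≠ 0 → f H ≠ 0) (x : F) :
    x ∈ cenR f c hf ↔ ∃ G H : MvPolynomial (Fin 2) k, MvPolynomial.eval c H ≠ 0 ∧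
      x * f H = f G := by
  constructor
  · rintro ⟨b, rfl⟩
    obtain ⟨G, H, hb⟩ := IsLocalization.exists_mk'_eq (cenP c).primeCompl b
    refine ⟨G, H, H.2, ?_⟩
    have h1 : (cenL f c hf) b * (cenL f c hf) (algebraMap _ _ (H : MvPolynomial (Fin 2) k)) =
        (cenL f c hf) (algebraMap _ _ G) := by
      rw [← map_mul, ← hb, IsLocalization.mk'_spec]
    have h2 : ∀ A : MvPolynomial (Fin 2) k, (cenL f c hf) (algebraMap _ _ A) = f A := by
      intro A
      unfold cenL
      rw [IsLocalization.coe_liftAlgHom, IsLocalization.lift_eq]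
      rfl
    rw [h2, h2] at h1
    exact h1
  · rintro ⟨G, H, hH, hx⟩
    have h2 : ∀ A : MvPolynomial (Fin 2) k, (cenL f c hf) (algebraMap _ _ A) = f A := by
      intro A
      unfold cenL
      rw [IsLocalization.coe_liftAlgHom, IsLocalization.lift_eq]
      rfl
    refine ⟨IsLocalization.mk' (Localization.AtPrime (cenP c)) G
      (⟨H, hH⟩ : (cenP c).primeCompl), ?_⟩
    have h3 : f H ≠ 0 := hf H hH
    apply mul_right_cancel₀ h3
    rw [hx]
    have h1 : (cenL f c hf) (IsLocalization.mk' (Localization.AtPrime (cenP c)) G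
      (⟨H, hH⟩ : (cenP c).primeCompl)) * (cenL f c hf) (algebraMap _ _ H) =
        (cenL f c hf) (algebraMap _ _ G) := by
      rw [← map_mul]
      congr 1
      exact IsLocalization.mk'_spec _ G (⟨H, hH⟩ : (cenP c).primeCompl)
    rw [h2, h2] at h1
    exact h1

instance cenR_noeth (f : MvPolynomial (Fin 2) k →ₐ[k] F) (c : Fin 2 → k)
    (hf : ∀ H, MvPolynomial.eval c H ≠ 0 → f H ≠ 0) : IsNoetherianRing (cenR f c hf) := by
  have : IsNoetherianRing (Localization.AtPrime (cenP c)) :=
    IsLocalization.isNoetherianRing (cenP c).primeCompl _ inferInstance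
  exact isNoetherianRing_of_surjective _ _ (cenL f c hf).rangeRestrict.toRingHom
    (cenL f c hf).rangeRestrict_surjective

instance cenR_local (f : MvPolynomial (Fin 2) k →ₐ[k] F) (c : Fin 2 → k)
    (hf : ∀ H, MvPolynomial.eval c H ≠ 0 → f H ≠ 0) : IsLocalRing (cenR f c hf) :=
  IsLocalRing.of_surjective' (cenL f c hf).rangeRestrict.toRingHom
    (cenL f c hf).rangeRestrict_surjective

theorem cen_poly_mem (f : MvPolynomial (Fin 2) k →ₐ[k] F) (c : Fin 2 → k)
    (hf : ∀ H, MvPolynomial.eval c H ≠ 0 → f H ≠ 0) (G : MvPolynomial (Fin 2) k) :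
    f G ∈ cenR f c hf := by
  rw [mem_cenR]
  exact ⟨G, 1, by simp, by simp⟩

theorem cen_inv_mem (f : MvPolynomial (Fin 2) k →ₐ[k] F) (c : Fin 2 → k)
    (hf : ∀ H, MvPolynomial.eval c H ≠ 0 → f H ≠ 0) (H : MvPolynomial (Fin 2) k)
    (hH : MvPolynomial.eval c H ≠ 0) : (f H)⁻¹ ∈ cenR f c hf := by
  rw [mem_cenR]
  exact ⟨1, H, hH, by rw [inv_mul_cancel₀ (hf H hH), map_one]⟩

/-- a polynomial which vanishes at `c` is in the ideal generated by `X_0 - c_0`, `X_1 - c_1` -/
theorem cen_taylor (c : Fin 2 → k) (D : MvPolynomial (Fin 2) k) :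
    ∃ A : Fin 2 → MvPolynomial (Fin 2) k,
      D - MvPolynomial.C (MvPolynomial.eval c D) =
        ∑ l, (MvPolynomial.X l - MvPolynomial.C (c l)) * A l := by
  induction D using MvPolynomial.induction_on with
  | C a => exact ⟨0, by simp⟩
  | add p q hp hq =>
    obtain ⟨A, hA⟩ := hp
    obtain ⟨B, hB⟩ := hq
    refine ⟨fun l => A l + B l, ?_⟩
    have : (∑ l, (MvPolynomial.X l - MvPolynomial.C (c l)) * (A l + B l)) =
        (∑ l, (MvPolynomial.X l - MvPolynomial.C (c l)) * A l) +
        ∑ l, (MvPolynomial.X l - MvPolynomial.C (c l)) * B l := by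
      rw [← Finset.sum_add_distrib]
      exact Finset.sum_congr rfl fun l _ => by ring
    rw [this, ← hA, ← hB, map_add, MvPolynomial.C_add]
    ring
  | mul_X p i hp =>
    obtain ⟨A, hA⟩ := hp
    refine ⟨fun l => A l * MvPolynomial.X i +
      if l = i then MvPolynomial.C (MvPolynomial.eval c p) else 0, ?_⟩
    have : (∑ l, (MvPolynomial.X l - MvPolynomial.C (c l)) * (A l * MvPolynomial.X i +
        if l = i then MvPolynomial.C (MvPolynomial.eval c p) else 0)) =
        (∑ l, (MvPolynomial.X l - MvPolynomial.C (c l)) * A l) * MvPolynomial.X i +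
        (MvPolynomial.X i - MvPolynomial.C (c i)) * MvPolynomial.C (MvPolynomial.eval c p) := by
      rw [Finset.sum_mul]
      have h2 : (MvPolynomial.X i - MvPolynomial.C (c i)) *
          MvPolynomial.C (MvPolynomial.eval c p) =
          ∑ l, (MvPolynomial.X l - MvPolynomial.C (c l)) *
            (if l = i then MvPolynomial.C (MvPolynomial.eval c p) else 0) := by
        simp
      rw [h2, ← Finset.sum_add_distrib]
      exact Finset.sum_congr rfl fun l _ => by ring
    rw [this, ← hA, map_mul, MvPolynomial.eval_X, MvPolynomial.C_mul]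
    ring

end Ring

theorem cen_fin (k K : Type) [Field k] [Field K] [Algebra k K] (hone : OneDim k K)
    (q : Fin 2 → K) (hnc : ∃ l, q l ∉ Set.range (algebraMap k K)) :
    FiniteDimensional k⟮q 0, q 1⟯ K := by
  obtain ⟨l, hl⟩ := hnc
  have h1 := hone.fin (q l) hl
  have hle : k⟮q l⟯ ≤ k⟮q 0, q 1⟯ := by
    rw [IntermediateField.adjoin_simple_le_iff]
    apply IntermediateField.subset_adjoin
    fin_cases l <;> simp
  let : Algebra k⟮q l⟯ k⟮q 0, q 1⟯ := (inclusion hle).toRingHom.toAlgebra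
  have : IsScalarTower k⟮q l⟯ k⟮q 0, q 1⟯ K := IsScalarTower.of_algebraMap_eq (fun x => rfl)
  exact Module.Finite.of_restrictScalars_finite k⟮q l⟯ k⟮q 0, q 1⟯ K

theorem CEN_proof (hDED : St_DED) : St_CEN := by
  intro k K _ _ _ _ _ hone i i' hii P c r hP hr hct q hq hnc
  obtain ⟨U, V, hPUV, hU, hV⟩ := hct
  have hqF : ∀ l : Fin 2, q l ∈ k⟮q 0, q 1⟯ := by
    intro l
    apply IntermediateField.subset_adjoin
    fin_cases l <;> simp
  have hfinF : FiniteDimensional k⟮q 0, q 1⟯ K := cen_fin k K hone q hnc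
  let a : Fin 2 → k⟮q 0, q 1⟯ := fun l => ⟨q l, hqF l⟩
  let f : MvPolynomial (Fin 2) k →ₐ[k] k⟮q 0, q 1⟯ := MvPolynomial.aeval a
  have hfq : ∀ G, algebraMap k⟮q 0, q 1⟯ K (f G) = MvPolynomial.aeval q G := by
    intro G
    have h1 := MvPolynomial.aeval_algebraMap_apply K a G
    rw [← h1]
    rfl
  have hinj : Function.Injective (algebraMap k⟮q 0, q 1⟯ K) :=
    (algebraMap k⟮q 0, q 1⟯ K).injective
  have htr : ∃ l, Transcendental k (q l) := by
    obtain ⟨l, hl⟩ := hnc
    exact ⟨l, hone.tr _ hl⟩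
  have hdvd : ∀ G, MvPolynomial.aeval q G = 0 → P ∣ G := ker_dvd P hP q hq htr
  have hPc : MvPolynomial.eval c P = 0 := by
    rw [hPUV]
    have : r ≠ 0 := by omega
    simp [this]
  have hzero : ∀ G, f G = 0 → MvPolynomial.eval c G = 0 := by
    intro G hG
    have h1 : MvPolynomial.aeval q G = 0 := by rw [← hfq, hG, map_zero]
    obtain ⟨A, hA⟩ := hdvd G h1
    rw [hA, map_mul, hPc, zero_mul]
  have hf : ∀ H, MvPolynomial.eval c H ≠ 0 → f H ≠ 0 := fun H hH h0 => hH (hzero H h0)
  -- the parameter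
  let T : MvPolynomial (Fin 2) k := MvPolynomial.X i' - MvPolynomial.C (c i')
  let S : MvPolynomial (Fin 2) k := MvPolynomial.X i - MvPolynomial.C (c i)
  have hS : f S * f U = -(f T) ^ r * f V := by
    have h1 : f P = 0 := by
      apply hinj
      rw [hfq, hq, map_zero]
    have h2 : f P = f S * f U + f T ^ r * f V := by
      rw [hPUV, map_add, map_mul, map_mul, map_pow]
    rw [h2] at h1
    linear_combination h1
  let R := cenR f c hf
  let t : R := ⟨f T, cen_poly_mem f c hf T⟩
  let y : R := ⟨-(f T) ^ (r - 1) * f V * (f U)⁻¹, by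
    exact R.mul_mem (R.mul_mem (R.neg_mem (R.pow_mem (cen_poly_mem f c hf T) _))
      (cen_poly_mem f c hf V)) (cen_inv_mem f c hf U hU)⟩
  have hSy : f S = f T * (y : k⟮q 0, q 1⟯) := by
    have h1 : f U ≠ 0 := hf U hU
    apply mul_right_cancel₀ h1
    rw [hS]
    have h2 : f T ^ r = f T * f T ^ (r - 1) := by
      rw [← pow_succ']
      congr 1
      omega
    change _ = f T * (-(f T) ^ (r - 1) * f V * (f U)⁻¹) * f U
    rw [h2]
    field_simp
  have hfSl : ∀ l : Fin 2, ∃ z : R, f (MvPolynomial.X l - MvPolynomial.C (c l)) =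
      f T * (z : k⟮q 0, q 1⟯) := by
    intro l
    have hl : l = i ∨ l = i' := by omega
    rcases hl with rfl | rfl
    · exact ⟨y, hSy⟩
    · exact ⟨1, by simp [T]⟩
  have ht0 : t ≠ 0 := by
    intro h
    have h1 : f T = 0 := congrArg Subtype.val h
    obtain ⟨l, hl⟩ := hnc
    apply hl
    obtain ⟨z, hz⟩ := hfSl l
    rw [h1, zero_mul] at hz
    have h2 := hfq (MvPolynomial.X l - MvPolynomial.C (c l))
    rw [hz, map_zero] at h2
    refine ⟨c l, ?_⟩
    have h3 : MvPolynomial.aeval q (MvPolynomial.X l - MvPolynomial.C (c l) :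
        MvPolynomial (Fin 2) k) = q l - algebraMap k K (c l) := by simp
    rw [h3] at h2
    exact (sub_eq_zero.1 h2.symm).symm
  have hres : ∀ x : R, ∃ b : k, x - algebraMap k R b ∈ Ideal.span {t} := by
    intro x
    obtain ⟨G, H, hH, hx⟩ := (mem_cenR f c hf x).1 x.2
    refine ⟨MvPolynomial.eval c G / MvPolynomial.eval c H, ?_⟩
    set b := MvPolynomial.eval c G / MvPolynomial.eval c H with hb
    obtain ⟨A, hA⟩ := cen_taylor c (G - MvPolynomial.C b * H)
    have h0 : MvPolynomial.eval c (G - MvPolynomial.C b * H) = 0 := by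
      rw [map_sub, map_mul, MvPolynomial.eval_C, hb]
      field_simp
      ring
    rw [h0, map_zero, sub_zero] at hA
    choose z hz using hfSl
    have h1 : ((x : k⟮q 0, q 1⟯) - algebraMap k _ b) * f H = f T * ∑ l, (z l : k⟮q 0, q 1⟯) * f (A l) := by
      have h2 : f (G - MvPolynomial.C b * H) = f G - algebraMap k _ b * f H := by
        rw [map_sub, map_mul]
        congr 2
        exact f.commutes b
      rw [sub_mul, hx, ← h2, hA, map_sum, Finset.mul_sum]
      refine Finset.sum_congr rfl fun l _ => ?_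
      rw [map_mul, hz l]
      ring
    rw [Ideal.mem_span_singleton]
    refine ⟨⟨(f H)⁻¹ * ∑ l, (z l : k⟮q 0, q 1⟯) * f (A l), ?_⟩, ?_⟩
    · refine R.mul_mem (cen_inv_mem f c hf H hH) (R.sum_mem fun l _ => ?_)
      exact R.mul_mem (z l).2 (cen_poly_mem f c hf (A l))
    · apply Subtype.ext
      change (x : k⟮q 0, q 1⟯) - algebraMap k _ b = f T * ((f H)⁻¹ * ∑ l, (z l : k⟮q 0, q 1⟯) * f (A l))
      have h3 : f H ≠ 0 := hf H hH
      apply mul_right_cancel₀ h3
      rw [h1]
      field_simp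
  have hmax : (Ideal.span {t}).IsMaximal := by
    rw [Ideal.isMaximal_iff]
    constructor
    · intro h
      rw [Ideal.mem_span_singleton] at h
      obtain ⟨x, hx⟩ := h
      obtain ⟨G, H, hH, hxG⟩ := (mem_cenR f c hf x).1 x.2
      have h1 : (1 : k⟮q 0, q 1⟯) = f T * (x : k⟮q 0, q 1⟯) := congrArg Subtype.val hx
      have h2 : f (T * G - H) = 0 := by
        rw [map_sub, map_mul, ← hxG]
        linear_combination (-f H) * h1
      have h3 := hzero _ h2
      rw [map_sub, map_mul] at h3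
      have h4 : MvPolynomial.eval c T = 0 := by simp [T]
      rw [h4, zero_mul, zero_sub, neg_eq_zero] at h3
      exact hH h3
    · intro J x hJ hxI hxJ
      obtain ⟨b, hb⟩ := hres x
      have hb0 : b ≠ 0 := by
        rintro rfl
        rw [map_zero, sub_zero] at hb
        exact hxI hb
      have h1 : algebraMap k R b ∈ J := by
        have := J.sub_mem hxJ (hJ hb)
        rwa [sub_sub_cancel] at this
      have h2 := J.mul_mem_left (algebraMap k R b⁻¹) h1
      rwa [← map_mul, inv_mul_cancel₀ hb0, map_one] at h2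
  have hDed : IsDedekindDomain R := by
    have h5 : (IsLocalRing.maximalIdeal R).IsPrincipal := by
      rw [← IsLocalRing.eq_maximalIdeal hmax]
      exact ⟨⟨t, rfl⟩⟩
    exact ((tfae_of_isNoetherianRing_of_isLocalRing_of_isDomain (R := R)).out 4 2).1 h5
  have hFrac : IsFractionRing R k⟮q 0, q 1⟯ := by
    apply IsFractionRing.of_field
    intro z
    have h1 : (z : K) ∈ adjoin k (Set.range q) := by
      have h2 : Set.range q = {q 0, q 1} := by
        ext w
        simp [Fin.exists_fin_two, eq_comm]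
      rw [h2]
      exact z.2
    obtain ⟨A, B, hAB⟩ := (mem_adjoin_range_iff k q _).1 h1
    refine ⟨⟨f A, cen_poly_mem f c hf A⟩, ⟨f B, cen_poly_mem f c hf B⟩, ?_⟩
    apply hinj
    change (z : K) = algebraMap k⟮q 0, q 1⟯ K (f A / f B)
    rw [map_div₀, hfq, hfq, hAB]
  obtain ⟨W, hW, hsum⟩ := hDED k R k⟮q 0, q 1⟯ K t ht0 hmax hres
  refine ⟨W, ?_, ?_⟩
  · intro w hw
    obtain ⟨h1, h2, h3⟩ := (hW w).1 hw
    refine ⟨h1, fun l => ?_⟩
    obtain ⟨z, hz⟩ := hfSl l
    have h4 : q l - algebraMap k K (c l) = algebraMap R K t * algebraMap R K z := by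
      have h5 := hfq (MvPolynomial.X l - MvPolynomial.C (c l))
      rw [hz, map_mul] at h5
      have h6 : MvPolynomial.aeval q (MvPolynomial.X l - MvPolynomial.C (c l) :
        MvPolynomial (Fin 2) k) = q l - algebraMap k K (c l) := by simp
      rw [← h6, ← h5]
      rfl
    rw [h4, map_mul]
    exact mul_lt_one_of_lt_of_le h3 (h2 z)
  · have h4 : algebraMap R K t = q i' - algebraMap k K (c i') := by
      have h5 := hfq T
      have h6 : MvPolynomial.aeval q T = q i' - algebraMap k K (c i') := by simp [T]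
      rw [← h6, ← h5]
      rfl
    rw [← h4, hsum]

end H719FO
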