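import Mathlib
import Pool.Agent.H719R3.FO.Stubs

/-! Preparations for CNT: the data of a vertex at a place. -/

set_option autoImplicit false

namespace H719FO

open IntermediateField H450BH WithZero

section Poles

variable {K : Type} [Field K]

/-- the order of the pole -/
noncomputable def po (w : Valuation K ℤᵐ⁰) (f : K) : ℤ := max 0 (-od w f)

theorem po_nonneg (w : Valuation K ℤᵐ⁰) (f : K) : 0 ≤ po w f := le_max_left _ _

theorem le_exp_po (w : Valuation K ℤᵐ⁰) (f : K) : w f ≤ WithZero.exp (po w f) := by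
  by_cases hf : f = 0
  · rw [hf, map_zero]; exact zero_le
  · rw [w_eq w hf, WithZero.exp_le_exp]
    exact le_max_right _ _

theorem po_eq_zero_iff (w : Valuation K ℤᵐ⁰) (f : K) : po w f = 0 ↔ w f ≤ 1 := by
  by_cases hf : f = 0
  · rw [hf, map_zero]
    simp [po]
  · rw [le_one_iff w hf, po]
    omega

theorem w_eq_exp_po (w : Valuation K ℤᵐ⁰) {f : K} (hf : 0 < po w f) :
    w f = WithZero.exp (po w f) := by
  have h0 : f ≠ 0 := by
    rintro rfl
    simp [po] at hf
  rw [w_eq w h0]
  congr 1
  unfold po at *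
  omega

theorem diff_lower (w : Valuation K ℤᵐ⁰) {f g : K} (h : g - f ≠ 0) :
    -max (po w f) (po w g) ≤ od w (g - f) := by
  have h1 : w (g - f) ≤ WithZero.exp (max (po w f) (po w g)) := by
    refine (w.map_sub g f).trans (max_le ?_ ?_)
    · refine (le_exp_po w g).trans ?_
      rw [WithZero.exp_le_exp]
      exact le_max_right _ _
    · refine (le_exp_po w f).trans ?_
      rw [WithZero.exp_le_exp]
      exact le_max_left _ _
  rw [w_eq w h, WithZero.exp_le_exp] at h1
  linarith

theorem diff_eq (w : Valuation K ℤᵐ⁰) {f g : K} (h : po w f ≠ po w g) :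
    od w (g - f) = -max (po w f) (po w g) := by
  rcases lt_or_gt_of_ne h with h1 | h1
  · have h2 : w g = WithZero.exp (po w g) := w_eq_exp_po w (lt_of_le_of_lt (po_nonneg w f) h1)
    have h3 : w f < w g := by
      rw [h2]
      refine lt_of_le_of_lt (le_exp_po w f) ?_
      rw [WithZero.exp_lt_exp]
      exact h1
    have h4 : w (g - f) = w g := Valuation.map_sub_eq_of_lt_left w h3
    unfold od
    rw [h4, h2, WithZero.log_exp, max_eq_right h1.le]
  · have h2 : w f = WithZero.exp (po w f) := w_eq_exp_po w (lt_of_le_of_lt (po_nonneg w g) h1)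
    have h3 : w g < w f := by
      rw [h2]
      refine lt_of_le_of_lt (le_exp_po w g) ?_
      rw [WithZero.exp_lt_exp]
      exact h1
    have h4 : w (g - f) = w f := Valuation.map_sub_eq_of_lt_right w h3
    unfold od
    rw [h4, h2, WithZero.log_exp, max_eq_left h1.le]

end Poles

section PlLem

variable {k K : Type} [Field k] [Field K] [Algebra k K] {w : Valuation K ℤᵐ⁰}

theorem Pl.const_le (hw : Pl k K w) (c : k) : w (algebraMap k K c) ≤ 1 := by
  by_cases hc : c = 0
  · rw [hc, map_zero, map_zero]; exact zero_le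
  · rw [hw.triv c hc]

theorem Pl.od_const (hw : Pl k K w) (c : k) : od w (algebraMap k K c) = 0 := by
  by_cases hc : c = 0
  · rw [hc, map_zero, od_zero]
  · rw [← eq_one_iff w (by rwa [Ne, map_eq_zero])]
    exact hw.triv c hc

theorem Pl.le_one_of_near (hw : Pl k K w) {f : K} {c : k} (h : w (f - algebraMap k K c) < 1) :
    w f ≤ 1 := by
  have : f = (f - algebraMap k K c) + algebraMap k K c := by ring
  rw [this]
  exact (w.map_add _ _).trans (max_le h.le (hw.const_le c))

theorem Pl.eq_of_near (hw : Pl k K w) {f : K} {c c' : k} (h : w (f - algebraMap k K c) < 1)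
    (h' : w (f - algebraMap k K c') < 1) : c = c' := by
  by_contra hne
  have h1 : w (algebraMap k K (c' - c)) < 1 := by
    have : algebraMap k K (c' - c) = (f - algebraMap k K c) - (f - algebraMap k K c') := by
      rw [map_sub]; ring
    rw [this]
    exact lt_of_le_of_lt (w.map_sub _ _) (max_lt h h')
  rw [hw.triv _ (sub_ne_zero.2 (Ne.symm hne))] at h1
  exact lt_irrefl _ h1

theorem Pl.od_diff_far (hw : Pl k K w) {f g : K} {c c' : k} (h : w (f - algebraMap k K c) < 1)
    (h' : w (g - algebraMap k K c') < 1) (hne : c ≠ c') : od w (g - f) = 0 := by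
  have h1 : w (algebraMap k K (c' - c)) = 1 := hw.triv _ (sub_ne_zero.2 (Ne.symm hne))
  have h2 : w (g - f) = 1 := by
    have e : g - f = algebraMap k K (c' - c) + ((g - algebraMap k K c') - (f - algebraMap k K c)) := by
      rw [map_sub]; ring
    rw [e]
    have h3 : w ((g - algebraMap k K c') - (f - algebraMap k K c)) < 1 :=
      lt_of_le_of_lt (w.map_sub _ _) (max_lt h' h)
    rw [Valuation.map_add_eq_of_lt_left w (by rw [h1]; exact h3), h1]
  unfold od
  rw [h2, WithZero.log_one, neg_zero]

end PlLem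

section Vertex

variable {k K : Type} [Field k] [Field K] [Algebra k K]

theorem Slot.Ok.cases {s : Slot k} {P : MvPolynomial (Fin 2) k} (h : s.Ok P) :
    (s.i = 0 ∧ s.i' = 1) ∨ (s.i = 1 ∧ s.i' = 0) := by
  have := h.ne
  generalize s.i = i at *
  generalize s.i' = i' at *
  fin_cases i <;> fin_cases i' <;> simp_all

theorem Slot.Cen.po_i {s : Slot k} {w : Valuation K ℤᵐ⁰} (hw : Pl k K w) {q : Fin 2 → K}
    (h : s.Cen w q) : po w (q s.i) = 0 :=
  (po_eq_zero_iff w _).2 (hw.le_one_of_near h.1)

theorem Slot.Cen.po_fin {s : Slot k} {w : Valuation K ℤᵐ⁰} (hw : Pl k K w) {q : Fin 2 → K}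
    (h : s.Cen w q) (hs : s.inf = false) : po w (q s.i') = 0 :=
  (po_eq_zero_iff w _).2 (hw.le_one_of_near (h.2.1 hs))

theorem Slot.Cen.po_inf {s : Slot k} {w : Valuation K ℤᵐ⁰} {q : Fin 2 → K}
    (h : s.Cen w q) (hs : s.inf = true) : po w (q s.i') = s.mu w q ∧ 0 < s.mu w q := by
  obtain ⟨h0, h1⟩ := h.2.2 hs
  have h2 : 0 < od w (q s.i')⁻¹ := (lt_one_iff w (inv_ne_zero h0)).1 h1
  rw [od_inv] at h2
  unfold Slot.mu po
  rw [if_pos hs]
  omega

end Vertex

end H719FO
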