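import Mathlib
import Pool.Agent.H719R3.FO.CntAux

/-! The data of a vertex at a place. -/

set_option autoImplicit false

namespace H719FO

open IntermediateField H450BH WithZero

section VData

variable {k K : Type} [Field k] [Field K] [Algebra k K] {ι : Type} (s : ι → Slot k)

open Classical in
/-- the slot of a point at a place -/
noncomputable def slotAt (w : Valuation K ℤᵐ⁰) (q : Fin 2 → K) : Option ι :=
  if h : (∃ l, q l ∉ Set.range (algebraMap k K)) ∧ ∃ a, (s a).Cen w q then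
    some h.2.choose else none

/-- the data of a vertex at a place -/
noncomputable def vdat (w : Valuation K ℤᵐ⁰) (q : Fin 2 → K) : VD where
  a := po w (q 0)
  b := po w (q 1)
  ty := (slotAt s w q).elim 0 fun a => if (s a).i = 0 then 1 else 2
  r := (slotAt s w q).elim 0 fun a => (s a).r
  μ := (slotAt s w q).elim 0 fun a => (s a).mu w q

theorem vdat_cases (w : Valuation K ℤᵐ⁰) (q : Fin 2 → K) :
    (¬ ((∃ l, q l ∉ Set.range (algebraMap k K)) ∧ ∃ a, (s a).Cen w q) ∧
      (vdat s w q).ty = 0) ∨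
    ∃ a, (∃ l, q l ∉ Set.range (algebraMap k K)) ∧ (s a).Cen w q ∧
      (vdat s w q).ty = (if (s a).i = 0 then 1 else 2) ∧ (vdat s w q).r = (s a).r ∧
      (vdat s w q).μ = (s a).mu w q := by
  classical
  by_cases h : (∃ l, q l ∉ Set.range (algebraMap k K)) ∧ ∃ a, (s a).Cen w q
  · right
    refine ⟨h.2.choose, h.1, h.2.choose_spec, ?_⟩
    unfold vdat slotAt
    rw [dif_pos h]
    simp
  · left
    refine ⟨h, ?_⟩
    unfold vdat slotAt
    rw [dif_neg h]
    simp

variable [CharZero k] {P : MvPolynomial (Fin 2) k} {w : Valuation K ℤᵐ⁰}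

omit [CharZero k] in
theorem slot_r {t : Slot k} (ht : t.Ok P) : 1 ≤ t.r := by
  by_cases h : t.inf = true
  · exact (ht.infi h).1
  · rw [Bool.not_eq_true] at h
    have := (ht.fin h).2
    omega

/-- a slot of the first kind or (swapped) of the second kind -/
theorem slot_ok1 (hV : St_SLV) (hw : Pl k K w) {t : Slot k} (ht : t.Ok P) {q : Fin 2 → K}
    (hq : MvPolynomial.aeval q P = 0) (hnc : ∃ l, q l ∉ Set.range (algebraMap k K))
    (hc : t.Cen w q) :
    0 < t.mu w q ∧ (1 : ℤ) ≤ t.r ∧ po w (q t.i) = 0 ∧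
      ((t.inf = false ∧ po w (q t.i') = 0 ∧ (2 : ℤ) ≤ t.r) ∨
        (t.inf = true ∧ po w (q t.i') = t.mu w q)) := by
  refine ⟨(hV k K w hw P t ht q hq hnc hc).1, by exact_mod_cast slot_r ht, hc.po_i hw, ?_⟩
  by_cases h : t.inf = true
  · exact Or.inr ⟨h, (hc.po_inf h).1⟩
  · rw [Bool.not_eq_true] at h
    exact Or.inl ⟨h, hc.po_fin hw h, by exact_mod_cast (ht.fin h).2⟩

theorem vdat_ok (hV : St_SLV) (hw : Pl k K w) (hok : ∀ a, (s a).Ok P) {q : Fin 2 → K}
    (hq : MvPolynomial.aeval q P = 0) : (vdat s w q).ok1 ∧ (vdat s w q).sw.ok1 := by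
  rcases vdat_cases s w q with ⟨-, h⟩ | ⟨a, hnc, hc, hty, hr, hμ⟩
  · refine ⟨fun h1 => ?_, fun h1 => ?_⟩
    · rw [h] at h1; exact absurd h1 (by norm_num)
    · simp only [VD.sw, h] at h1
      exact absurd h1 (by norm_num)
  · obtain ⟨h1, h2, h3, h4⟩ := slot_ok1 hV hw (hok a) hq hnc hc
    rcases (hok a).cases with ⟨hi, hi'⟩ | ⟨hi, hi'⟩
    · rw [if_pos hi] at hty
      refine ⟨fun _ => ?_, fun h5 => ?_⟩
      · rw [hr, hμ]
        rw [hi] at h3
        rw [hi'] at h4
        refine ⟨h1, h2, h3, ?_⟩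
        rcases h4 with ⟨-, h4, h5⟩ | ⟨-, h4⟩
        · exact Or.inl ⟨h4, h5⟩
        · exact Or.inr h4
      · simp only [VD.sw, hty] at h5
        exact absurd h5 (by norm_num)
    · have hty' : (vdat s w q).ty = 2 := by
        rw [hty, if_neg (by rw [hi]; norm_num)]
      refine ⟨fun h5 => ?_, fun _ => ?_⟩
      · rw [hty'] at h5
        exact absurd h5 (by norm_num)
      · show 0 < (vdat s w q).μ ∧ 1 ≤ (vdat s w q).r ∧ (vdat s w q).b = 0 ∧
          (((vdat s w q).a = 0 ∧ 2 ≤ (vdat s w q).r) ∨ (vdat s w q).a = (vdat s w q).μ)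
        rw [hr, hμ]
        rw [hi] at h3
        rw [hi'] at h4
        refine ⟨h1, h2, h3, ?_⟩
        rcases h4 with ⟨-, h4, h5⟩ | ⟨-, h4⟩
        · exact Or.inl ⟨h4, h5⟩
        · exact Or.inr h4

/-- the same slot at two neighbouring vertices -/
theorem slot_same (hV : St_SLV) (hE : St_SLE) (hw : Pl k K w) {t : Slot k} (ht : t.Ok P)
    {q q' : Fin 2 → K}
    (hq : MvPolynomial.aeval q P = 0) (hnc : ∃ l, q l ∉ Set.range (algebraMap k K))
    (hc : t.Cen w q) (hq' : MvPolynomial.aeval q' P = 0)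
    (hnc' : ∃ l, q' l ∉ Set.range (algebraMap k K))
    (hc' : t.Cen w q') (hne : ∀ l, q' l ≠ q l) (u v : VD) (hur : u.r = t.r) (hvr : v.r = t.r)
    (hu : u.μ = t.mu w q) (hv : v.μ = t.mu w q') (hub : u.b = po w (q t.i'))
    (hvb : v.b = po w (q' t.i')) :
    Same1 u v (od w (q' t.i - q t.i)) (od w (q' t.i' - q t.i')) := by
  obtain ⟨h1, -, -, h4⟩ := slot_ok1 hV hw ht hq hnc hc
  obtain ⟨h1', -, -, h4'⟩ := slot_ok1 hV hw ht hq' hnc' hc'
  have hβ : (if t.inf = true then t.mu w q else 0) = u.b := by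
    rw [hub]
    rcases h4 with ⟨hf, h, -⟩ | ⟨hf, h⟩
    · rw [hf, h]; simp
    · rw [if_pos hf, h]
  have hβ' : (if t.inf = true then t.mu w q' else 0) = v.b := by
    rw [hvb]
    rcases h4' with ⟨hf, h, -⟩ | ⟨hf, h⟩
    · rw [hf, h]; simp
    · rw [if_pos hf, h]
  obtain ⟨e1, e2, e3, e4, e5⟩ := hE k K w hw P t ht q q' hq hnc hc hq' hnc' hc' hne u.μ v.μ u.b v.b
    (od w (q' t.i - q t.i)) (od w (q' t.i' - q t.i')) hu.symm hv.symm (by rw [hu]; exact hβ)
    (by rw [hv]; exact hβ') rfl rfl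
  refine ⟨by rw [hur, hvr], ?_, e1, e2, by rw [hur]; exact e3, by rw [hur]; exact e4, ?_⟩
  · rw [hub, hvb]
    rcases h4 with ⟨hf, h, -⟩ | ⟨hf, h⟩ <;> rcases h4' with ⟨hf', h', -⟩ | ⟨hf', h'⟩
    · rw [h, h']
    · rw [hf] at hf'; exact absurd hf' (by simp)
    · rw [hf] at hf'; exact absurd hf' (by simp)
    · rw [h, h']
      constructor <;> intro h0 <;> omega
  · rw [hur]
    intro h5
    obtain ⟨h6, h7⟩ := e5 h5
    exact ⟨h6, by exact_mod_cast h7⟩

theorem vdat_edge (hV : St_SLV) (hE : St_SLE) (hw : Pl k K w) (hok : ∀ a, (s a).Ok P)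
    (hinj : ∀ a b, (s a).i = (s b).i → (s a).c (s a).i = (s b).c (s b).i → a = b)
    {q q' : Fin 2 → K} (hq : MvPolynomial.aeval q P = 0) (hq' : MvPolynomial.aeval q' P = 0)
    (hne : ∀ l, q' l ≠ q l) :
    Edge1 (vdat s w q) (vdat s w q') (od w (q' 0 - q 0)) (od w (q' 1 - q 1)) ∧
    Edge1 (vdat s w q).sw (vdat s w q').sw (od w (q' 1 - q 1)) (od w (q' 0 - q 0)) := by
  constructor
  · refine ⟨diff_lower w (sub_ne_zero.2 (hne 0)), fun h => diff_eq w h, ?_⟩
    intro h1 h2
    rcases vdat_cases s w q with ⟨-, h⟩ | ⟨a, hnc, hc, hty, hr, hμ⟩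
    · rw [h] at h1; exact absurd h1 (by norm_num)
    rcases vdat_cases s w q' with ⟨-, h⟩ | ⟨a', hnc', hc', hty', hr', hμ'⟩
    · rw [h] at h2; exact absurd h2 (by norm_num)
    have hi : (s a).i = 0 := by
      by_contra h
      rw [hty, if_neg h] at h1
      exact absurd h1 (by norm_num)
    have hi' : (s a').i = 0 := by
      by_contra h
      rw [hty', if_neg h] at h2
      exact absurd h2 (by norm_num)
    by_cases haa : a = a'
    · subst haa
      right
      have h01 : (s a).i' = 1 := by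
        rcases (hok a).cases with ⟨-, h⟩ | ⟨h, -⟩
        · exact h
        · rw [hi] at h; exact absurd h (by norm_num)
      have := slot_same hV hE hw (hok a) hq hnc hc hq' hnc' hc' hne (vdat s w q) (vdat s w q')
        hr hr' hμ hμ' (by rw [h01]; rfl) (by rw [h01]; rfl)
      rw [hi, h01] at this
      exact this
    · left
      have hcc : (s a).c (s a).i ≠ (s a').c (s a').i := fun h => haa (hinj a a' (hi.trans hi'.symm) h)
      have := hw.od_diff_far hc.1 hc'.1 hcc
      rw [hi, hi'] at this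
      exact this
  · refine ⟨diff_lower w (sub_ne_zero.2 (hne 1)), fun h => diff_eq w h, ?_⟩
    intro h1 h2
    rcases vdat_cases s w q with ⟨-, h⟩ | ⟨a, hnc, hc, hty, hr, hμ⟩
    · simp only [VD.sw, h] at h1; exact absurd h1 (by norm_num)
    rcases vdat_cases s w q' with ⟨-, h⟩ | ⟨a', hnc', hc', hty', hr', hμ'⟩
    · simp only [VD.sw, h] at h2; exact absurd h2 (by norm_num)
    have hi : (s a).i ≠ 0 := by
      intro h
      simp only [VD.sw, hty, if_pos h] at h1
      exact absurd h1 (by norm_num)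
    have hi' : (s a').i ≠ 0 := by
      intro h
      simp only [VD.sw, hty', if_pos h] at h2
      exact absurd h2 (by norm_num)
    have hi1 : (s a).i = 1 ∧ (s a).i' = 0 := by
      rcases (hok a).cases with ⟨h, -⟩ | h
      · exact absurd h hi
      · exact h
    have hi1' : (s a').i = 1 ∧ (s a').i' = 0 := by
      rcases (hok a').cases with ⟨h, -⟩ | h
      · exact absurd h hi'
      · exact h
    by_cases haa : a = a'
    · subst haa
      right
      have := slot_same hV hE hw (hok a) hq hnc hc hq' hnc' hc' hne (vdat s w q).sw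
        (vdat s w q').sw hr hr' hμ hμ' (by rw [hi1.2]; rfl) (by rw [hi1.2]; rfl)
      rw [hi1.1, hi1.2] at this
      exact this
    · left
      have hcc : (s a).c (s a).i ≠ (s a').c (s a').i :=
        fun h => haa (hinj a a' (hi1.1.trans hi1'.1.symm) h)
      have := hw.od_diff_far hc.1 hc'.1 hcc
      rw [hi1.1, hi1'.1] at this
      exact this

/-- the law of reflection in orders -/
theorem law_od {p0 p1 z z' y y' : K} (h0 : p0 ≠ 0) (h1 : p1 ≠ 0) (hz : z ≠ 0) (hz' : z' ≠ 0)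
    (hy : y ≠ 0) (hy' : y' ≠ 0) (h : p1 ^ 2 * (y * y') = p0 ^ 2 * (z * z')) :
    (od w z - od w y) + (od w z' - od w y') = 2 * (od w p1 - od w p0) := by
  have e := congrArg (od w) h
  rw [od_mul w (pow_ne_zero 2 h1) (mul_ne_zero hy hy'), od_mul w (pow_ne_zero 2 h0)
    (mul_ne_zero hz hz'), od_mul w hy hy', od_mul w hz hz', od_pow, od_pow] at e
  push_cast at e
  linarith

theorem vdat_law1 (hV : St_SLV) (hw : Pl k K w) (hok : ∀ a, (s a).Ok P)
    {qm q qp : Fin 2 → K} (hq : MvPolynomial.aeval q P = 0) (hm : ∀ l, q l ≠ qm l)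
    (hp : ∀ l, qp l ≠ q l)
    (hlaw : (∃ i, q i ∉ Set.range (algebraMap k K)) →
      MvPolynomial.aeval q (MvPolynomial.pderiv 1 P) ^ 2 * ((q 1 - qm 1) * (qp 1 - q 1)) =
      MvPolynomial.aeval q (MvPolynomial.pderiv 0 P) ^ 2 * ((q 0 - qm 0) * (qp 0 - q 0)))
    (hty : (vdat s w q).ty = 1) :
    (od w (q 0 - qm 0) - od w (q 1 - qm 1)) + (od w (qp 0 - q 0) - od w (qp 1 - q 1)) =
    if (vdat s w q).b = 0 then 2 * (((vdat s w q).r - 1) * (vdat s w q).μ)
      else 2 * (((vdat s w q).r + 1) * (vdat s w q).μ) := by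
  rcases vdat_cases s w q with ⟨-, h⟩ | ⟨a, hnc, hc, hty', hr, hμ⟩
  · rw [h] at hty; exact absurd hty (by norm_num)
  have hi : (s a).i = 0 := by
    by_contra h
    rw [hty', if_neg h] at hty
    exact absurd hty (by norm_num)
  have hi' : (s a).i' = 1 := by
    rcases (hok a).cases with ⟨-, h⟩ | ⟨h, -⟩
    · exact h
    · rw [hi] at h; exact absurd h (by norm_num)
  obtain ⟨g1, g2, g3, g4⟩ := hV k K w hw P (s a) (hok a) q hq hnc hc
  rw [hi] at g2 g4
  rw [hi'] at g3 g4
  rw [law_od g2 g3 (sub_ne_zero.2 (hm 0)) (sub_ne_zero.2 (hp 0)) (sub_ne_zero.2 (hm 1))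
    (sub_ne_zero.2 (hp 1)) (hlaw hnc), g4, hr, hμ]
  have hb : (vdat s w q).b = po w (q 1) := rfl
  rw [hb]
  by_cases hf : (s a).inf = true
  · have h2 := (hc.po_inf hf)
    rw [hi'] at h2
    rw [if_pos hf, if_neg (by rw [h2.1]; exact h2.2.ne')]
  · rw [Bool.not_eq_true] at hf
    have h2 := hc.po_fin hw hf
    rw [hi'] at h2
    rw [if_pos h2, if_neg (by rw [hf]; simp)]

theorem vdat_law2 (hV : St_SLV) (hw : Pl k K w) (hok : ∀ a, (s a).Ok P)
    {qm q qp : Fin 2 → K} (hq : MvPolynomial.aeval q P = 0) (hm : ∀ l, q l ≠ qm l)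
    (hp : ∀ l, qp l ≠ q l)
    (hlaw : (∃ i, q i ∉ Set.range (algebraMap k K)) →
      MvPolynomial.aeval q (MvPolynomial.pderiv 1 P) ^ 2 * ((q 1 - qm 1) * (qp 1 - q 1)) =
      MvPolynomial.aeval q (MvPolynomial.pderiv 0 P) ^ 2 * ((q 0 - qm 0) * (qp 0 - q 0)))
    (hty : (vdat s w q).ty = 2) :
    (od w (q 1 - qm 1) - od w (q 0 - qm 0)) + (od w (qp 1 - q 1) - od w (qp 0 - q 0)) =
    if (vdat s w q).a = 0 then 2 * (((vdat s w q).r - 1) * (vdat s w q).μ)
      else 2 * (((vdat s w q).r + 1) * (vdat s w q).μ) := by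
  rcases vdat_cases s w q with ⟨-, h⟩ | ⟨a, hnc, hc, hty', hr, hμ⟩
  · rw [h] at hty; exact absurd hty (by norm_num)
  have hi0 : (s a).i ≠ 0 := by
    intro h
    rw [hty', if_pos h] at hty
    exact absurd hty (by norm_num)
  obtain ⟨hi, hi'⟩ : (s a).i = 1 ∧ (s a).i' = 0 := by
    rcases (hok a).cases with ⟨h, -⟩ | h
    · exact absurd h hi0
    · exact h
  obtain ⟨g1, g2, g3, g4⟩ := hV k K w hw P (s a) (hok a) q hq hnc hc
  rw [hi] at g2 g4
  rw [hi'] at g3 g4
  rw [law_od g2 g3 (sub_ne_zero.2 (hm 1)) (sub_ne_zero.2 (hp 1)) (sub_ne_zero.2 (hm 0))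
    (sub_ne_zero.2 (hp 0)) (hlaw hnc).symm, g4, hr, hμ]
  have hb : (vdat s w q).a = po w (q 0) := rfl
  rw [hb]
  by_cases hf : (s a).inf = true
  · have h2 := (hc.po_inf hf)
    rw [hi'] at h2
    rw [if_pos hf, if_neg (by rw [h2.1]; exact h2.2.ne')]
  · rw [Bool.not_eq_true] at hf
    have h2 := hc.po_fin hw hf
    rw [hi'] at h2
    rw [if_pos h2, if_neg (by rw [hf]; simp)]

/-- a point is centred at one slot only -/
theorem slot_unique (hV : St_SLV) (hw : Pl k K w) (hok : ∀ a, (s a).Ok P)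
    (hinj : ∀ a b, (s a).i = (s b).i → (s a).c (s a).i = (s b).c (s b).i → a = b)
    {q : Fin 2 → K} (hq : MvPolynomial.aeval q P = 0)
    (hnc : ∃ l, q l ∉ Set.range (algebraMap k K)) {a b : ι} (ha : (s a).Cen w q)
    (hb : (s b).Cen w q) : a = b := by
  have key : ∀ c : ι, (s c).Cen w q → 0 < od w (MvPolynomial.aeval q (MvPolynomial.pderiv (s c).i' P)) -
      od w (MvPolynomial.aeval q (MvPolynomial.pderiv (s c).i P)) := by
    intro c hc
    obtain ⟨g1, g2, g3, g4⟩ := hV k K w hw P (s c) (hok c) q hq hnc hc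
    rw [g4]
    by_cases hf : (s c).inf = true
    · rw [if_pos hf]; positivity
    · rw [if_neg hf]
      rw [Bool.not_eq_true] at hf
      have := ((hok c).fin hf).2
      have h2 : (2 : ℤ) ≤ (s c).r := by exact_mod_cast this
      have : (0 : ℤ) < (s c).r - 1 := by linarith
      positivity
  have ka := key a ha
  have kb := key b hb
  rcases (hok a).cases with ⟨hi, hi'⟩ | ⟨hi, hi'⟩ <;>
    rcases (hok b).cases with ⟨hj, hj'⟩ | ⟨hj, hj'⟩
  · refine hinj a b (hi.trans hj.symm) ?_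
    have h1 := ha.1
    have h2 := hb.1
    have e : (s a).i = (s b).i := hi.trans hj.symm
    rw [← e] at h2
    have := hw.eq_of_near h1 h2
    rw [← e]
    exact this
  · rw [hi, hi'] at ka
    rw [hj, hj'] at kb
    linarith
  · rw [hi, hi'] at ka
    rw [hj, hj'] at kb
    linarith
  · refine hinj a b (hi.trans hj.symm) ?_
    have h1 := ha.1
    have h2 := hb.1
    have e : (s a).i = (s b).i := hi.trans hj.symm
    rw [← e] at h2
    have := hw.eq_of_near h1 h2
    rw [← e]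
    exact this

open Classical in
theorem vdat_v2 [Fintype ι] (hV : St_SLV) (hw : Pl k K w) (hok : ∀ a, (s a).Ok P)
    (hinj : ∀ a b, (s a).i = (s b).i → (s a).c (s a).i = (s b).c (s b).i → a = b)
    {q : Fin 2 → K} (hq : MvPolynomial.aeval q P = 0)
    (hnc : ∃ l, q l ∉ Set.range (algebraMap k K)) :
    (∑ a, if (s a).Cen w q then ((s a).wt : ℤ) * (s a).mu w q else 0) -
      8 * max (po w (q 0)) (po w (q 1)) ≤ (vdat s w q).v2 := by
  rcases vdat_cases s w q with ⟨hno, h⟩ | ⟨a, -, hc, hty, hr, hμ⟩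
  · have hz : (∑ a, if (s a).Cen w q then ((s a).wt : ℤ) * (s a).mu w q else 0) = 0 := by
      refine Finset.sum_eq_zero fun a _ => ?_
      rw [if_neg]
      exact fun ha => hno ⟨hnc, a, ha⟩
    rw [hz]
    unfold VD.v2
    rw [h]
    simp only [zero_sub, OfNat.zero_ne_ofNat, zero_ne_one, if_false]
    show _ ≤ -8 * max (po w (q 0)) (po w (q 1))
    linarith
  · have hz : (∑ a, if (s a).Cen w q then ((s a).wt : ℤ) * (s a).mu w q else 0) =
        (s a).wt * (s a).mu w q := by
      rw [Finset.sum_eq_single a]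
      · rw [if_pos hc]
      · intro b _ hb
        rw [if_neg]
        intro hb'
        exact hb (slot_unique s hV hw hok hinj hq hnc hb' hc)
      · intro h; exact absurd (Finset.mem_univ a) h
    rw [hz]
    obtain ⟨h1, h2, h3, h4⟩ := slot_ok1 hV hw (hok a) hq hnc hc
    have ea : (vdat s w q).a = po w (q 0) := rfl
    have eb : (vdat s w q).b = po w (q 1) := rfl
    rcases (hok a).cases with ⟨hi, hi'⟩ | ⟨hi, hi'⟩
    · rw [hi] at h3
      rw [hi'] at h4
      rw [if_pos hi] at hty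
      have hv : (vdat s w q).v2 = if po w (q 1) = 0 then 2 * ((s a).r * (s a).mu w q)
          else (2 * (s a).r - 5) * (s a).mu w q := by
        unfold VD.v2
        rw [if_pos hty, hr, hμ, eb]
      rw [hv, h3]
      unfold Slot.wt
      rcases h4 with ⟨hf, h4, h5⟩ | ⟨hf, h4⟩
      · rw [h4, if_neg (by rw [hf]; simp), if_pos rfl]
        push_cast
        simp only [max_self, mul_zero, sub_zero]
        linarith
      · rw [h4, if_pos hf, if_neg h1.ne', max_eq_right h1.le]
        push_cast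
        linarith
    · rw [hi] at h3
      rw [hi'] at h4
      have hty2 : (vdat s w q).ty = 2 := by
        rw [hty, if_neg (by rw [hi]; norm_num)]
      have hv : (vdat s w q).v2 = if po w (q 0) = 0 then 2 * ((s a).r * (s a).mu w q)
          else (2 * (s a).r - 5) * (s a).mu w q := by
        unfold VD.v2
        rw [if_neg (by rw [hty2]; norm_num), if_pos hty2, hr, hμ, ea]
      rw [hv, h3]
      unfold Slot.wt
      rcases h4 with ⟨hf, h4, h5⟩ | ⟨hf, h4⟩
      · rw [h4, if_neg (by rw [hf]; simp), if_pos rfl]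
        push_cast
        simp only [max_self, mul_zero, sub_zero]
        linarith
      · rw [h4, if_pos hf, if_neg h1.ne', max_eq_left h1.le]
        push_cast
        linarith

end VData

end H719FO
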