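import Mathlib
import Pool.Agent.H719R3.FO.CntVd

/-! The counting in the function field. -/

set_option autoImplicit false

namespace H719FO

open IntermediateField H450BH WithZero

theorem cnt_fin_pos {k K : Type} [Field k] [Field K] [Algebra k K] (h1 : OneDim k K)
    {q : Fin 2 → K} (h : ∃ l, q l ∉ Set.range (algebraMap k K)) :
    0 < Module.finrank k⟮q 0, q 1⟯ K := by
  obtain ⟨l, hl⟩ := h
  have hf := h1.fin _ hl
  have hle : k⟮q l⟯ ≤ k⟮q 0, q 1⟯ := by
    rw [adjoin_simple_le_iff]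
    fin_cases l
    · exact subset_adjoin k {q 0, q 1} (by simp)
    · exact subset_adjoin k {q 0, q 1} (by simp)
  have : FiniteDimensional k⟮q 0, q 1⟯ K := by
    letI : Algebra k⟮q l⟯ k⟮q 0, q 1⟯ := (inclusion hle).toAlgebra
    haveI : IsScalarTower k⟮q l⟯ k⟮q 0, q 1⟯ K := IsScalarTower.of_algebraMap_eq fun x => rfl
    exact Module.Finite.of_restrictScalars_finite k⟮q l⟯ k⟮q 0, q 1⟯ K
  exact Module.finrank_pos

theorem CNT_proof (hLOC : St_LOC) (hDEG : St_DEG) (hNOR : St_NOR) (hV : St_SLV) (hE : St_SLE)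
    (hC : St_SLC) : St_CNT := by
  classical
  intro k K _ _ _ _ _ hD P n hn hirr ι _ s hok hinj hbig q hper hq hne hlaw
  by_contra hcon
  push Not at hcon
  obtain ⟨j₀, i₀, hji⟩ := hcon
  choose Vz hVz hVz' using fun j : ℤ => hDEG k K hD (q (j + 1) 0 - q j 0)
    (sub_ne_zero.2 (hne j 0))
  choose Vw hVw hVw' using fun j : ℤ => hDEG k K hD (q (j + 1) 1 - q j 1)
    (sub_ne_zero.2 (hne j 1))
  have hS : ∀ (j : ℤ) (a : ι), ∃ V : Finset (Valuation K ℤᵐ⁰), (∀ w ∈ V, Pl k K w) ∧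
      ((∃ l, q j l ∉ Set.range (algebraMap k K)) → (∀ w ∈ V, (s a).Cen w (q j)) ∧
        (Module.finrank k⟮q j 0, q j 1⟯ K : ℤ) ≤ ∑ w ∈ V, (s a).mu w (q j)) := by
    intro j a
    by_cases h : ∃ l, q j l ∉ Set.range (algebraMap k K)
    · obtain ⟨V, h1, h2⟩ := hC k K hD P (s a) hirr (hok a) (q j) (hq j) h
      exact ⟨V, fun w hw => (h1 w hw).1, fun _ => ⟨fun w hw => (h1 w hw).2, h2⟩⟩
    · exact ⟨∅, fun w hw => absurd hw (Finset.notMem_empty w), fun h' => absurd h' h⟩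
  choose Vs hVs hVs' using hS
  set V : Finset (Valuation K ℤᵐ⁰) := (Finset.range n).biUnion fun j =>
    Vz (j : ℤ) ∪ Vw (j : ℤ) ∪ Finset.univ.biUnion fun a => Vs (j : ℤ) a with hVdef
  have hVpl : ∀ w ∈ V, Pl k K w := by
    intro w hw
    rw [hVdef, Finset.mem_biUnion] at hw
    obtain ⟨j, -, hw⟩ := hw
    rw [Finset.mem_union, Finset.mem_union, Finset.mem_biUnion] at hw
    rcases hw with (hw | hw) | ⟨a, -, hw⟩
    · exact hVz _ w hw
    · exact hVw _ w hw
    · exact hVs _ _ w hw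
  have hsub : ∀ j ∈ Finset.range n, Vz (j : ℤ) ⊆ V ∧ Vw (j : ℤ) ⊆ V ∧ ∀ a, Vs (j : ℤ) a ⊆ V := by
    intro j hj
    refine ⟨fun w hw => ?_, fun w hw => ?_, fun a w hw => ?_⟩
    · exact Finset.mem_biUnion.2 ⟨j, hj, Finset.mem_union_left _ (Finset.mem_union_left _ hw)⟩
    · exact Finset.mem_biUnion.2 ⟨j, hj, Finset.mem_union_left _ (Finset.mem_union_right _ hw)⟩
    · exact Finset.mem_biUnion.2 ⟨j, hj, Finset.mem_union_right _
        (Finset.mem_biUnion.2 ⟨a, Finset.mem_univ a, hw⟩)⟩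
  have hqm : ∀ j : ℤ, q (j - 1 + 1) = q j := fun j => by rw [sub_add_cancel]
  -- the inequality at one place
  have key : ∀ w ∈ V, ∑ j ∈ Finset.range n, (vdat s w (q (j : ℤ))).v2 ≤
      ∑ j ∈ Finset.range n, 2 * (od w (q ((j : ℤ) + 1) 0 - q (j : ℤ) 0) +
        od w (q ((j : ℤ) + 1) 1 - q (j : ℤ) 1)) := by
    intro w hw
    have hpl := hVpl w hw
    have hper1 : ∀ j : ℤ, q (j + n + 1) = q (j + 1) := fun j => by
      rw [show j + (n : ℤ) + 1 = (j + 1) + n by ring, hper]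
    refine hLOC n hn (fun j => vdat s w (q j)) (fun j => od w (q (j + 1) 0 - q j 0))
      (fun j => od w (q (j + 1) 1 - q j 1)) (fun j => by simp only [hper])
      (fun j => by simp only [hper, hper1]) (fun j => by simp only [hper, hper1])
      (fun j => ?_) (fun j => ?_) (fun j hty => ?_) (fun j hty => ?_)
    · obtain ⟨h1, h2⟩ := vdat_ok s hV hpl hok (hq j)
      exact ⟨po_nonneg _ _, po_nonneg _ _, h1, h2⟩
    · exact vdat_edge s hV hE hpl hok hinj (hq j) (hq (j + 1)) (hne j)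
    · have := vdat_law1 s hV hpl hok (qm := q (j - 1)) (qp := q (j + 1)) (hq j)
        (fun l => by rw [← hqm j]; exact hne (j - 1) l) (hne j) (hlaw j) hty
      simp only [sub_add_cancel]
      exact this
    · have := vdat_law2 s hV hpl hok (qm := q (j - 1)) (qp := q (j + 1)) (hq j)
        (fun l => by rw [← hqm j]; exact hne (j - 1) l) (hne j) (hlaw j) hty
      simp only [sub_add_cancel]
      exact this
  -- the sum over the places
  have tot : ∑ j ∈ Finset.range n, ∑ w ∈ V, (vdat s w (q (j : ℤ))).v2 ≤ 0 := by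
    rw [Finset.sum_comm]
    refine (Finset.sum_le_sum key).trans ?_
    rw [Finset.sum_comm]
    refine le_of_eq (Finset.sum_eq_zero fun j hj => ?_)
    rw [← Finset.mul_sum, Finset.sum_add_distrib, hVz' j V (hsub j hj).1 hVpl,
      hVw' j V (hsub j hj).2.1 hVpl]
    ring
  -- lower bounds
  set W : ℤ := (∑ a, ((s a).wt : ℤ)) - 8 * P.totalDegree with hW
  have hWpos : 0 < W := by
    have : ((8 * P.totalDegree : ℕ) : ℤ) < ((∑ a, (s a).wt : ℕ) : ℤ) := by exact_mod_cast hbig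
    push_cast at this
    rw [hW]; linarith
  have low : ∀ j ∈ Finset.range n, (∃ l, q (j : ℤ) l ∉ Set.range (algebraMap k K)) →
      (Module.finrank k⟮q (j : ℤ) 0, q (j : ℤ) 1⟯ K : ℤ) * W ≤
        ∑ w ∈ V, (vdat s w (q (j : ℤ))).v2 := by
    intro j hj hnc
    set D : ℤ := (Module.finrank k⟮q (j : ℤ) 0, q (j : ℤ) 1⟯ K : ℤ) with hDdef
    have h1 : ∑ w ∈ V, ((∑ a, if (s a).Cen w (q (j : ℤ)) then
        ((s a).wt : ℤ) * (s a).mu w (q (j : ℤ)) else 0) -
        8 * max (po w (q (j : ℤ) 0)) (po w (q (j : ℤ) 1))) ≤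
        ∑ w ∈ V, (vdat s w (q (j : ℤ))).v2 :=
      Finset.sum_le_sum fun w hw => vdat_v2 s hV (hVpl w hw) hok hinj (hq j) hnc
    refine le_trans ?_ h1
    rw [Finset.sum_sub_distrib, ← Finset.mul_sum, Finset.sum_comm]
    have h2 : ∑ w ∈ V, max (po w (q (j : ℤ) 0)) (po w (q (j : ℤ) 1)) ≤ P.totalDegree * D :=
      hNOR k K hD P (q (j : ℤ)) hirr.ne_zero (hq j) V hVpl
    have h3 : ∀ a : ι, ((s a).wt : ℤ) * D ≤ ∑ w ∈ V, (if (s a).Cen w (q (j : ℤ)) then
        ((s a).wt : ℤ) * (s a).mu w (q (j : ℤ)) else 0) := by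
      intro a
      obtain ⟨h4, h5⟩ := hVs' (j : ℤ) a hnc
      calc ((s a).wt : ℤ) * D ≤ ((s a).wt : ℤ) * ∑ w ∈ Vs (j : ℤ) a, (s a).mu w (q (j : ℤ)) :=
            mul_le_mul_of_nonneg_left h5 (by positivity)
        _ = ∑ w ∈ Vs (j : ℤ) a, (if (s a).Cen w (q (j : ℤ)) then
              ((s a).wt : ℤ) * (s a).mu w (q (j : ℤ)) else 0) := by
            rw [Finset.mul_sum]
            refine Finset.sum_congr rfl fun w hw => ?_
            rw [if_pos (h4 w hw)]
        _ ≤ _ := by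
            refine Finset.sum_le_sum_of_subset_of_nonneg ((hsub j hj).2.2 a) ?_
            intro w hw _
            split_ifs with hc
            · have := (hV k K w (hVpl w hw) P (s a) (hok a) _ (hq j) hnc hc).1
              positivity
            · exact le_refl _
    have h6 : (∑ a, ((s a).wt : ℤ)) * D ≤ ∑ a, ∑ w ∈ V, (if (s a).Cen w (q (j : ℤ)) then
        ((s a).wt : ℤ) * (s a).mu w (q (j : ℤ)) else 0) := by
      rw [Finset.sum_mul]
      exact Finset.sum_le_sum fun a _ => h3 a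
    rw [hW]
    linarith
  have low0 : ∀ j ∈ Finset.range n, (¬ ∃ l, q (j : ℤ) l ∉ Set.range (algebraMap k K)) →
      0 ≤ ∑ w ∈ V, (vdat s w (q (j : ℤ))).v2 := by
    intro j hj hnc
    refine Finset.sum_nonneg fun w hw => ?_
    have hpl := hVpl w hw
    rcases vdat_cases s w (q (j : ℤ)) with ⟨-, h⟩ | ⟨a, hnc', -⟩
    · have ea : (vdat s w (q (j : ℤ))).a = po w (q (j : ℤ) 0) := rfl
      have eb : (vdat s w (q (j : ℤ))).b = po w (q (j : ℤ) 1) := rfl
      push Not at hnc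
      have h0 : ∀ l, po w (q (j : ℤ) l) = 0 := by
        intro l
        obtain ⟨c, hc⟩ := hnc l
        rw [← hc, po, hpl.od_const]
        simp
      unfold VD.v2
      rw [if_neg (by rw [h]; norm_num), if_neg (by rw [h]; norm_num), ea, eb, h0, h0]
      simp
    · exact absurd hnc' hnc
  -- the contradiction
  have hmod : ∀ j : ℤ, q (j % n) = q j := by
    intro j
    have : Function.Periodic q (n : ℤ) := hper
    have h2 := this.sub_zsmul_eq (x := j) (j / n)
    rw [smul_eq_mul] at h2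
    have h3 : j % n = j - j / n * n := by
      have := Int.emod_add_mul_ediv j n
      linarith
    rw [h3]
    exact h2
  have hn' : (0 : ℤ) < n := by exact_mod_cast hn
  have e1 : (((j₀ % n).toNat : ℕ) : ℤ) = j₀ % n :=
    Int.toNat_of_nonneg (Int.emod_nonneg _ hn'.ne')
  have hj1 : (j₀ % n).toNat ∈ Finset.range n := by
    rw [Finset.mem_range]
    have h2 : j₀ % n < n := Int.emod_lt_of_pos _ hn'
    omega
  have hnc0 : ∃ l, q ((j₀ % n).toNat : ℤ) l ∉ Set.range (algebraMap k K) := by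
    rw [e1, hmod]
    exact ⟨i₀, hji⟩
  have hall : ∀ j ∈ Finset.range n, 0 ≤ ∑ w ∈ V, (vdat s w (q (j : ℤ))).v2 := by
    intro j hj
    by_cases h : ∃ l, q (j : ℤ) l ∉ Set.range (algebraMap k K)
    · refine le_trans ?_ (low j hj h)
      positivity
    · exact low0 j hj h
  have hpos : 0 < ∑ w ∈ V, (vdat s w (q (((j₀ % n).toNat : ℕ) : ℤ))).v2 := by
    refine lt_of_lt_of_le ?_ (low _ hj1 hnc0)
    have : (0 : ℤ) < (Module.finrank k⟮q (((j₀ % n).toNat : ℕ) : ℤ) 0,
        q (((j₀ % n).toNat : ℕ) : ℤ) 1⟯ K : ℤ) := by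
      exact_mod_cast cnt_fin_pos hD hnc0
    positivity
  have := Finset.sum_pos' hall ⟨_, hj1, hpos⟩
  linarith

end H719FO
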