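import Mathlib
import Pool.Agent.H719R3.FO.Stubs

/-!
Nonsingular cubics: statements.
-/

set_option autoImplicit false

namespace H719FO

open H450BH
open scoped ComplexConjugate

/-- the polynomial `p₃ w³ + p₂(z) w² + p₁(z) w + p₀(z)` -/
noncomputable def cub (p3 p2 p1 p0 : Polynomial ℂ) : MvPolynomial (Fin 2) ℂ :=
  Polynomial.aeval (MvPolynomial.X 0 : MvPolynomial (Fin 2) ℂ) p3 * MvPolynomial.X 1 ^ 3 +
  Polynomial.aeval (MvPolynomial.X 0 : MvPolynomial (Fin 2) ℂ) p2 * MvPolynomial.X 1 ^ 2 +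
  Polynomial.aeval (MvPolynomial.X 0 : MvPolynomial (Fin 2) ℂ) p1 * MvPolynomial.X 1 +
  Polynomial.aeval (MvPolynomial.X 0 : MvPolynomial (Fin 2) ℂ) p0

/-- nonsingular in the affine plane -/
def Nsg (P : MvPolynomial (Fin 2) ℂ) : Prop := ∀ x : Fin 2 → ℂ, MvPolynomial.eval x P = 0 →
  MvPolynomial.eval x (MvPolynomial.pderiv 0 P) = 0 →
  MvPolynomial.eval x (MvPolynomial.pderiv 1 P) = 0 → False

/-- transversal to the line at infinity -/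
def Trv (P : MvPolynomial (Fin 2) ℂ) : Prop := ∀ x : Fin 2 → ℂ, x ≠ 0 →
  MvPolynomial.eval x (MvPolynomial.pderiv 0
    (MvPolynomial.homogeneousComponent P.totalDegree P)) = 0 →
  MvPolynomial.eval x (MvPolynomial.pderiv 1
    (MvPolynomial.homogeneousComponent P.totalDegree P)) = 0 → False

/-- CUB1: cubics which do not pass through the circular point. -/
def St_CUB1 : Prop := ∀ (c : ℂ) (p2 p1 p0 : Polynomial ℂ), c ≠ 0 → p2.natDegree ≤ 1 →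
  p1.natDegree ≤ 2 → p0.natDegree ≤ 3 → Nsg (cub (Polynomial.C c) p2 p1 p0) →
  -- the points at infinity are distinct
  (∀ β : ℂ, c * β ^ 3 + p2.coeff 1 * β ^ 2 + p1.coeff 2 * β + p0.coeff 3 = 0 →
    3 * c * β ^ 2 + 2 * p2.coeff 1 * β + p1.coeff 2 ≠ 0) →
  ∃ (F : Finset ℂ) (r : ℂ → ℕ),
    (∀ a ∈ F, 2 ≤ r a ∧ ∃ b : ℂ, Ct 0 1 (cub (Polynomial.C c) p2 p1 p0) ![a, b] (r a)) ∧
    12 < ∑ a ∈ F, 2 * r a

/-- CUB2: cubics which pass through the circular point. -/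
def St_CUB2 : Prop := ∀ (α β : ℂ) (p1 p0 : Polynomial ℂ), α ≠ 0 →
  p1.natDegree ≤ 2 → p0.natDegree ≤ 3 →
  Nsg (cub 0 (Polynomial.C α * Polynomial.X + Polynomial.C β) p1 p0) →
  -- no vertical line in the curve
  (∀ a : ℂ, α * a + β = 0 → p1.eval a = 0 → p0.eval a ≠ 0) →
  -- the points at infinity are distinct
  p1.coeff 2 ^ 2 - 4 * α * p0.coeff 3 ≠ 0 →
  ∃ (F G : Finset ℂ) (r : ℂ → ℕ), Disjoint F G ∧
    (∀ a ∈ F, 2 ≤ r a ∧ ∃ b : ℂ,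
      Ct 0 1 (cub 0 (Polynomial.C α * Polynomial.X + Polynomial.C β) p1 p0) ![a, b] (r a)) ∧
    (∀ a ∈ G, 1 ≤ r a ∧ ∃ (d : ℕ) (Q : MvPolynomial (Fin 2) ℂ),
      Fl 0 1 d (cub 0 (Polynomial.C α * Polynomial.X + Polynomial.C β) p1 p0) Q ∧
      Ct 0 1 Q ![a, 0] (r a)) ∧
    12 < ∑ a ∈ F, 2 * r a + ∑ a ∈ G, (2 * r a + 3)

/-- CUB: nonsingular cubics. -/
def St_CUB : Prop := ∀ P : MvPolynomial (Fin 2) ℂ, Irreducible P → P.totalDegree = 3 → Nsg P →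
  Trv P → ∃ (F G : Finset ℂ) (r : ℂ → ℕ), Hyp P F G r

end H719FO
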