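import Mathlib
import Pool.Agent.H719R3.FO.StubsC

/-! Task CUB: nonsingular cubics, assembly. -/

set_option autoImplicit false

namespace H719FO

open H450BH
open scoped ComplexConjugate

namespace CUBaux

open MvPolynomial

/-- the exponent vector -/
noncomputable def mm (i j : ℕ) : Fin 2 →₀ ℕ := Finsupp.single 0 i + Finsupp.single 1 j

/-- the coefficients -/
noncomputable def k (Q : MvPolynomial (Fin 2) ℂ) (i j : ℕ) : ℂ := coeff (mm i j) Q

theorem mm_eq (d : Fin 2 →₀ ℕ) : mm (d 0) (d 1) = d := by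
  ext i
  fin_cases i <;> simp [mm]

theorem mm_0 (i j : ℕ) : mm i j 0 = i := by simp [mm]

theorem mm_1 (i j : ℕ) : mm i j 1 = j := by simp [mm]

theorem mm_iff (i j : ℕ) (d : Fin 2 →₀ ℕ) : mm i j = d ↔ i = d 0 ∧ j = d 1 := by
  constructor
  · rintro rfl
    exact ⟨(mm_0 i j).symm, (mm_1 i j).symm⟩
  · rintro ⟨rfl, rfl⟩
    exact mm_eq d

theorem coeff_mono (i j : ℕ) (a : ℂ) (d : Fin 2 →₀ ℕ) :
    coeff d (C a * ((X 0 : MvPolynomial (Fin 2) ℂ) ^ i * X 1 ^ j)) =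
      if i = d 0 ∧ j = d 1 then a else 0 := by
  have h1 : C a * ((X 0 : MvPolynomial (Fin 2) ℂ) ^ i * X 1 ^ j) = monomial (mm i j) a := by
    rw [X_pow_eq_monomial, X_pow_eq_monomial, monomial_mul, C_mul_monomial, mul_one, mul_one]
    rfl
  rw [h1, coeff_monomial]
  simp only [mm_iff]

theorem degree_eq (d : Fin 2 →₀ ℕ) : d.degree = d 0 + d 1 := by
  rw [Finsupp.degree_eq_sum, Fin.sum_univ_two]

theorem coeff_zero {Q : MvPolynomial (Fin 2) ℂ} (hQ : Q.totalDegree ≤ 3) (d : Fin 2 →₀ ℕ)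
    (hd : 3 < d 0 + d 1) : coeff d Q = 0 := by
  apply coeff_eq_zero_of_totalDegree_lt
  have h1 : ∑ i ∈ d.support, d i = d 0 + d 1 := degree_eq d
  omega

theorem expand {Q : MvPolynomial (Fin 2) ℂ} (hQ : Q.totalDegree ≤ 3) :
    Q = C (k Q 0 3) * (X 0 ^ 0 * X 1 ^ 3) + C (k Q 1 2) * (X 0 ^ 1 * X 1 ^ 2) +
      C (k Q 0 2) * (X 0 ^ 0 * X 1 ^ 2) + C (k Q 2 1) * (X 0 ^ 2 * X 1 ^ 1) +
      C (k Q 1 1) * (X 0 ^ 1 * X 1 ^ 1) + C (k Q 0 1) * (X 0 ^ 0 * X 1 ^ 1) +
      C (k Q 3 0) * (X 0 ^ 3 * X 1 ^ 0) + C (k Q 2 0) * (X 0 ^ 2 * X 1 ^ 0) +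
      C (k Q 1 0) * (X 0 ^ 1 * X 1 ^ 0) + C (k Q 0 0) * (X 0 ^ 0 * X 1 ^ 0) := by
  refine MvPolynomial.ext _ _ fun d => ?_
  simp only [coeff_add, coeff_mono]
  by_cases h : d 0 + d 1 ≤ 3
  · have h2 : coeff d Q = k Q (d 0) (d 1) := by unfold k; rw [mm_eq]
    rw [h2]
    have hi : d 0 ≤ 3 := by omega
    generalize d 0 = i at *
    generalize d 1 = j at *
    have hj : j ≤ 3 := by omega
    interval_cases i <;> interval_cases j <;> first | omega | simp
  · rw [coeff_zero hQ d (by omega)]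
    have e : ∀ i j : ℕ, i + j ≤ 3 → ∀ a : ℂ, (if i = d 0 ∧ j = d 1 then a else 0) = 0 := by
      intro i j hij a
      rw [if_neg]
      rintro ⟨rfl, rfl⟩
      omega
    simp [e]

theorem k_hom (P : MvPolynomial (Fin 2) ℂ) (i j : ℕ) :
    k (homogeneousComponent 3 P) i j = if i + j = 3 then k P i j else 0 := by
  unfold k
  rw [coeff_homogeneousComponent, degree_eq, mm_0, mm_1]

theorem hom_eq {P : MvPolynomial (Fin 2) ℂ} :
    homogeneousComponent 3 P = C (k P 0 3) * (X 0 ^ 0 * X 1 ^ 3) +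
      C (k P 1 2) * (X 0 ^ 1 * X 1 ^ 2) + C (k P 2 1) * (X 0 ^ 2 * X 1 ^ 1) +
      C (k P 3 0) * (X 0 ^ 3 * X 1 ^ 0) := by
  have h1 : (homogeneousComponent 3 P).totalDegree ≤ 3 :=
    (homogeneousComponent_isHomogeneous 3 P).totalDegree_le
  have h2 := expand h1
  simp only [k_hom] at h2
  norm_num at h2
  rw [h2]
  simp

theorem ev_z {P : MvPolynomial (Fin 2) ℂ} (x y : ℂ) :
    eval ![x, y] (pderiv 0 (homogeneousComponent 3 P)) =
      k P 1 2 * y ^ 2 + 2 * k P 2 1 * x * y + 3 * k P 3 0 * x ^ 2 := by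
  rw [hom_eq]
  simp [pderiv_X]
  ring

theorem ev_w {P : MvPolynomial (Fin 2) ℂ} (x y : ℂ) :
    eval ![x, y] (pderiv 1 (homogeneousComponent 3 P)) =
      3 * k P 0 3 * y ^ 2 + 2 * k P 1 2 * x * y + k P 2 1 * x ^ 2 := by
  rw [hom_eq]
  simp [pderiv_X]
  ring

/-- coefficient of `w²` -/
noncomputable def P2 (P : MvPolynomial (Fin 2) ℂ) : Polynomial ℂ :=
  Polynomial.C (k P 1 2) * Polynomial.X + Polynomial.C (k P 0 2)

/-- coefficient of `w` -/
noncomputable def P1 (P : MvPolynomial (Fin 2) ℂ) : Polynomial ℂ :=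
  Polynomial.C (k P 2 1) * Polynomial.X ^ 2 + Polynomial.C (k P 1 1) * Polynomial.X +
    Polynomial.C (k P 0 1)

/-- coefficient of `1` -/
noncomputable def P0 (P : MvPolynomial (Fin 2) ℂ) : Polynomial ℂ :=
  Polynomial.C (k P 3 0) * Polynomial.X ^ 3 + Polynomial.C (k P 2 0) * Polynomial.X ^ 2 +
    Polynomial.C (k P 1 0) * Polynomial.X + Polynomial.C (k P 0 0)

theorem eq_cub {P : MvPolynomial (Fin 2) ℂ} (hP : P.totalDegree ≤ 3) :
    P = cub (Polynomial.C (k P 0 3)) (P2 P) (P1 P) (P0 P) := by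
  conv_lhs => rw [expand hP]
  simp only [cub, P2, P1, P0, map_add, map_mul, map_pow, Polynomial.aeval_C, Polynomial.aeval_X,
    MvPolynomial.algebraMap_eq]
  ring

theorem P2_deg (P : MvPolynomial (Fin 2) ℂ) : (P2 P).natDegree ≤ 1 := by
  unfold P2; exact Polynomial.natDegree_linear_le

theorem P1_deg (P : MvPolynomial (Fin 2) ℂ) : (P1 P).natDegree ≤ 2 := by
  unfold P1; exact Polynomial.natDegree_quadratic_le

theorem P0_deg (P : MvPolynomial (Fin 2) ℂ) : (P0 P).natDegree ≤ 3 := by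
  unfold P0; exact Polynomial.natDegree_cubic_le

theorem P2_coeff (P : MvPolynomial (Fin 2) ℂ) : (P2 P).coeff 1 = k P 1 2 := by
  simp [P2]

theorem P1_coeff (P : MvPolynomial (Fin 2) ℂ) : (P1 P).coeff 2 = k P 2 1 := by
  unfold P1
  rw [Polynomial.coeff_add, Polynomial.coeff_add, Polynomial.coeff_C_mul_X_pow,
    Polynomial.coeff_C_mul_X, Polynomial.coeff_C]
  simp

theorem P0_coeff (P : MvPolynomial (Fin 2) ℂ) : (P0 P).coeff 3 = k P 3 0 := by
  unfold P0
  rw [Polynomial.coeff_add, Polynomial.coeff_add, Polynomial.coeff_add,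
    Polynomial.coeff_C_mul_X_pow, Polynomial.coeff_C_mul_X_pow,
    Polynomial.coeff_C_mul_X, Polynomial.coeff_C]
  simp

/-- a vertical line contained in the curve contradicts irreducibility -/
theorem no_line {p2 p1 p0 : Polynomial ℂ} (hirr : Irreducible (cub 0 p2 p1 p0))
    (hdeg : (cub 0 p2 p1 p0).totalDegree = 3) (a : ℂ) (h2 : p2.eval a = 0) (h1 : p1.eval a = 0)
    (h0 : p0.eval a = 0) : False := by
  obtain ⟨q2, hq2⟩ := Polynomial.dvd_iff_isRoot.2 h2
  obtain ⟨q1, hq1⟩ := Polynomial.dvd_iff_isRoot.2 h1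
  obtain ⟨q0, hq0⟩ := Polynomial.dvd_iff_isRoot.2 h0
  have hfac : cub 0 p2 p1 p0 = (X 0 - C a) * cub 0 q2 q1 q0 := by
    rw [hq2, hq1, hq0]
    simp only [cub, map_mul, map_sub, map_zero, Polynomial.aeval_C, Polynomial.aeval_X,
      MvPolynomial.algebraMap_eq]
    ring
  rcases hirr.isUnit_or_isUnit hfac with hu | hu
  · have h3 := hu.map (eval ![a, 0] : MvPolynomial (Fin 2) ℂ →+* ℂ)
    simp at h3
  · have h3 := (isUnit_iff_totalDegree_of_isReduced.1 hu).2
    have h4 : (X 0 - C a : MvPolynomial (Fin 2) ℂ).totalDegree ≤ 1 := by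
      refine (totalDegree_sub _ _).trans ?_
      rw [totalDegree_X, totalDegree_C]
      simp
    have h5 := totalDegree_mul (X 0 - C a : MvPolynomial (Fin 2) ℂ) (cub 0 q2 q1 q0)
    rw [← hfac, hdeg, h3] at h5
    omega

end CUBaux

open CUBaux in
theorem CUB_proof (h1 : St_CUB1) (h2 : St_CUB2) : St_CUB := by
  intro P hirr hdeg hN hT
  have hdeg' : P.totalDegree ≤ 3 := hdeg.le
  have hP := eq_cub hdeg'
  have hT' : ∀ x y : ℂ, (x ≠ 0 ∨ y ≠ 0) →
      k P 1 2 * y ^ 2 + 2 * k P 2 1 * x * y + 3 * k P 3 0 * x ^ 2 = 0 →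
      3 * k P 0 3 * y ^ 2 + 2 * k P 1 2 * x * y + k P 2 1 * x ^ 2 = 0 → False := by
    intro x y hxy e1 e2
    refine hT ![x, y] ?_ ?_ ?_
    · intro h
      rcases hxy with hx | hy
      · exact hx (by simpa using congrFun h 0)
      · exact hy (by simpa using congrFun h 1)
    · rw [hdeg, ev_z]; exact e1
    · rw [hdeg, ev_w]; exact e2
  by_cases hc : k P 0 3 = 0
  · have hα : k P 1 2 ≠ 0 := by
      intro h0
      refine hT' 0 1 (Or.inr one_ne_zero) ?_ ?_
      · rw [h0]; ring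
      · rw [hc]; ring
    have hP' : P = cub 0 (Polynomial.C (k P 1 2) * Polynomial.X + Polynomial.C (k P 0 2))
        (P1 P) (P0 P) := by
      rw [hc, Polynomial.C_0] at hP
      exact hP
    have hN' : Nsg (cub 0 (Polynomial.C (k P 1 2) * Polynomial.X + Polynomial.C (k P 0 2))
        (P1 P) (P0 P)) := by rw [← hP']; exact hN
    have hline : ∀ a : ℂ, k P 1 2 * a + k P 0 2 = 0 → (P1 P).eval a = 0 →
        (P0 P).eval a ≠ 0 := by
      intro a e1 e2 e3
      have hirr' := hirr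
      rw [hP'] at hirr'
      have hdeg2 := hdeg
      rw [hP'] at hdeg2
      exact no_line hirr' hdeg2 a (by simpa using e1) e2 e3
    have hdisc : (P1 P).coeff 2 ^ 2 - 4 * k P 1 2 * (P0 P).coeff 3 ≠ 0 := by
      rw [P1_coeff, P0_coeff]
      intro h0
      have h4 : (2 * k P 1 2) ≠ 0 := mul_ne_zero two_ne_zero hα
      set b := -k P 2 1 / (2 * k P 1 2) with hb
      have e1 : 2 * k P 1 2 * b = - k P 2 1 := by rw [hb]; field_simp
      have e2 : 4 * k P 1 2 * (k P 1 2 * b ^ 2) = k P 2 1 ^ 2 := by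
        have : 4 * k P 1 2 * (k P 1 2 * b ^ 2) = (2 * k P 1 2 * b) ^ 2 := by ring
        rw [this, e1]; ring
      refine hT' 1 b (Or.inl one_ne_zero) ?_ ?_
      · have h5 : 4 * k P 1 2 * (k P 1 2 * b ^ 2 + 2 * k P 2 1 * 1 * b +
            3 * k P 3 0 * 1 ^ 2) = 0 := by
          linear_combination e2 + 4 * k P 2 1 * e1 - 3 * h0
        rcases mul_eq_zero.1 h5 with h | h
        · exact absurd h (mul_ne_zero (by norm_num) hα)
        · exact h
      · rw [hc]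
        linear_combination e1
    obtain ⟨F, G, r, hFG, hF, hG, hsum⟩ := h2 (k P 1 2) (k P 0 2) (P1 P) (P0 P) hα (P1_deg P)
      (P0_deg P) hN' hline hdisc
    refine ⟨F, G, r, hFG, ?_, ?_, ?_⟩
    · intro a ha
      have := hF a ha
      rw [← hP'] at this
      exact this
    · intro a ha
      have := hG a ha
      rw [← hP'] at this
      exact this
    · rw [hdeg]; exact hsum
  · have hN' : Nsg (cub (Polynomial.C (k P 0 3)) (P2 P) (P1 P) (P0 P)) := by
      rw [← hP]; exact hN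
    have hdist : ∀ β : ℂ, k P 0 3 * β ^ 3 + (P2 P).coeff 1 * β ^ 2 + (P1 P).coeff 2 * β +
        (P0 P).coeff 3 = 0 → 3 * k P 0 3 * β ^ 2 + 2 * (P2 P).coeff 1 * β + (P1 P).coeff 2 ≠ 0 := by
      intro β e1 e2
      rw [P2_coeff, P1_coeff] at e1 e2
      rw [P0_coeff] at e1
      refine hT' 1 β (Or.inl one_ne_zero) ?_ ?_
      · linear_combination 3 * e1 - β * e2
      · linear_combination e2
    obtain ⟨F, r, hF, hsum⟩ := h1 (k P 0 3) (P2 P) (P1 P) (P0 P) hc (P2_deg P) (P1_deg P)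
      (P0_deg P) hN' hdist
    refine ⟨F, ∅, r, Finset.disjoint_empty_right _, ?_, ?_, ?_⟩
    · intro a ha
      have := hF a ha
      rw [← hP] at this
      exact this
    · intro a ha
      simp at ha
    · rw [hdeg, Finset.sum_empty, add_zero]; exact hsum

end H719FO
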