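import Pool.Agent.H719R3.FO.StubsC

/-! Task CUB1: nonsingular cubics which do not pass through the circular point. -/

set_option autoImplicit false
set_option linter.unusedSimpArgs false

namespace H719FO

open MvPolynomial in
theorem CUB1_ev (p : Polynomial ℂ) (x : Fin 2 → ℂ) (i : Fin 2) :
    eval x (Polynomial.aeval (X i : MvPolynomial (Fin 2) ℂ) p) = p.eval (x i) := by
  induction p using Polynomial.induction_on' with
  | add p q hp hq => rw [map_add, map_add, hp, hq, Polynomial.eval_add]
  | monomial n a => simp [Polynomial.aeval_monomial, MvPolynomial.algebraMap_eq]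

theorem CUB1_eval (c : ℂ) (p2 p1 p0 : Polynomial ℂ) (x : Fin 2 → ℂ) :
    MvPolynomial.eval x (cub (Polynomial.C c) p2 p1 p0) =
      c * x 1 ^ 3 + p2.eval (x 0) * x 1 ^ 2 + p1.eval (x 0) * x 1 + p0.eval (x 0) := by
  unfold cub
  simp only [map_add, map_mul, map_pow, CUB1_ev, MvPolynomial.eval_X, Polynomial.eval_C]

theorem CUB1_evalz (c : ℂ) (p2 p1 p0 : Polynomial ℂ) (x : Fin 2 → ℂ) :
    MvPolynomial.eval x (MvPolynomial.pderiv 0 (cub (Polynomial.C c) p2 p1 p0)) =
      p2.derivative.eval (x 0) * x 1 ^ 2 + p1.derivative.eval (x 0) * x 1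
        + p0.derivative.eval (x 0) := by
  unfold cub
  simp only [map_add, Derivation.leibniz, Derivation.map_aeval, Derivation.leibniz_pow,
    MvPolynomial.pderiv_X_self, MvPolynomial.pderiv_X_of_ne (show (1 : Fin 2) ≠ 0 by decide),
    smul_eq_mul, map_mul, map_pow, CUB1_ev, MvPolynomial.eval_X, Polynomial.eval_C,
    Polynomial.derivative_C, smul_zero, map_zero, Polynomial.eval_zero, mul_zero, zero_mul,
    mul_one, map_one, zero_add, add_zero]
  ring

theorem CUB1_evalw (c : ℂ) (p2 p1 p0 : Polynomial ℂ) (x : Fin 2 → ℂ) :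
    MvPolynomial.eval x (MvPolynomial.pderiv 1 (cub (Polynomial.C c) p2 p1 p0)) =
      3 * c * x 1 ^ 2 + 2 * p2.eval (x 0) * x 1 + p1.eval (x 0) := by
  unfold cub
  simp only [map_add, Derivation.leibniz, Derivation.map_aeval, Derivation.leibniz_pow,
    MvPolynomial.pderiv_X_self, MvPolynomial.pderiv_X_of_ne (show (0 : Fin 2) ≠ 1 by decide),
    smul_eq_mul, nsmul_eq_mul, map_mul, map_pow, CUB1_ev, MvPolynomial.eval_X, Polynomial.eval_C,
    smul_zero, map_zero, mul_zero, zero_mul,
    mul_one, map_one, zero_add, add_zero, map_natCast]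
  push_cast
  ring

/-- the roots of a cubic -/
theorem CUB1_roots (c b d e : ℂ) (hc : c ≠ 0) :
    ∃ x y z : ℂ, b = c * -(x + y + z) ∧ d = c * (x * y + x * z + y * z) ∧ e = c * -(x * y * z) := by
  obtain ⟨P, hP⟩ : ∃ P : Cubic ℂ, P = ⟨c, b, d, e⟩ := ⟨_, rfl⟩
  have ha : P.a ≠ 0 := by rw [hP]; exact hc
  have hs := (Cubic.splits_iff_roots_eq_three (P := P) (φ := RingHom.id ℂ) ha).1
    (IsAlgClosed.splits _)
  obtain ⟨x, y, z, h⟩ := hs
  have h1 := Cubic.b_eq_three_roots ha h
  have h2 := Cubic.c_eq_three_roots ha h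
  have h3 := Cubic.d_eq_three_roots ha h
  rw [hP] at h1 h2 h3
  exact ⟨x, y, z, h1, h2, h3⟩

/-- a cubic with vanishing discriminant has a double root -/
theorem CUB1_double (c b d e : ℂ) (hc : c ≠ 0)
    (h : b ^ 2 * d ^ 2 - 4 * c * d ^ 3 - 4 * b ^ 3 * e + 18 * c * b * d * e
      - 27 * c ^ 2 * e ^ 2 = 0) :
    ∃ x z : ℂ, b = -(c * (2 * x + z)) ∧ d = c * (x ^ 2 + 2 * x * z) ∧ e = -(c * x ^ 2 * z) := by
  obtain ⟨x, y, z, h1, h2, h3⟩ := CUB1_roots c b d e hc
  have h4 : c ^ 4 * ((x - y) * (x - z) * (y - z)) ^ 2 = 0 := by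
    rw [← h, h1, h2, h3]; ring
  have h5 := (mul_eq_zero.1 h4).resolve_left (pow_ne_zero 4 hc)
  have h6 := pow_eq_zero_iff (two_ne_zero) |>.1 h5
  rcases mul_eq_zero.1 h6 with h7 | h7
  · rcases mul_eq_zero.1 h7 with h8 | h8
    · have : y = x := (sub_eq_zero.1 h8).symm
      subst this
      exact ⟨y, z, by rw [h1]; ring, by rw [h2]; ring, by rw [h3]; ring⟩
    · have : z = x := (sub_eq_zero.1 h8).symm
      subst this
      exact ⟨z, y, by rw [h1]; ring, by rw [h2]; ring, by rw [h3]; ring⟩
  · have : z = y := (sub_eq_zero.1 h7).symm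
    subst this
    exact ⟨z, x, by rw [h1]; ring, by rw [h2]; ring, by rw [h3]; ring⟩

theorem CUB1_div (p : Polynomial ℂ) (a : ℂ) : ∃ q : Polynomial ℂ,
    p = (Polynomial.X - Polynomial.C a) * q + Polynomial.C (p.eval a) ∧
    q.eval a = p.derivative.eval a := by
  refine ⟨p /ₘ (Polynomial.X - Polynomial.C a), ?_, ?_⟩
  · have h := Polynomial.modByMonic_add_div p (q := Polynomial.X - Polynomial.C a)
    rw [Polynomial.modByMonic_X_sub_C_eq_C_eval] at h
    conv_lhs => rw [← h]
    ring
  · have h := Polynomial.modByMonic_add_div p (q := Polynomial.X - Polynomial.C a)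
    rw [Polynomial.modByMonic_X_sub_C_eq_C_eval] at h
    have h2 := congrArg (fun f => (Polynomial.derivative f).eval a) h
    simp only [Polynomial.derivative_add, Polynomial.derivative_C, Polynomial.derivative_mul,
      Polynomial.derivative_sub, Polynomial.derivative_X, zero_add, sub_zero, one_mul,
      Polynomial.eval_add, Polynomial.eval_mul, Polynomial.eval_sub, Polynomial.eval_X,
      Polynomial.eval_C, sub_self, zero_mul, add_zero] at h2
    exact h2

/-- the expansion of the cubic at `z = a` -/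
theorem CUB1_exp (c : ℂ) (p2 p1 p0 : Polynomial ℂ) (a b : ℂ) :
    ∃ U : MvPolynomial (Fin 2) ℂ,
      cub (Polynomial.C c) p2 p1 p0 = (MvPolynomial.X 0 - MvPolynomial.C a) * U +
        (MvPolynomial.C c * MvPolynomial.X 1 ^ 3 + MvPolynomial.C (p2.eval a) * MvPolynomial.X 1 ^ 2
          + MvPolynomial.C (p1.eval a) * MvPolynomial.X 1 + MvPolynomial.C (p0.eval a)) ∧
      MvPolynomial.eval ![a, b] U = p2.derivative.eval a * b ^ 2 + p1.derivative.eval a * b
        + p0.derivative.eval a := by
  obtain ⟨q2, h2, e2⟩ := CUB1_div p2 a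
  obtain ⟨q1, h1, e1⟩ := CUB1_div p1 a
  obtain ⟨q0, h0, e0⟩ := CUB1_div p0 a
  refine ⟨Polynomial.aeval (MvPolynomial.X 0 : MvPolynomial (Fin 2) ℂ) q2 * MvPolynomial.X 1 ^ 2 +
    Polynomial.aeval (MvPolynomial.X 0 : MvPolynomial (Fin 2) ℂ) q1 * MvPolynomial.X 1 +
    Polynomial.aeval (MvPolynomial.X 0 : MvPolynomial (Fin 2) ℂ) q0, ?_, ?_⟩
  · unfold cub
    have k2 := congrArg (Polynomial.aeval (MvPolynomial.X 0 : MvPolynomial (Fin 2) ℂ)) h2
    have k1 := congrArg (Polynomial.aeval (MvPolynomial.X 0 : MvPolynomial (Fin 2) ℂ)) h1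
    have k0 := congrArg (Polynomial.aeval (MvPolynomial.X 0 : MvPolynomial (Fin 2) ℂ)) h0
    simp only [map_add, map_mul, map_sub, Polynomial.aeval_X, Polynomial.aeval_C,
      MvPolynomial.algebraMap_eq] at k2 k1 k0
    rw [k2, k1, k0, Polynomial.aeval_C, MvPolynomial.algebraMap_eq]
    ring
  · simp only [map_add, map_mul, map_pow, CUB1_ev, MvPolynomial.eval_X, Matrix.cons_val_zero,
      Matrix.cons_val_one, Matrix.cons_val_fin_one, e2, e1, e0]

theorem CUB1_proof : St_CUB1 := by
  intro c p2 p1 p0 hc d2 d1 d0 hN hinf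
  classical
  obtain ⟨D, hD⟩ : ∃ D : Polynomial ℂ, D = p2 ^ 2 * p1 ^ 2 - Polynomial.C (4 * c) * p1 ^ 3
    - Polynomial.C 4 * (p2 ^ 3 * p0) + Polynomial.C (18 * c) * (p2 * p1 * p0)
    - Polynomial.C (27 * c ^ 2) * p0 ^ 2 := ⟨_, rfl⟩
  -- the degree of `D`
  have n22 : (p2 ^ 2).natDegree ≤ 2 := (Polynomial.natDegree_pow_le).trans (by omega)
  have n23 : (p2 ^ 3).natDegree ≤ 3 := (Polynomial.natDegree_pow_le).trans (by omega)
  have n12 : (p1 ^ 2).natDegree ≤ 4 := (Polynomial.natDegree_pow_le).trans (by omega)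
  have n13 : (p1 ^ 3).natDegree ≤ 6 := (Polynomial.natDegree_pow_le).trans (by omega)
  have n02 : (p0 ^ 2).natDegree ≤ 6 := (Polynomial.natDegree_pow_le).trans (by omega)
  have nA : (p2 ^ 2 * p1 ^ 2).natDegree ≤ 6 := (Polynomial.natDegree_mul_le).trans (by omega)
  have nB : (p2 ^ 3 * p0).natDegree ≤ 6 := (Polynomial.natDegree_mul_le).trans (by omega)
  have nC1 : (p2 * p1).natDegree ≤ 3 := (Polynomial.natDegree_mul_le).trans (by omega)
  have nC : (p2 * p1 * p0).natDegree ≤ 6 := (Polynomial.natDegree_mul_le).trans (by omega)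
  have nD : D.natDegree ≤ 6 := by
    rw [hD]
    refine (Polynomial.natDegree_sub_le _ _).trans (max_le ?_ ?_)
    · refine (Polynomial.natDegree_add_le _ _).trans (max_le ?_ ?_)
      · refine (Polynomial.natDegree_sub_le _ _).trans (max_le ?_ ?_)
        · refine (Polynomial.natDegree_sub_le _ _).trans (max_le nA ?_)
          exact (Polynomial.natDegree_C_mul_le _ _).trans n13
        · exact (Polynomial.natDegree_C_mul_le _ _).trans nB
      · exact (Polynomial.natDegree_C_mul_le _ _).trans nC
    · exact (Polynomial.natDegree_C_mul_le _ _).trans n02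
  have c22 : (p2 ^ 2).coeff 2 = p2.coeff 1 ^ 2 := by
    have := Polynomial.coeff_pow_of_natDegree_le (m := 2) d2
    simpa using this
  have c23 : (p2 ^ 3).coeff 3 = p2.coeff 1 ^ 3 := by
    have := Polynomial.coeff_pow_of_natDegree_le (m := 3) d2
    simpa using this
  have c12 : (p1 ^ 2).coeff 4 = p1.coeff 2 ^ 2 := by
    have := Polynomial.coeff_pow_of_natDegree_le (m := 2) d1
    simpa using this
  have c13 : (p1 ^ 3).coeff 6 = p1.coeff 2 ^ 3 := by
    have := Polynomial.coeff_pow_of_natDegree_le (m := 3) d1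
    simpa using this
  have c02 : (p0 ^ 2).coeff 6 = p0.coeff 3 ^ 2 := by
    have := Polynomial.coeff_pow_of_natDegree_le (m := 2) d0
    simpa using this
  have cA : (p2 ^ 2 * p1 ^ 2).coeff 6 = p2.coeff 1 ^ 2 * p1.coeff 2 ^ 2 := by
    have := Polynomial.coeff_mul_add_eq_of_natDegree_le n22 n12
    rw [c22, c12] at this
    exact this
  have cB : (p2 ^ 3 * p0).coeff 6 = p2.coeff 1 ^ 3 * p0.coeff 3 := by
    have := Polynomial.coeff_mul_add_eq_of_natDegree_le n23 d0
    rw [c23] at this
    exact this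
  have cC1 : (p2 * p1).coeff 3 = p2.coeff 1 * p1.coeff 2 := by
    have := Polynomial.coeff_mul_add_eq_of_natDegree_le d2 d1
    exact this
  have cC : (p2 * p1 * p0).coeff 6 = p2.coeff 1 * p1.coeff 2 * p0.coeff 3 := by
    have := Polynomial.coeff_mul_add_eq_of_natDegree_le nC1 d0
    rw [cC1] at this
    exact this
  have cD : D.coeff 6 = p2.coeff 1 ^ 2 * p1.coeff 2 ^ 2 - 4 * c * p1.coeff 2 ^ 3
      - 4 * p2.coeff 1 ^ 3 * p0.coeff 3 + 18 * c * p2.coeff 1 * p1.coeff 2 * p0.coeff 3
      - 27 * c ^ 2 * p0.coeff 3 ^ 2 := by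
    rw [hD]
    simp only [Polynomial.coeff_sub, Polynomial.coeff_add, Polynomial.coeff_C_mul, cA, cB, cC,
      c13, c02]
    ring
  have cD0 : D.coeff 6 ≠ 0 := by
    intro h
    rw [cD] at h
    obtain ⟨x, z, h1, h2, h3⟩ := CUB1_double c _ _ _ hc h
    refine hinf x ?_ ?_
    · rw [h1, h2, h3]; ring
    · rw [h1, h2]; ring
  have hD0 : D ≠ 0 := by
    intro h
    rw [h] at cD0
    exact cD0 (Polynomial.coeff_zero 6)
  have hdeg : D.natDegree = 6 := le_antisymm nD (Polynomial.le_natDegree_of_ne_zero cD0)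
  -- the fibres
  have key : ∀ a ∈ D.roots.toFinset, ∃ r : ℕ, 2 ≤ r ∧
      (∃ b : ℂ, Ct 0 1 (cub (Polynomial.C c) p2 p1 p0) ![a, b] r) ∧
      3 * D.roots.count a ≤ 2 * r := by
    intro a ha
    have hroot : D.eval a = 0 := by
      rw [Multiset.mem_toFinset, Polynomial.mem_roots hD0] at ha
      exact ha
    have hroot' := hroot
    rw [hD] at hroot'
    simp only [Polynomial.eval_sub, Polynomial.eval_add, Polynomial.eval_mul, Polynomial.eval_pow,
      Polynomial.eval_C] at hroot'
    obtain ⟨b, b', h1, h2, h3⟩ := CUB1_double c (p2.eval a) (p1.eval a) (p0.eval a) hc (by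
      rw [← hroot']; ring)
    obtain ⟨U, hU, eU⟩ := CUB1_exp c p2 p1 p0 a b
    have hz : p2.derivative.eval a * b ^ 2 + p1.derivative.eval a * b
        + p0.derivative.eval a ≠ 0 := by
      intro hz0
      refine hN ![a, b] ?_ ?_ ?_
      · rw [CUB1_eval]
        simp only [Matrix.cons_val_zero, Matrix.cons_val_one, Matrix.cons_val_fin_one]
        rw [h1, h2, h3]; ring
      · rw [CUB1_evalz]
        simp only [Matrix.cons_val_zero, Matrix.cons_val_one, Matrix.cons_val_fin_one]
        exact hz0
      · rw [CUB1_evalw]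
        simp only [Matrix.cons_val_zero, Matrix.cons_val_one, Matrix.cons_val_fin_one]
        rw [h1, h2]; ring
    rw [Polynomial.count_roots]
    by_cases hb : b = b'
    · -- triple root
      subst hb
      refine ⟨3, by norm_num, ⟨b, U, MvPolynomial.C c, ?_, ?_, ?_⟩, ?_⟩
      · rw [hU, h1, h2, h3]
        simp only [Matrix.cons_val_zero, Matrix.cons_val_one, Matrix.cons_val_fin_one, map_neg,
          map_mul, map_add, map_pow, map_ofNat]
        ring
      · rw [eU]; exact hz
      · rw [MvPolynomial.eval_C]; exact hc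
      · have hm : ¬ 2 < D.rootMultiplicity a := by
          intro hlt
          rw [Polynomial.lt_rootMultiplicity_iff_isRoot_iterate_derivative hD0] at hlt
          have h4 := hlt 2 le_rfl
          simp only [Function.iterate_succ, Function.iterate_zero, Function.comp_apply, id_eq,
            Polynomial.IsRoot.def] at h4
          have h5 : (Polynomial.derivative (Polynomial.derivative D)).eval a =
              -54 * c ^ 2 * (p2.derivative.eval a * b ^ 2 + p1.derivative.eval a * b
                + p0.derivative.eval a) ^ 2 := by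
            rw [hD]
            simp only [Polynomial.derivative_sub, Polynomial.derivative_add,
              Polynomial.derivative_mul, Polynomial.derivative_pow, Polynomial.derivative_C,
              Polynomial.eval_sub, Polynomial.eval_add, Polynomial.eval_mul, Polynomial.eval_pow,
              Polynomial.eval_C, Polynomial.eval_zero, zero_mul, zero_add, mul_zero, add_zero,
              h1, h2, h3, Polynomial.derivative_natCast, Polynomial.eval_natCast,
              Polynomial.derivative_ofNat]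
            push_cast
            ring
          rw [h5] at h4
          have h6 : (-54 : ℂ) * c ^ 2 ≠ 0 := mul_ne_zero (by norm_num) (pow_ne_zero 2 hc)
          exact hz ((pow_eq_zero_iff two_ne_zero).1 ((mul_eq_zero.1 h4).resolve_left h6))
        omega
    · refine ⟨2, by norm_num, ⟨b, U, MvPolynomial.C c * (MvPolynomial.X 1 - MvPolynomial.C b'),
        ?_, ?_, ?_⟩, ?_⟩
      · rw [hU, h1, h2, h3]
        simp only [Matrix.cons_val_zero, Matrix.cons_val_one, Matrix.cons_val_fin_one, map_neg,
          map_mul, map_add, map_pow, map_ofNat]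
        ring
      · rw [eU]; exact hz
      · rw [map_mul, map_sub, MvPolynomial.eval_C, MvPolynomial.eval_C, MvPolynomial.eval_X]
        simp only [Matrix.cons_val_zero, Matrix.cons_val_one, Matrix.cons_val_fin_one]
        exact mul_ne_zero hc (sub_ne_zero.2 hb)
      · have hm : ¬ 1 < D.rootMultiplicity a := by
          intro hlt
          rw [Polynomial.lt_rootMultiplicity_iff_isRoot_iterate_derivative hD0] at hlt
          have h4 := hlt 1 le_rfl
          simp only [Function.iterate_succ, Function.iterate_zero, Function.comp_apply, id_eq,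
            Polynomial.IsRoot.def] at h4
          have h5 : (Polynomial.derivative D).eval a =
              4 * c ^ 3 * (b' - b) ^ 3 * (p2.derivative.eval a * b ^ 2 + p1.derivative.eval a * b
                + p0.derivative.eval a) := by
            rw [hD]
            simp only [Polynomial.derivative_sub, Polynomial.derivative_add,
              Polynomial.derivative_mul, Polynomial.derivative_pow, Polynomial.derivative_C,
              Polynomial.eval_sub, Polynomial.eval_add, Polynomial.eval_mul, Polynomial.eval_pow,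
              Polynomial.eval_C, Polynomial.eval_zero, zero_mul, zero_add, mul_zero, add_zero,
              h1, h2, h3, Polynomial.derivative_natCast, Polynomial.eval_natCast,
              Polynomial.derivative_ofNat]
            push_cast
            ring
          rw [h5] at h4
          have h6 : (4 : ℂ) * c ^ 3 * (b' - b) ^ 3 ≠ 0 :=
            mul_ne_zero (mul_ne_zero (by norm_num) (pow_ne_zero 3 hc))
              (pow_ne_zero 3 (sub_ne_zero.2 (Ne.symm hb)))
          exact hz ((mul_eq_zero.1 h4).resolve_left h6)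
        omega
  choose! r hr1 hr2 hr3 using key
  refine ⟨D.roots.toFinset, r, fun a ha => ⟨hr1 a ha, hr2 a ha⟩, ?_⟩
  have hcard : D.roots.card = 6 := by
    rw [← hdeg]
    exact (Polynomial.splits_iff_card_roots.1 (IsAlgClosed.splits D))
  have hsum : ∑ a ∈ D.roots.toFinset, D.roots.count a = 6 := by
    rw [Multiset.toFinset_sum_count_eq, hcard]
  have h7 : ∑ a ∈ D.roots.toFinset, 3 * D.roots.count a ≤ ∑ a ∈ D.roots.toFinset, 2 * r a :=
    Finset.sum_le_sum fun a ha => hr3 a ha
  rw [← Finset.mul_sum, hsum] at h7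
  omega

end H719FO
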