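import Pool.Agent.H719R3.FO.StubsC

/-!
CUB2: nonsingular cubics through the circular point.
-/

set_option autoImplicit false

namespace H719FO

namespace CUB2L

open MvPolynomial

/-- the polynomial `q(X₀)` -/
noncomputable abbrev A (q : Polynomial ℂ) : MvPolynomial (Fin 2) ℂ :=
  Polynomial.aeval (X 0 : MvPolynomial (Fin 2) ℂ) q

theorem A_split (q : Polynomial ℂ) (a : ℂ) :
    A q = C (q.eval a) + (X 0 - C a) * A (q /ₘ (Polynomial.X - Polynomial.C a)) := by
  have h := Polynomial.modByMonic_add_div q (Polynomial.X - Polynomial.C a)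
  rw [Polynomial.modByMonic_X_sub_C_eq_C_eval] at h
  conv_lhs => rw [← h]
  simp [A]

theorem div_eval (q : Polynomial ℂ) (a : ℂ) :
    (q /ₘ (Polynomial.X - Polynomial.C a)).eval a = q.derivative.eval a := by
  have h := Polynomial.modByMonic_add_div q (Polynomial.X - Polynomial.C a)
  rw [Polynomial.modByMonic_X_sub_C_eq_C_eval] at h
  conv_rhs => rw [← h]
  simp

theorem eval_A (q : Polynomial ℂ) (x : Fin 2 → ℂ) : eval x (A q) = q.eval (x 0) := by
  simp [A, Polynomial.aeval_def, Polynomial.eval₂_eq_sum_range, Polynomial.eval_eq_sum_range]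

theorem decomp {p2 p1 p0 : Polynomial ℂ} {a b : ℂ} (h1 : p1.eval a = -(2 * p2.eval a * b))
    (h0 : p0.eval a = p2.eval a * b ^ 2) :
    cub 0 p2 p1 p0 = (X 0 - C a) * (A (p2 /ₘ (Polynomial.X - Polynomial.C a)) * X 1 ^ 2 +
      A (p1 /ₘ (Polynomial.X - Polynomial.C a)) * X 1 +
      A (p0 /ₘ (Polynomial.X - Polynomial.C a))) + (X 1 - C b) ^ 2 * C (p2.eval a) := by
  unfold cub
  have e2 := A_split p2 a
  have e1 := A_split p1 a
  have e0 := A_split p0 a
  rw [h1] at e1
  rw [h0] at e0
  simp only [A] at e2 e1 e0 ⊢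
  rw [map_zero, e2, e1, e0]
  simp only [map_neg, map_mul, map_pow, map_ofNat]
  ring

theorem ct_of {p2 p1 p0 : Polynomial ℂ} (hN : Nsg (cub 0 p2 p1 p0)) {a b : ℂ}
    (h1 : p1.eval a = -(2 * p2.eval a * b)) (h0 : p0.eval a = p2.eval a * b ^ 2) :
    p2.derivative.eval a * b ^ 2 + p1.derivative.eval a * b + p0.derivative.eval a ≠ 0 ∧
    (p2.eval a ≠ 0 → Ct 0 1 (cub 0 p2 p1 p0) ![a, b] 2) := by
  have hd := decomp h1 h0
  set U : MvPolynomial (Fin 2) ℂ := A (p2 /ₘ (Polynomial.X - Polynomial.C a)) * X 1 ^ 2 +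
      A (p1 /ₘ (Polynomial.X - Polynomial.C a)) * X 1 +
      A (p0 /ₘ (Polynomial.X - Polynomial.C a)) with hU
  have hUe : eval ![a, b] U = p2.derivative.eval a * b ^ 2 + p1.derivative.eval a * b +
      p0.derivative.eval a := by
    rw [hU, map_add, map_add, map_mul, map_mul, eval_A, eval_A, eval_A]
    simp [div_eval]
  have hU0 : eval ![a, b] U ≠ 0 := by
    intro h
    refine hN ![a, b] ?_ ?_ ?_
    · rw [hd]; simp
    · rw [hd]; simp [h]
    · rw [hd]; simp [Derivation.leibniz_pow]
  refine ⟨hUe ▸ hU0, fun h2 => ⟨U, C (p2.eval a), ?_, hU0, by simpa using h2⟩⟩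
  simpa using hd

end CUB2L

open CUB2L

theorem CUB2_proof : St_CUB2 := by
  intro α β p1 p0 hα hp1 hp0 hN hL hinf
  set p2 : Polynomial ℂ := Polynomial.C α * Polynomial.X + Polynomial.C β with hp2
  have hp2e : ∀ a : ℂ, p2.eval a = α * a + β := fun a => by simp [hp2]
  have hp2d : p2.derivative = Polynomial.C α := by simp [hp2]
  set D : Polynomial ℂ := p1 ^ 2 - 4 * p2 * p0 with hD
  have hp2n : p2.natDegree ≤ 1 := by rw [hp2]; exact Polynomial.natDegree_linear_le
  have hDn : D.natDegree ≤ 4 := by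
    rw [hD]
    refine (Polynomial.natDegree_sub_le _ _).trans (max_le ?_ ?_)
    · refine (Polynomial.natDegree_pow_le).trans ?_
      omega
    · refine (Polynomial.natDegree_mul_le).trans ?_
      have : (4 * p2).natDegree ≤ 1 := by
        refine (Polynomial.natDegree_mul_le).trans ?_
        have : (4 : Polynomial ℂ).natDegree = 0 := Polynomial.natDegree_ofNat 4
        omega
      omega
  have hD4 : D.coeff 4 = p1.coeff 2 ^ 2 - 4 * α * p0.coeff 3 := by
    have e1 : (p1 ^ 2).coeff 4 = p1.coeff 2 ^ 2 := by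
      have := Polynomial.coeff_pow_of_natDegree_le (p := p1) (n := 2) (m := 2) hp1
      simpa using this
    have e2 : (p2 * p0).coeff 4 = α * p0.coeff 3 := by
      have := Polynomial.coeff_mul_add_eq_of_natDegree_le (f := p2) (g := p0) hp2n hp0
      rw [show (4 : ℕ) = 1 + 3 by norm_num, this]
      congr 1
      simp [hp2]
    have e3 : (4 * p2 * p0 : Polynomial ℂ) = Polynomial.C 4 * (p2 * p0) := by
      rw [mul_assoc]; congr 1
    rw [hD, Polynomial.coeff_sub, e1, e3, Polynomial.coeff_C_mul, e2]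
    ring
  have hD4' : D.coeff 4 ≠ 0 := by rw [hD4]; exact hinf
  have hD0 : D ≠ 0 := by
    intro h; rw [h] at hD4'; simp at hD4'
  have hDdeg : D.natDegree = 4 := le_antisymm hDn (Polynomial.le_natDegree_of_ne_zero hD4')
  have hDe : ∀ a : ℂ, D.eval a = p1.eval a ^ 2 - 4 * p2.eval a * p0.eval a := fun a => by
    simp [hD]
  have hDd : ∀ a : ℂ, D.derivative.eval a = 2 * p1.eval a * p1.derivative.eval a -
      4 * (α * p0.eval a + p2.eval a * p0.derivative.eval a) := fun a => by
    have : D.derivative = 2 * p1 * p1.derivative -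
        4 * (Polynomial.C α * p0 + p2 * p0.derivative) := by
      rw [hD, Polynomial.derivative_sub, Polynomial.derivative_sq, mul_assoc 4 p2 p0,
        show (4 : Polynomial ℂ) = Polynomial.C 4 from rfl, Polynomial.derivative_C_mul,
        Polynomial.derivative_mul, hp2d, show (2 : Polynomial ℂ) = Polynomial.C 2 from rfl]
    rw [this]
    simp
  -- the finite tangent points
  have hfin : ∀ a : ℂ, D.eval a = 0 → p2.eval a ≠ 0 → ∃ b : ℂ,
      p1.eval a = -(2 * p2.eval a * b) ∧ p0.eval a = p2.eval a * b ^ 2 := by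
    intro a ha h2
    refine ⟨-(p1.eval a) / (2 * p2.eval a), ?_, ?_⟩
    · field_simp
    · rw [hDe] at ha
      field_simp
      linear_combination -ha
  have hsimple : ∀ a : ℂ, D.eval a = 0 → D.derivative.eval a ≠ 0 := by
    intro a ha h
    rw [hDd] at h
    by_cases h2 : p2.eval a = 0
    · rw [hDe, h2] at ha
      have h1 : p1.eval a = 0 := by
        have : p1.eval a ^ 2 = 0 := by linear_combination ha
        exact pow_eq_zero_iff (two_ne_zero) |>.1 this
      have h0 := hL a (by rw [← hp2e]; exact h2) h1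
      rw [h1, h2] at h
      have : α * p0.eval a = 0 := by linear_combination (-1 / 4) * h
      exact mul_ne_zero hα h0 this
    · obtain ⟨b, h1, h0⟩ := hfin a ha h2
      have h3 := (ct_of hN h1 h0).1
      rw [hp2d, Polynomial.eval_C] at h3
      apply mul_ne_zero h2 h3
      rw [h1, h0] at h
      linear_combination (-1 / 4) * h
  have hnodup : D.roots.Nodup := by
    rw [Multiset.nodup_iff_count_le_one]
    intro a
    rw [Polynomial.count_roots]
    by_contra hc
    push Not at hc
    rw [Polynomial.one_lt_rootMultiplicity_iff_isRoot hD0] at hc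
    exact hsimple a hc.1 hc.2
  have hcard : D.roots.toFinset.card = 4 := by
    rw [Multiset.toFinset_card_of_nodup hnodup, ← hDdeg]
    exact (IsAlgClosed.splits D).natDegree_eq_card_roots.symm
  have hmem : ∀ a : ℂ, a ∈ D.roots.toFinset ↔ D.eval a = 0 := by
    intro a
    rw [Multiset.mem_toFinset, Polynomial.mem_roots hD0]
    rfl
  set a0 : ℂ := -β / α with ha0
  have ha0e : p2.eval a0 = 0 := by rw [hp2e, ha0]; field_simp; ring
  have hne : ∀ a : ℂ, a ≠ a0 → p2.eval a ≠ 0 := by
    intro a ha h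
    rw [hp2e] at h
    apply ha
    rw [ha0, eq_div_iff hα]
    linear_combination h
  have hF : ∀ a : ℂ, a ≠ a0 → D.eval a = 0 → 2 ≤ 2 ∧ ∃ b : ℂ,
      Ct 0 1 (cub 0 p2 p1 p0) ![a, b] 2 := by
    intro a ha h
    obtain ⟨b, h1, h0⟩ := hfin a h (hne a ha)
    exact ⟨le_rfl, b, (ct_of hN h1 h0).2 (hne a ha)⟩
  by_cases hda : D.eval a0 = 0
  · refine ⟨D.roots.toFinset.erase a0, {a0}, fun _ => 2, ?_, ?_, ?_, ?_⟩
    · simp
    · intro a ha
      rw [Finset.mem_erase] at ha
      exact hF a ha.1 ((hmem a).1 ha.2)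
    · intro a ha
      rw [Finset.mem_singleton] at ha
      subst ha
      refine ⟨by norm_num, 2, A p0 * MvPolynomial.X 1 ^ 2 + A p1 * MvPolynomial.X 1 + A p2, ?_, ?_⟩
      · refine ⟨fun n => if n = 0 then p0 else if n = 1 then p1 else p2, ?_, ?_⟩
        · simp [Finset.sum_range_succ, cub]
          ring
        · simp [Finset.sum_range_succ]
      · have h1 : p1.eval a0 = 0 := by
          rw [hDe, ha0e] at hda
          have : p1.eval a0 ^ 2 = 0 := by linear_combination hda
          exact pow_eq_zero_iff (two_ne_zero) |>.1 this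
        have h0 := hL a0 (by rw [← hp2e]; exact ha0e) h1
        refine ⟨A (p2 /ₘ (Polynomial.X - Polynomial.C a0)) +
          A (p1 /ₘ (Polynomial.X - Polynomial.C a0)) * MvPolynomial.X 1 +
          A (p0 /ₘ (Polynomial.X - Polynomial.C a0)) * MvPolynomial.X 1 ^ 2,
          MvPolynomial.C (p0.eval a0), ?_, ?_, ?_⟩
        · have e2 := A_split p2 a0
          have e1 := A_split p1 a0
          have e0 := A_split p0 a0
          rw [ha0e, map_zero, zero_add] at e2
          rw [h1, map_zero, zero_add] at e1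
          rw [e2, e1, e0]
          simp
          ring
        · rw [map_add, map_add, map_mul, map_mul, eval_A, eval_A, eval_A]
          simp [div_eval, hp2d, hα]
        · simpa using h0
    · have hc : (D.roots.toFinset.erase a0).card = 3 := by
        rw [Finset.card_erase_of_mem ((hmem a0).2 hda), hcard]
      rw [Finset.sum_const, hc]
      simp
  · refine ⟨D.roots.toFinset, ∅, fun _ => 2, ?_, ?_, ?_, ?_⟩
    · simp
    · intro a ha
      have h := (hmem a).1 ha
      refine hF a ?_ h
      rintro rfl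
      exact hda h
    · intro a ha
      simp at ha
    · rw [Finset.sum_const, hcard]
      simp

end H719FO
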