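import Pool.Agent.H719R3.FO.Stubs

/-!
The places above a maximal ideal of a Dedekind domain with residue field `k`.
-/

set_option autoImplicit false
set_option linter.deprecated false

namespace H719FO

open IsDedekindDomain WithZero

namespace DED

section one

variable {B K : Type} [CommRing B] [IsDedekindDomain B] [Field K] [Algebra B K]
  [IsFractionRing B K]

/-- elements of valuation at most one are fractions with denominator outside the prime -/
theorem frac (v : HeightOneSpectrum B) (y : K) (hy : v.valuation K y ≤ 1) :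
    ∃ e c : B, c ∉ v.asIdeal ∧ algebraMap B K c * y = algebraMap B K e := by
  obtain ⟨a, b, hb, rfl⟩ := IsFractionRing.div_surjective (A := B) y
  have hb0 : b ≠ 0 := nonZeroDivisors.ne_zero hb
  have hbK : algebraMap B K b ≠ 0 := by
    rw [Ne, FaithfulSMul.algebraMap_eq_zero_iff]; exact hb0
  have hab : v.intValuation a ≤ v.intValuation b := by
    rw [map_div₀, v.valuation_of_algebraMap, v.valuation_of_algebraMap] at hy
    have hb1 : v.intValuation b ≠ 0 := v.intValuation_ne_zero b hb0
    rw [div_le_one₀ (zero_lt_iff.mpr hb1)] at hy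
    exact hy
  obtain ⟨n, hn⟩ : ∃ n : ℕ, v.intValuation b = exp (-(n : ℤ)) := ⟨_, v.intValuation_if_neg hb0⟩
  set J : Ideal B := Ideal.span {a, b} with hJ
  have hbJ : Ideal.span {b} ≤ J := Ideal.span_mono (by simp)
  obtain ⟨I, hI⟩ := Ideal.dvd_iff_le.mpr hbJ
  have hJn : J ≤ v.asIdeal ^ n := by
    rw [hJ, Ideal.span_le]
    intro x hx
    rcases hx with rfl | hx
    · exact (v.intValuation_le_pow_iff_mem _ n).mp (hn ▸ hab)
    · rw [Set.mem_singleton_iff] at hx
      subst hx
      exact (v.intValuation_le_pow_iff_mem _ n).mp hn.le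
  have hIn : ¬ I ≤ v.asIdeal := by
    intro hle
    have h1 : b ∈ v.asIdeal ^ (n + 1) := by
      rw [pow_succ]
      apply Ideal.mul_mono hJn hle
      rw [← hI]
      exact Ideal.mem_span_singleton_self b
    have h2 := (v.intValuation_le_pow_iff_mem _ (n + 1)).mpr h1
    rw [hn, exp_le_exp] at h2
    push_cast at h2
    omega
  obtain ⟨c, hcI, hc⟩ := Set.not_subset.mp hIn
  have h3 : a * c ∈ J * I := Ideal.mul_mem_mul (Ideal.subset_span (by simp)) hcI
  rw [← hI, Ideal.mem_span_singleton'] at h3
  obtain ⟨e, he⟩ := h3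
  refine ⟨e, c, hc, ?_⟩
  rw [mul_div_assoc', div_eq_iff hbK, ← map_mul, ← map_mul, he, mul_comm]

theorem valuation_lt_iff (v : HeightOneSpectrum B) (b : B) :
    v.valuation K (algebraMap B K b) < 1 ↔ b ∈ v.asIdeal := v.valuation_lt_one_iff_mem b

theorem unique (v : HeightOneSpectrum B) (w : Valuation K ℤᵐ⁰) (hsurj : Function.Surjective w)
    (hw : ∀ b : B, w (algebraMap B K b) ≤ 1)
    (hv : ∀ b : B, w (algebraMap B K b) < 1 ↔ b ∈ v.asIdeal) : w = v.valuation K := by
  have hone : ∀ c : B, c ∉ v.asIdeal → w (algebraMap B K c) = 1 := fun c hc =>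
    le_antisymm (hw c) (not_lt.mp (fun h => hc ((hv c).mp h)))
  have s1 : ∀ y : K, v.valuation K y ≤ 1 → w y ≤ 1 := by
    intro y hy
    obtain ⟨e, c, hc, h⟩ := frac v y hy
    have h1 := congrArg w h
    rw [map_mul, hone c hc, one_mul] at h1
    rw [h1]; exact hw e
  have s2 : ∀ y : K, v.valuation K y = 1 → w y = 1 := by
    intro y hy
    have hy0 : y ≠ 0 := by rintro rfl; simp at hy
    have h1 := s1 y hy.le
    have h2 := s1 y⁻¹ (by rw [map_inv₀, hy, inv_one])
    rw [map_inv₀] at h2
    have h3 : w y ≠ 0 := (w.ne_zero_iff).mpr hy0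
    exact le_antisymm h1 ((inv_le_one₀ (zero_lt_iff.mpr h3)).mp h2)
  obtain ⟨π, hπ⟩ := v.valuation_exists_uniformizer K
  have hπ0 : π ≠ 0 := by
    rintro rfl
    rw [map_zero] at hπ
    exact exp_ne_zero hπ.symm
  have hwπ0 : w π ≠ 0 := (w.ne_zero_iff).mpr hπ0
  have hwπ : w π < 1 := by
    have hlt : v.valuation K π < 1 := by rw [hπ, ← exp_zero, exp_lt_exp]; norm_num
    obtain ⟨e, c, hc, h⟩ := frac v π hlt.le
    have h1 := congrArg w h
    rw [map_mul, hone c hc, one_mul] at h1
    rw [h1, hv, ← valuation_lt_iff (K := K), ← h, map_mul]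
    have : v.valuation K (algebraMap B K c) ≤ 1 := v.valuation_le_one c
    calc v.valuation K (algebraMap B K c) * v.valuation K π ≤ 1 * v.valuation K π := by gcongr
      _ < 1 := by rwa [one_mul]
  set m : ℤ := log (w π) with hm
  have hwπe : w π = exp m := (exp_log hwπ0).symm
  have hm0 : m < 0 := by rw [hwπe, ← exp_zero, exp_lt_exp] at hwπ; exact hwπ
  have key : ∀ x : K, x ≠ 0 → w x = exp (-(log (v.valuation K x) * m)) := by
    intro x hx
    have hvx : v.valuation K x ≠ 0 := ((v.valuation K).ne_zero_iff).mpr hx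
    set n : ℤ := log (v.valuation K x) with hn
    have hvxe : v.valuation K x = exp n := (exp_log hvx).symm
    have h1 : v.valuation K (x * π ^ n) = 1 := by
      rw [map_mul, map_zpow₀, hvxe, hπ, ← exp_zsmul, ← exp_add]
      simp
    have h2 := s2 _ h1
    rw [map_mul, map_zpow₀, hwπe, ← exp_zsmul] at h2
    rw [exp_neg, eq_comm, inv_eq_of_mul_eq_one_left]
    rw [smul_eq_mul] at h2
    exact h2
  obtain ⟨x, hx⟩ := hsurj (exp 1)
  have hx0 : x ≠ 0 := by
    rintro rfl
    rw [map_zero] at hx
    exact exp_ne_zero hx.symm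
  have h4 := key x hx0
  rw [hx, exp_inj] at h4
  have hm1 : m = -1 := by
    have : m ∣ 1 := ⟨-log (v.valuation K x), by rw [h4]; ring⟩
    rcases Int.isUnit_iff.mp (isUnit_of_dvd_one this) with h | h <;> omega
  ext y
  by_cases hy : y = 0
  · simp [hy]
  · rw [key y hy, hm1]
    simp only [mul_neg, mul_one, neg_neg]
    exact exp_log (((v.valuation K).ne_zero_iff).mpr hy)

theorem surj (v : HeightOneSpectrum B) : Function.Surjective (v.valuation K) := by
  intro x
  by_cases hx : x = 0
  · exact ⟨0, by rw [map_zero, hx]⟩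
  · obtain ⟨π, hπ⟩ := v.valuation_exists_uniformizer K
    refine ⟨π ^ (-log x), ?_⟩
    rw [map_zpow₀, hπ, ← exp_zsmul]
    simp only [smul_eq_mul, mul_neg, mul_one, neg_neg]
    exact exp_log hx

end one

section two

variable {k R B : Type} [Field k] [CommRing R] [CommRing B] [Algebra k R] [Algebra R B]
  [IsAlgClosed k]

open Polynomial in
/-- the residue field at a prime is `k` -/
theorem residue (p : Ideal R) (P : Ideal B) [P.IsPrime] (hpP : ∀ x ∈ p, algebraMap R B x ∈ P)
    (hres : ∀ x : R, ∃ c : k, x - algebraMap k R c ∈ p) (b : B) (hb : IsIntegral R b) :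
    ∃ c : k, b - algebraMap R B (algebraMap k R c) ∈ P := by
  choose c hc using hres
  obtain ⟨f, hf, hfb⟩ := hb
  let φ : k →+* B := (algebraMap R B).comp (algebraMap k R)
  let g : Polynomial k := ∑ i ∈ Finset.range (f.natDegree + 1), Polynomial.C (c (f.coeff i)) * X ^ i
  have hgb : g.eval₂ φ b ∈ P := by
    have h1 : g.eval₂ φ b = ∑ i ∈ Finset.range (f.natDegree + 1), φ (c (f.coeff i)) * b ^ i := by
      simp only [g, eval₂_finset_sum, eval₂_mul, eval₂_C, eval₂_pow, eval₂_X]
    have h2 : (0 : B) = ∑ i ∈ Finset.range (f.natDegree + 1), algebraMap R B (f.coeff i) * b ^ i := by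
      rw [← hfb, eval₂_eq_sum_range]
    have h3 : g.eval₂ φ b = ∑ i ∈ Finset.range (f.natDegree + 1),
        (φ (c (f.coeff i)) - algebraMap R B (f.coeff i)) * b ^ i := by
      rw [h1]
      simp only [sub_mul]
      rw [Finset.sum_sub_distrib, ← h2, sub_zero]
    rw [h3]
    apply Ideal.sum_mem
    intro i _
    apply Ideal.mul_mem_right
    have := hpP _ (hc (f.coeff i))
    rw [map_sub] at this
    rw [← neg_mem_iff, neg_sub]
    exact this
  have h1P : (1 : B) ∉ P := fun h => (inferInstance : P.IsPrime).ne_top (P.eq_top_iff_one.mpr h)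
  have hg0 : g ≠ 0 := by
    intro h0
    have h4 : g.coeff f.natDegree = c 1 := by
      simp only [g, finset_sum_coeff, coeff_C_mul, coeff_X_pow]
      rw [Finset.sum_eq_single f.natDegree]
      · simp [hf.coeff_natDegree]
      · intro j _ hj
        simp [Ne.symm hj]
      · simp
    rw [h0, coeff_zero] at h4
    have h5 := hpP _ (hc 1)
    rw [← h4, map_zero, sub_zero, map_one] at h5
    exact h1P h5
  have hsplit := (IsAlgClosed.splits g).eq_prod_roots
  have h6 : g.eval₂ φ b = φ g.leadingCoeff * (g.roots.map (fun a => b - φ a)).prod := by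
    conv_lhs => rw [hsplit]
    rw [eval₂_mul, eval₂_C]
    congr 1
    have := Polynomial.eval₂_multiset_prod φ (g.roots.map (fun a => X - C a)) b
    rw [this, Multiset.map_map]
    congr 1
    apply Multiset.map_congr rfl
    intro a _
    simp
  rw [h6] at hgb
  rcases (inferInstance : P.IsPrime).mem_or_mem hgb with h | h
  · exfalso
    have hu : IsUnit (φ g.leadingCoeff) :=
      (IsUnit.mk0 _ (leadingCoeff_ne_zero.mpr hg0)).map φ
    exact (inferInstance : P.IsPrime).ne_top (Ideal.eq_top_of_isUnit_mem _ h hu)
  · rw [(inferInstance : P.IsPrime).multiset_prod_mem_iff_exists_mem] at h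
    obtain ⟨x, hx, hxP⟩ := h
    obtain ⟨a, -, rfl⟩ := Multiset.mem_map.mp hx
    exact ⟨a, hxP⟩

end two

section three

/-- integral elements have valuation at most one -/
theorem le_one_of_integral {R K : Type} [CommRing R] [Field K] [Algebra R K]
    (w : Valuation K ℤᵐ⁰) (h : ∀ x : R, w (algebraMap R K x) ≤ 1) (y : K) (hy : IsIntegral R y) :
    w y ≤ 1 := by
  let φ : R →+* w.integer := (algebraMap R K).codRestrict w.integer h
  obtain ⟨p, hp, hp0⟩ := hy
  have h1 : IsIntegral w.integer y := by
    refine ⟨p.map φ, hp.map φ, ?_⟩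
    rw [Polynomial.eval₂_map]
    exact hp0
  exact (Valuation.integer.integers w).mem_of_integral h1

theorem place {k : Type} (R : Type) {B K : Type} [Field k] [CommRing R] [CommRing B]
    [IsDedekindDomain B] [Field K]
    [Algebra B K] [IsFractionRing B K] [Algebra k R] [Algebra R B] [Algebra R K]
    [IsScalarTower R B K] [Algebra k K] [IsScalarTower k R K] (v : HeightOneSpectrum B) :
    Pl k K (v.valuation K) := by
  refine ⟨surj v, ?_⟩
  intro c hc
  have h1 : ∀ c : k, v.valuation K (algebraMap k K c) ≤ 1 := by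
    intro c
    rw [IsScalarTower.algebraMap_apply k R K, IsScalarTower.algebraMap_apply R B K]
    exact v.valuation_le_one _
  have h2 := h1 c⁻¹
  rw [map_inv₀, map_inv₀] at h2
  have h3 : v.valuation K (algebraMap k K c) ≠ 0 := by
    rw [Ne, Valuation.zero_iff]
    simpa using hc
  exact le_antisymm (h1 c) ((inv_le_one₀ (zero_lt_iff.mpr h3)).mp h2)

end three

section four

open Classical in
theorem gen (k R F K B : Type) [Field k] [CommRing R] [IsDedekindDomain R] [Field F]
    [Field K] [CommRing B] [IsDedekindDomain B] [Algebra k R] [Algebra R F] [IsFractionRing R F]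
    [Algebra F K] [Algebra R K] [IsScalarTower R F K] [Algebra k K] [IsScalarTower k R K]
    [IsAlgClosed k] [Algebra R B] [Algebra B K] [IsScalarTower R B K]
    [IsFractionRing B K] [Module.Finite R B] (t : R) (ht : t ≠ 0) (hmax : (Ideal.span {t}).IsMaximal)
    (hres : ∀ x : R, ∃ c : k, x - algebraMap k R c ∈ Ideal.span {t}) :
    ∃ V : Finset (Valuation K ℤᵐ⁰),
      (∀ w, w ∈ V ↔ Pl k K w ∧ (∀ x : R, w (algebraMap R K x) ≤ 1) ∧ w (algebraMap R K t) < 1) ∧
      ∑ w ∈ V, od w (algebraMap R K t) = Module.finrank F K := by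
  set p : Ideal R := Ideal.span {t} with hp
  have := hmax
  have hp0 : p ≠ ⊥ := by rw [hp, Ne, Ideal.span_singleton_eq_bot]; exact ht
  have hinjK : Function.Injective (algebraMap R K) := by
    rw [IsScalarTower.algebraMap_eq R F K]
    exact (algebraMap F K).injective.comp (IsFractionRing.injective R F)
  have hinjB : Function.Injective (algebraMap R B) := by
    have h : algebraMap R K = (algebraMap B K).comp (algebraMap R B) :=
      IsScalarTower.algebraMap_eq R B K
    rw [h] at hinjK
    exact Function.Injective.of_comp hinjK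
  have htf : Module.IsTorsionFree R B := Module.isTorsionFree_iff_algebraMap_injective.mpr hinjB
  have htK : algebraMap R K t ≠ 0 := fun h => ht (hinjK (by rw [h, map_zero]))
  have htB : algebraMap R B t ≠ 0 := fun h => ht (hinjB (by rw [h, map_zero]))
  have hint : ∀ b : B, IsIntegral R b := fun b => Algebra.IsIntegral.isIntegral b
  let val : Ideal B → Valuation K ℤᵐ⁰ := fun Q =>
    if h : Q.IsPrime ∧ Q ≠ ⊥ then (HeightOneSpectrum.mk Q h.1 h.2).valuation K else 1
  have hmem : ∀ Q ∈ IsDedekindDomain.primesOverFinset p B, ∃ v : HeightOneSpectrum B, v.asIdeal = Q ∧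
      val Q = v.valuation K ∧ Q.LiesOver p ∧ algebraMap R B t ∈ Q := by
    intro Q hQ
    rw [IsDedekindDomain.mem_primesOverFinset_iff hp0] at hQ
    obtain ⟨h1, h2⟩ := hQ
    have htQ : algebraMap R B t ∈ Q := by
      have : t ∈ Q.under R := by
        rw [← Ideal.over_def Q p]; exact Ideal.mem_span_singleton_self t
      exact this
    have hQ0 : Q ≠ ⊥ := by
      intro h0
      rw [h0, Ideal.mem_bot] at htQ
      exact htB htQ
    exact ⟨⟨Q, h1, hQ0⟩, rfl, dif_pos ⟨h1, hQ0⟩, h2, htQ⟩
  have hinjV : ∀ Q ∈ IsDedekindDomain.primesOverFinset p B, ∀ Q' ∈ IsDedekindDomain.primesOverFinset p B, val Q = val Q' →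
      Q = Q' := by
    intro Q hQ Q' hQ' h
    obtain ⟨v, rfl, hv, -, -⟩ := hmem Q hQ
    obtain ⟨v', rfl, hv', -, -⟩ := hmem Q' hQ'
    rw [hv, hv'] at h
    ext b
    rw [← valuation_lt_iff (K := K) v, ← valuation_lt_iff (K := K) v', h]
  refine ⟨(IsDedekindDomain.primesOverFinset p B).image val, ?_, ?_⟩
  · intro w
    rw [Finset.mem_image]
    constructor
    · rintro ⟨Q, hQ, rfl⟩
      obtain ⟨v, rfl, hv, -, htQ⟩ := hmem Q hQ
      rw [hv]
      refine ⟨place R v, ?_, ?_⟩
      · intro x
        rw [IsScalarTower.algebraMap_apply R B K]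
        exact v.valuation_le_one _
      · rw [IsScalarTower.algebraMap_apply R B K]
        exact (valuation_lt_iff v _).mpr htQ
    · rintro ⟨hw, h1, h2⟩
      have hwB : ∀ b : B, w (algebraMap B K b) ≤ 1 := fun b =>
        le_one_of_integral w h1 _ ((hint b).algebraMap)
      let Q : Ideal B :=
        { carrier := {b | w (algebraMap B K b) < 1}
          add_mem' := by
            intro a b ha hb
            simp only [Set.mem_ofPred_eq] at ha hb ⊢
            rw [map_add]
            exact Valuation.map_add_lt w ha hb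
          zero_mem' := by simp
          smul_mem' := by
            intro c x hx
            simp only [Set.mem_ofPred_eq] at hx ⊢
            rw [smul_eq_mul, map_mul, map_mul]
            calc w (algebraMap B K c) * w (algebraMap B K x) ≤ 1 * w (algebraMap B K x) := by
                  gcongr; exact hwB c
              _ < 1 := by rwa [one_mul] }
      have hQmem : ∀ b, b ∈ Q ↔ w (algebraMap B K b) < 1 := fun b => Iff.rfl
      have hQp : Q.IsPrime := by
        constructor
        · intro htop
          have : (1 : B) ∈ Q := htop ▸ Submodule.mem_top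
          rw [hQmem, map_one, map_one] at this
          exact lt_irrefl _ this
        · intro x y hxy
          rw [hQmem, map_mul, map_mul] at hxy
          by_contra hcon
          push Not at hcon
          obtain ⟨hx, hy⟩ := hcon
          rw [hQmem, not_lt] at hx hy
          have hx1 := le_antisymm (hwB x) hx
          have hy1 := le_antisymm (hwB y) hy
          rw [hx1, hy1, one_mul] at hxy
          exact lt_irrefl _ hxy
      have htQ : algebraMap R B t ∈ Q := by
        rw [hQmem, ← IsScalarTower.algebraMap_apply R B K]; exact h2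
      have hQ0 : Q ≠ ⊥ := by
        intro h0
        rw [h0, Ideal.mem_bot] at htQ
        exact htB htQ
      have hover : Q.LiesOver p := by
        constructor
        apply hmax.eq_of_le
        · intro htop
          have : (1 : R) ∈ Q.under R := htop ▸ Submodule.mem_top
          have h3 : algebraMap R B 1 ∈ Q := this
          rw [map_one] at h3
          exact hQp.ne_top (Q.eq_top_iff_one.mpr h3)
        · rw [hp, Ideal.span_singleton_le_iff_mem]
          exact htQ
      refine ⟨Q, (IsDedekindDomain.mem_primesOverFinset_iff hp0 B).mpr ⟨hQp, hover⟩, ?_⟩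
      have hvQ : val Q = (HeightOneSpectrum.mk Q hQp hQ0).valuation K := dif_pos ⟨hQp, hQ0⟩
      rw [hvQ]
      exact (unique ⟨Q, hQp, hQ0⟩ w hw.surj hwB (fun b => Iff.rfl)).symm
  · rw [Finset.sum_image hinjV]
    have hsum := Ideal.sum_ramification_inertia B F K hp0
    rw [← hsum]
    push_cast
    apply Finset.sum_congr rfl
    intro Q hQ
    obtain ⟨v, rfl, hv, hover, htQ⟩ := hmem Q hQ
    have := hover
    have : v.asIdeal.IsPrime := v.isPrime
    have hf : Ideal.inertiaDeg' p v.asIdeal = 1 := by
      rw [Ideal.inertiaDeg'_algebraMap]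
      apply finrank_eq_one (v := (1 : B ⧸ v.asIdeal)) one_ne_zero
      intro x
      obtain ⟨b, rfl⟩ := Ideal.Quotient.mk_surjective x
      obtain ⟨c, hc⟩ := residue (k := k) p v.asIdeal (by
        intro x hx
        have : x ∈ v.asIdeal.under R := by rw [← Ideal.over_def v.asIdeal p]; exact hx
        exact this) hres b (hint b)
      refine ⟨Ideal.Quotient.mk p (algebraMap k R c), ?_⟩
      rw [Algebra.smul_def, mul_one, Ideal.Quotient.algebraMap_mk_of_liesOver]
      exact ((Ideal.Quotient.eq).mpr hc).symm
    have he : od (val v.asIdeal) (algebraMap R K t) = (Ideal.ramificationIdx' p v.asIdeal : ℤ) := by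
      obtain ⟨n, hn⟩ : ∃ n : ℕ, v.intValuation (algebraMap R B t) = exp (-(n : ℤ)) :=
        ⟨_, v.intValuation_if_neg htB⟩
      have h1 : Ideal.ramificationIdx' p v.asIdeal = n := by
        apply Ideal.ramificationIdx'_spec
        · rw [hp, Ideal.map_span, Set.image_singleton, Ideal.span_singleton_le_iff_mem,
            ← v.intValuation_le_pow_iff_mem, hn]
        · rw [hp, Ideal.map_span, Set.image_singleton, Ideal.span_singleton_le_iff_mem,
            ← v.intValuation_le_pow_iff_mem, hn, exp_le_exp]
          push_cast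
          omega
      rw [h1, hv, od, IsScalarTower.algebraMap_apply R B K, v.valuation_of_algebraMap, hn,
        log_exp, neg_neg]
    rw [he, hf]
    simp

end four

end DED

theorem DED_proof : St_DED := by
  intro k R F K _ _ _ _ _ _ _ _ _ _ _ _ _ _ _ _ t ht hmax hres
  have : FaithfulSMul R F := inferInstance
  have : CharZero R := charZero_of_injective_algebraMap (algebraMap k R).injective
  have : CharZero F := charZero_of_injective_algebraMap (IsFractionRing.injective R F)
  have : Algebra.IsSeparable F K := inferInstance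
  have : IsDedekindDomain (integralClosure R K) := integralClosure.isDedekindDomain R F K
  have : IsFractionRing (integralClosure R K) K :=
    integralClosure.isFractionRing_of_finite_extension F K
  have : Module.Finite R (integralClosure R K) :=
    IsIntegralClosure.finite R F K (integralClosure R K)
  exact DED.gen k R F K (integralClosure R K) t ht hmax hres

end H719FO
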