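import Pool.Agent.H719R3.FO.Stubs

/-!
DEG: the order of a function summed over all places is zero.
-/

set_option autoImplicit false

namespace H719FO

open IntermediateField H450BH WithZero

theorem DEG_inv_range (k K : Type) [Field k] [Field K] [Algebra k K] (u : K)
    (h : u⁻¹ ∈ Set.range (algebraMap k K)) : u ∈ Set.range (algebraMap k K) := by
  obtain ⟨c, hc⟩ := h
  refine ⟨c⁻¹, ?_⟩
  rw [map_inv₀, hc, inv_inv]

theorem DEG_adjoin_inv (k K : Type) [Field k] [Field K] [Algebra k K] (u : K) : k⟮u⁻¹⟯ = k⟮u⟯ := by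
  apply le_antisymm
  · rw [adjoin_simple_le_iff]
    exact inv_mem (mem_adjoin_simple_self k u)
  · rw [adjoin_simple_le_iff]
    have := inv_mem (mem_adjoin_simple_self k u⁻¹)
    rwa [inv_inv] at this

theorem DEG_dg_inv (k K : Type) [Field k] [Field K] [Algebra k K] (u : K) :
    dg k K u⁻¹ = dg k K u := by
  unfold dg
  by_cases h : u ∈ Set.range (algebraMap k K)
  · have h' : u⁻¹ ∈ Set.range (algebraMap k K) := DEG_inv_range k K u⁻¹ (by rwa [inv_inv])
    rw [if_pos h, if_pos h']
  · have h' : u⁻¹ ∉ Set.range (algebraMap k K) := fun h' => h (DEG_inv_range k K u h')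
    rw [if_neg h, if_neg h', DEG_adjoin_inv]

theorem DEG_proof (h : St_DU) : St_DEG := by
  classical
  intro k K _ _ _ _ _ hOne u hu
  by_cases hc : u ∈ Set.range (algebraMap k K)
  · refine ⟨∅, by simp, ?_⟩
    intro V' _ hV'
    apply Finset.sum_eq_zero
    intro w hw
    obtain ⟨c, rfl⟩ := hc
    have hc0 : c ≠ 0 := by
      rintro rfl
      exact hu (map_zero _)
    exact (eq_one_iff w hu).1 ((hV' w hw).triv c hc0)
  · have hc' : u⁻¹ ∉ Set.range (algebraMap k K) := fun h' => hc (DEG_inv_range k K u h')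
    obtain ⟨V0, hV0, hs0⟩ := h k K hOne u hc
    obtain ⟨V1, hV1, hs1⟩ := h k K hOne u⁻¹ hc'
    have hdis : Disjoint V0 V1 := by
      rw [Finset.disjoint_left]
      intro w hw0 hw1
      have h0 := ((hV0 w).1 hw0).2
      have h1 := ((hV1 w).1 hw1).2
      rw [od_inv] at h1
      omega
    refine ⟨V0 ∪ V1, ?_, ?_⟩
    · intro w hw
      rcases Finset.mem_union.1 hw with hw | hw
      · exact ((hV0 w).1 hw).1
      · exact ((hV1 w).1 hw).1
    · intro V' hsub hV'
      rw [← Finset.sum_subset hsub, Finset.sum_union hdis, hs0]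
      · have e : ∑ w ∈ V1, od w u = - ∑ w ∈ V1, od w u⁻¹ := by
          rw [← Finset.sum_neg_distrib]
          exact Finset.sum_congr rfl fun w _ => by rw [od_inv, neg_neg]
        rw [e, hs1, DEG_dg_inv]
        omega
      · intro w hw hw'
        rw [Finset.mem_union, not_or] at hw'
        have h0 : ¬ 0 < od w u := fun hp => hw'.1 ((hV0 w).2 ⟨hV' w hw, hp⟩)
        have h1 : ¬ 0 < od w u⁻¹ := fun hp => hw'.2 ((hV1 w).2 ⟨hV' w hw, hp⟩)
        rw [od_inv] at h1
        omega

end H719FO
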