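import Pool.Agent.H719R3.FO.Stubs

set_option autoImplicit false

namespace H719FO

open IntermediateField H450BH WithZero Pool.Agent.H719R3.BG Polynomial

theorem DU_aux {k K : Type} [Field k] [Field K] [Algebra k K] (w : Valuation K ℤᵐ⁰)
    (hw : Pl k K w) (f : K) (hf : w f ≤ 1) (p : Polynomial k) : w (Polynomial.aeval f p) ≤ 1 := by
  induction p using Polynomial.induction_on' with
  | add p q hp hq =>
    rw [map_add]
    exact (w.map_add _ _).trans (max_le hp hq)
  | monomial n c =>
    rw [Polynomial.aeval_monomial, map_mul, map_pow]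
    have h1 : w (algebraMap k K c) ≤ 1 := by
      by_cases hc : c = 0
      · rw [hc, map_zero, map_zero]
        exact zero_le_one
      · rw [hw.triv c hc]
    exact mul_le_one' h1 (pow_le_one' hf n)

theorem DU_proof (h : St_DED) : St_DU := by
  intro k K _ _ _ _ _ hone f hf
  have htr : Transcendental k f := hone.tr f hf
  have hf0 : f ≠ 0 := by
    rintro rfl
    exact hf ⟨0, map_zero _⟩
  have hinj : Function.Injective (Polynomial.aeval f : Polynomial k →ₐ[k] K) :=
    transcendental_iff_injective.1 htr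
  let a1 : Algebra (Polynomial k) k⟮f⟯ :=
    (Polynomial.aeval (AdjoinSimple.gen k f) : Polynomial k →ₐ[k] k⟮f⟯).toRingHom.toAlgebra
  let a2 : Algebra (Polynomial k) K := (Polynomial.aeval f : Polynomial k →ₐ[k] K).toRingHom.toAlgebra
  have e2 : ∀ p : Polynomial k, algebraMap (Polynomial k) K p = Polynomial.aeval f p := fun p => rfl
  have e1 : ∀ p : Polynomial k, algebraMap (Polynomial k) k⟮f⟯ p =
    Polynomial.aeval (AdjoinSimple.gen k f) p := fun p => rfl
  have e3 : ∀ p : Polynomial k, algebraMap k⟮f⟯ K (algebraMap (Polynomial k) k⟮f⟯ p) =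
      Polynomial.aeval f p := by
    intro p
    rw [e1, ← Polynomial.aeval_algebraMap_apply]
    rfl
  have t1 : IsScalarTower (Polynomial k) k⟮f⟯ K := IsScalarTower.of_algebraMap_eq fun p => by
    rw [e3, e2]
  have t2 : IsScalarTower k (Polynomial k) K := IsScalarTower.of_algebraMap_eq fun c => by
    rw [e2]
    simp
  have t3 : FaithfulSMul (Polynomial k) k⟮f⟯ := by
    rw [faithfulSMul_iff_algebraMap_injective]
    intro p q hpq
    apply hinj
    rw [← e3, ← e3, hpq]
  have t4 : IsFractionRing (Polynomial k) k⟮f⟯ := by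
    refine IsFractionRing.of_field _ _ fun z => ?_
    obtain ⟨r, s, hrs⟩ := (IntermediateField.mem_adjoin_simple_iff k (z : K)).1 z.2
    refine ⟨r, s, ?_⟩
    apply (algebraMap k⟮f⟯ K).injective
    rw [map_div₀, e3, e3]
    exact hrs
  have t5 : FiniteDimensional k⟮f⟯ K := hone.fin f hf
  obtain ⟨V, hV1, hV2⟩ := h k (Polynomial k) k⟮f⟯ K Polynomial.X Polynomial.X_ne_zero
    (PrincipalIdealRing.isMaximal_of_irreducible Polynomial.irreducible_X)
    (fun p => ⟨p.coeff 0, Ideal.mem_span_singleton.2 (by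
      rw [Polynomial.algebraMap_eq]
      exact Polynomial.X_dvd_sub_C)⟩)
  have eX : algebraMap (Polynomial k) K Polynomial.X = f := by rw [e2, Polynomial.aeval_X]
  rw [eX] at hV2
  refine ⟨V, fun w => ?_, ?_⟩
  · rw [hV1 w, eX, lt_one_iff w hf0]
    constructor
    · rintro ⟨h1, -, h3⟩
      exact ⟨h1, h3⟩
    · rintro ⟨h1, h3⟩
      refine ⟨h1, fun p => ?_, h3⟩
      rw [e2]
      exact DU_aux w h1 f ((lt_one_iff w hf0).2 h3).le p
  · rw [hV2]
    unfold dg
    rw [if_neg hf]

end H719FO
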