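import Mathlib
import Pool.Agent.H719R3.FO.Stubs
import Pool.Agent.H450R3.BH.Final

/-! Assembly. -/

set_option autoImplicit false

namespace H719FO

open IntermediateField H450BH WithZero Pool.Agent.H719R3.BG
open scoped ComplexConjugate

/-- the boundary of a table is infinite -/
theorem frontier_infinite {Ω : Set ℂ} (hT : Table Ω) {n : ℕ} (hn : 0 < n)
    (hinf : {x : ℤ → ℂ | Polygon Ω n x}.Infinite) : (frontier Ω).Infinite := by
  intro hfin
  apply hinf
  have hpi : (Set.pi Set.univ fun _ : Fin n => frontier Ω).Finite :=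
    Set.Finite.pi fun _ => hfin
  refine Set.Finite.of_finite_image (f := fun (x : ℤ → ℂ) (j : Fin n) => x ((j : ℕ) : ℤ)) ?_ ?_
  · refine hpi.subset ?_
    rintro _ ⟨x, hx, rfl⟩
    exact fun j _ => hx.mem _
  · intro x hx y hy hxy
    have hn' : (0 : ℤ) < n := by exact_mod_cast hn
    have key : ∀ (z : ℤ → ℂ), Polygon Ω n z → ∀ j : ℤ, z j = z (((j % n).toNat : ℕ) : ℤ) := by
      intro z hz j
      have hp : Function.Periodic z (n : ℤ) := hz.per
      have h2 := hp.sub_zsmul_eq (x := j) (j / n)
      rw [smul_eq_mul] at h2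
      have h3 : j % n = j - j / n * n := by
        have := Int.emod_add_mul_ediv j n
        linarith
      rw [Int.toNat_of_nonneg (Int.emod_nonneg _ hn'.ne'), h3]
      exact h2.symm
    funext j
    have hlt : (j % n).toNat < n := by
      have := Int.emod_lt_of_pos j hn'
      omega
    rw [key x hx j, key y hy j]
    exact congrFun hxy ⟨(j % n).toNat, hlt⟩

theorem FIN_proof (hGER : St_GER2) (hFLD : St_FLD2) (hABS : St_ABS) (hSYM : St_SYM)
    (hSLT : St_SLT) (hSLM : St_SLM) (hCNT : St_CNT) : St_FIN := by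
  classical
  intro Ω hT P hP h0 F G r hH n hn
  by_contra hinf
  obtain ⟨ι, iι, s, hok, hinj, hbig⟩ := hSLT P
    (hSYM P hP (frontier Ω) (frontier_infinite hT hn hinf) h0) F G r hH
  obtain ⟨L, iL, iA, iC, q, hper, hq, hne, hlaw, j₀, i₀, hji⟩ := hGER Ω hT P hP h0 n hn hinf
  have hmod : ∀ j : ℤ, q (j % n) = q j := by
    intro j
    have : Function.Periodic q (n : ℤ) := hper
    have h2 := this.sub_zsmul_eq (x := j) (j / n)
    rw [smul_eq_mul] at h2
    have h3 : j % n = j - j / n * n := by
      have := Int.emod_add_mul_ediv j n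
      linarith
    rw [h3]
    exact h2
  set S : Finset L := ((Finset.range n) ×ˢ (Finset.univ : Finset (Fin 2))).image
    (fun x => q (x.1 : ℤ) x.2) with hS
  have hmem : ∀ j i, q j i ∈ S := by
    intro j i
    rw [hS, Finset.mem_image]
    refine ⟨((j % n).toNat, i), ?_, ?_⟩
    · have h1 : 0 ≤ j % n := Int.emod_nonneg _ (by positivity)
      have h2 : j % n < n := Int.emod_lt_of_pos _ (by positivity)
      simp only [Finset.mem_product, Finset.mem_range, Finset.mem_univ, and_true]
      omega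
    · have h1 : 0 ≤ j % n := Int.emod_nonneg _ (by positivity)
      simp only
      rw [Int.toNat_of_nonneg h1, hmod]
  obtain ⟨E, hEc, ⟨s₀, hs₀, hs₀E⟩, hD⟩ := hFLD ℂ L S ⟨q j₀ i₀, hmem _ _, trans_of_not_mem hji⟩
  set K := adjoin E (S : Set L) with hK
  have hqK : ∀ j i, q j i ∈ K := fun j i => subset_adjoin E _ (Finset.mem_coe.2 (hmem j i))
  set q' : ℤ → Fin 2 → K := fun j i => ⟨q j i, hqK j i⟩ with hq'
  have hcoe : ∀ (j : ℤ) (A : MvPolynomial (Fin 2) ℂ),
      ((MvPolynomial.aeval (q' j) (MvPolynomial.map (algebraMap ℂ E) A) : K) : L) =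
        MvPolynomial.aeval (q j) A := by
    intro j A
    induction A using MvPolynomial.induction_on with
    | C a =>
      rw [MvPolynomial.map_C, MvPolynomial.aeval_C, MvPolynomial.aeval_C]
      rfl
    | add a b ha hb => rw [map_add, map_add, map_add, ← ha, ← hb]; rfl
    | mul_X a i ha =>
      rw [map_mul, map_mul, map_mul, MvPolynomial.map_X, MvPolynomial.aeval_X,
        MvPolynomial.aeval_X, ← ha]
      rfl
  have hrange : ∀ x : K, x ∈ Set.range (algebraMap E K) ↔ (x : L) ∈ E := by
    intro x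
    constructor
    · rintro ⟨y, rfl⟩
      exact y.2
    · intro h
      exact ⟨⟨x, h⟩, Subtype.ext rfl⟩
  have : CharZero E := charZero_of_injective_algebraMap (algebraMap ℂ E).injective
  set P' : MvPolynomial (Fin 2) E := MvPolynomial.map (algebraMap ℂ E) P with hP'
  have hq0 : ∀ j, MvPolynomial.aeval (q' j) P' = 0 := by
    intro j
    apply Subtype.ext
    rw [hP', hcoe, hq]
    rfl
  have hncE : ∀ j, (∃ i, q' j i ∉ Set.range (algebraMap E K)) →
      ∃ i, q j i ∉ Set.range (algebraMap ℂ L) := by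
    rintro j ⟨i, hi⟩
    refine ⟨i, fun h => hi ?_⟩
    rw [hrange]
    obtain ⟨c, hc'⟩ := h
    show q j i ∈ E
    rw [← hc']
    exact E.algebraMap_mem c
  have hfin := hCNT E K hD P' n hn (hABS ℂ E P hP) ι (fun a => (s a).map (algebraMap ℂ E))
    (fun a => hSLM ℂ E (algebraMap ℂ E) P (s a) (hok a))
    (fun a b h1 h2 => hinj a b h1 ((algebraMap ℂ E).injective h2))
    (by
      rw [hP', deg_map']
      exact hbig)
    q' (fun j => funext fun i => Subtype.ext (by
      show q (j + n) i = q j i
      rw [hper])) hq0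
    (fun j i h => hne j i (congrArg Subtype.val h))
    (by
      intro j hj
      have h1 := hlaw j (hncE j hj)
      apply Subtype.ext
      rw [hP', MvPolynomial.pderiv_map, MvPolynomial.pderiv_map]
      show ((MvPolynomial.aeval (q' j) (MvPolynomial.map (algebraMap ℂ E)
          (MvPolynomial.pderiv 1 P)) : K) : L) ^ 2 *
          ((q j 1 - q (j - 1) 1) * (q (j + 1) 1 - q j 1)) =
        ((MvPolynomial.aeval (q' j) (MvPolynomial.map (algebraMap ℂ E)
          (MvPolynomial.pderiv 0 P)) : K) : L) ^ 2 *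
          ((q j 0 - q (j - 1) 0) * (q (j + 1) 0 - q j 0))
      rw [hcoe, hcoe]
      exact h1)
  rw [hS, Finset.mem_image] at hs₀
  obtain ⟨x, -, rfl⟩ := hs₀
  exact hs₀E ((hrange _).1 (hfin (x.1 : ℤ) x.2))

end H719FO
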