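import Pool.Agent.H719R3.FO.Stubs

/-!
Polynomials in `X i`, `X i'` as polynomials in `X i'` over the polynomials in `X i`.
-/

set_option autoImplicit false

namespace H719FO

open Polynomial

namespace FLAux

variable {k : Type} [Field k]

/-- the identification -/
noncomputable def phi (i' : Fin 2) : MvPolynomial (Fin 2) k →+* k[X][X] :=
  MvPolynomial.eval₂Hom (Polynomial.C.comp Polynomial.C)
    (fun l => if l = i' then Polynomial.X else Polynomial.C Polynomial.X)

noncomputable def psi (i i' : Fin 2) : k[X][X] →+* MvPolynomial (Fin 2) k :=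
  Polynomial.eval₂RingHom
    (Polynomial.aeval (MvPolynomial.X i : MvPolynomial (Fin 2) k)).toRingHom
    (MvPolynomial.X i')

theorem phi_C (i' : Fin 2) (c : k) : phi i' (MvPolynomial.C c) = C (C c) := by
  simp [phi]

theorem phi_X (i' l : Fin 2) : phi (k := k) i' (MvPolynomial.X l) = if l = i' then X else C X := by
  simp [phi]

theorem phi_aeval {i i' : Fin 2} (h : i ≠ i') (p : k[X]) :
    phi i' (Polynomial.aeval (MvPolynomial.X i : MvPolynomial (Fin 2) k) p) = C p := by
  have h1 : (phi (k := k) i').comp
      (Polynomial.aeval (MvPolynomial.X i : MvPolynomial (Fin 2) k)).toRingHom = C := by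
    apply Polynomial.ringHom_ext
    · intro a
      have : Polynomial.aeval (MvPolynomial.X i : MvPolynomial (Fin 2) k) (C a)
          = MvPolynomial.C a := by
        rw [Polynomial.aeval_C]
        rfl
      simp only [AlgHom.toRingHom_eq_coe, RingHom.coe_comp, RingHom.coe_coe, Function.comp_apply]
      rw [this, phi_C]
    · simp only [AlgHom.toRingHom_eq_coe, RingHom.coe_comp, RingHom.coe_coe, Function.comp_apply,
        Polynomial.aeval_X]
      rw [phi_X, if_neg h]
  exact congrArg (fun f : k[X] →+* k[X][X] => f p) h1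

/-- the identification as an isomorphism -/
noncomputable def eqv {i i' : Fin 2} (h : i ≠ i') : MvPolynomial (Fin 2) k ≃+* k[X][X] :=
  RingEquiv.ofRingHom (phi i') (psi i i')
    (by
      apply Polynomial.ringHom_ext'
      · apply RingHom.ext
        intro a
        simp only [psi, RingHom.coe_comp, Function.comp_apply, Polynomial.coe_eval₂RingHom,
          Polynomial.eval₂_C, RingHom.id_apply]
        exact phi_aeval h a
      · simp only [psi, RingHom.coe_comp, Function.comp_apply, Polynomial.coe_eval₂RingHom,
          Polynomial.eval₂_X, RingHom.id_apply]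
        rw [phi_X, if_pos rfl])
    (by
      apply MvPolynomial.ringHom_ext
      · intro r
        rw [RingHom.comp_apply, phi_C, RingHom.id_apply]
        simp only [psi, Polynomial.coe_eval₂RingHom, Polynomial.eval₂_C]
        simp only [AlgHom.toRingHom_eq_coe, RingHom.coe_coe, Polynomial.aeval_C]
        rfl
      · intro l
        rw [RingHom.comp_apply, phi_X, RingHom.id_apply]
        by_cases hl : l = i'
        · rw [if_pos hl, hl]
          simp [psi]
        · have : l = i := by omega
          rw [if_neg hl, this]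
          simp [psi])

theorem eqv_apply {i i' : Fin 2} (h : i ≠ i') (P : MvPolynomial (Fin 2) k) :
    eqv h P = phi i' P := rfl

theorem irr {i i' : Fin 2} (h : i ≠ i') (P : MvPolynomial (Fin 2) k) :
    Irreducible P ↔ Irreducible (phi i' P) := by
  rw [← eqv_apply h]
  exact (MulEquiv.irreducible_iff (eqv (k := k) h).toMulEquiv).symm

theorem reflect_sum {R : Type} [CommRing R] (N : ℕ) {ι : Type} (s : Finset ι) (f : ι → R[X]) :
    reflect N (∑ n ∈ s, f n) = ∑ n ∈ s, reflect N (f n) := by
  classical
  induction s using Finset.induction_on with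
  | empty => simp
  | insert a s ha ih => rw [Finset.sum_insert ha, Finset.sum_insert ha, reflect_add, ih]

/-- the flip is the reflection -/
theorem flip {i i' : Fin 2} (h : i ≠ i') {d : ℕ} {P Q : MvPolynomial (Fin 2) k}
    (hF : Fl i i' d P Q) : (phi i' P).natDegree ≤ d ∧ phi i' Q = reflect d (phi i' P) := by
  obtain ⟨p, hP, hQ⟩ := hF
  have h1 : phi i' P = ∑ n ∈ Finset.range (d + 1), C (p n) * X ^ n := by
    rw [hP, map_sum]
    apply Finset.sum_congr rfl
    intro n _
    rw [map_mul, map_pow, phi_aeval h, phi_X, if_pos rfl]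
  have h2 : phi i' Q = ∑ n ∈ Finset.range (d + 1), C (p n) * X ^ (d - n) := by
    rw [hQ, map_sum]
    apply Finset.sum_congr rfl
    intro n _
    rw [map_mul, map_pow, phi_aeval h, phi_X, if_pos rfl]
  refine ⟨?_, ?_⟩
  · rw [h1]
    apply Polynomial.natDegree_sum_le_of_forall_le
    intro n hn
    apply (Polynomial.natDegree_C_mul_X_pow_le _ _).trans
    rw [Finset.mem_range] at hn
    omega
  · rw [h1, h2, reflect_sum]
    apply Finset.sum_congr rfl
    intro n hn
    rw [Finset.mem_range] at hn
    rw [reflect_C_mul_X_pow, revAt_le (by omega)]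

/-- evaluation at a point of the line `X i' = 0` -/
theorem aeval_zero {K : Type} [Field K] [Algebra k K] {i i' : Fin 2} (h : i ≠ i') (q : Fin 2 → K)
    (hq : q i' = 0) (G : MvPolynomial (Fin 2) k) :
    MvPolynomial.aeval q G = Polynomial.aeval (q i) ((phi i' G).coeff 0) := by
  have h1 : (MvPolynomial.aeval q : MvPolynomial (Fin 2) k →ₐ[k] K).toRingHom
      = ((Polynomial.aeval (q i) : k[X] →ₐ[k] K).toRingHom.comp
          (Polynomial.constantCoeff : k[X][X] →+* k[X])).comp (phi i') := by
    apply MvPolynomial.ringHom_ext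
    · intro r
      simp only [AlgHom.toRingHom_eq_coe, RingHom.coe_coe, MvPolynomial.algHom_C, RingHom.coe_comp,
        Function.comp_apply, phi_C, Polynomial.constantCoeff_apply, Polynomial.coeff_C_zero,
        Polynomial.aeval_C]
    · intro l
      simp only [AlgHom.toRingHom_eq_coe, RingHom.coe_coe, MvPolynomial.aeval_X, RingHom.coe_comp,
        Function.comp_apply, phi_X]
      by_cases hl : l = i'
      · rw [if_pos hl, hl, hq]
        simp
      · have hli : l = i := by omega
        rw [if_neg hl, hli]
        simp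
  have h2 := congrArg (fun f : MvPolynomial (Fin 2) k →+* K => f G) h1
  simpa using h2

/-- contact at a point of the line `X i' = 0` -/
theorem ct {i i' : Fin 2} (h : i ≠ i') {Q : MvPolynomial (Fin 2) k} {c : Fin 2 → k} {r : ℕ}
    (hr : 1 ≤ r) (hc : c i' = 0) (hC : Ct i i' Q c r) :
    ∃ U0 : k[X], (phi i' Q).coeff 0 = (X - C (c i)) * U0 ∧ U0.eval (c i) ≠ 0 := by
  obtain ⟨U, V, hQ, hU, hV⟩ := hC
  refine ⟨(phi i' U).coeff 0, ?_, ?_⟩
  · rw [hQ]
    simp only [map_add, map_mul, map_sub, map_pow, phi_X, phi_C, if_neg h, hc, if_true, map_zero,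
      sub_zero]
    rw [← C_sub, coeff_add, coeff_C_mul, mul_coeff_zero, coeff_X_pow, if_neg (by omega), zero_mul,
      add_zero]
  · have h1 := aeval_zero h c hc U
    have e1 : MvPolynomial.aeval c U = MvPolynomial.eval c U :=
      congrArg (fun f : MvPolynomial (Fin 2) k →+* k => f U) (MvPolynomial.coe_aeval_eq_eval c)
    rw [e1, Polynomial.coe_aeval_eq_eval] at h1
    rw [← h1]
    exact hU

end FLAux

end H719FO
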