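import Mathlib
import Pool.Agent.H719R3.FO.Stubs
import Pool.Agent.H450R3.BH.FLD

/-! Task FLD2: a finite set of elements, not all algebraic, generates a function field of dimension
one over an algebraically closed intermediate field of an algebraically closed field. -/

set_option autoImplicit false

namespace H719FO

open IntermediateField H450Al H450BH

/-- the algebraic closure of `k(T)` in an algebraically closed field is algebraically closed -/
theorem fld_isAlgClosed (k : Type) {Ω : Type} [Field k] [Field Ω] [Algebra k Ω] [IsAlgClosed Ω]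
    (T : Set Ω) : IsAlgClosed (fld_E k T) := by
  apply IsAlgClosed.of_exists_root
  intro p hp hirr
  have hdeg : (p.map (algebraMap (fld_E k T) Ω)).degree ≠ 0 := by
    rw [Polynomial.degree_map]
    exact hirr.degree_pos.ne'
  obtain ⟨a, ha⟩ := IsAlgClosed.exists_root (p.map (algebraMap (fld_E k T) Ω)) hdeg
  have ha' : Polynomial.aeval a p = 0 := by
    rw [Polynomial.aeval_def, ← Polynomial.eval_map]
    exact ha
  have halg : IsAlgebraic (fld_E k T) a := ⟨p, hirr.ne_zero, ha'⟩
  refine ⟨⟨a, fld_closed halg⟩, ?_⟩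
  have h1 : algebraMap (fld_E k T) Ω (Polynomial.eval (⟨a, fld_closed halg⟩ : fld_E k T) p) = 0 := by
    rw [← Polynomial.aeval_algebraMap_apply_eq_algebraMap_eval]
    exact ha'
  exact (map_eq_zero _).1 h1

theorem FLD2_proof : St_FLD2 := by
  classical
  intro k Ω _ _ _ _ _ S hS
  -- a maximal `T`
  set A : Finset (Finset Ω) := S.powerset.filter (fun T => ∃ s ∈ S, s ∉ cl k (T : Set Ω)) with hA
  have hAne : A.Nonempty := by
    refine ⟨∅, ?_⟩
    rw [hA, Finset.mem_filter]
    refine ⟨Finset.empty_mem_powerset S, ?_⟩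
    obtain ⟨s, hs, htr⟩ := hS
    refine ⟨s, hs, fun h => htr ?_⟩
    rw [mem_cl, Finset.coe_empty, Algebra.adjoin_empty] at h
    exact Subalgebra.isAlgebraic_of_isAlgebraic_bot h
  obtain ⟨T, hT⟩ := A.exists_maximal hAne
  have hTA : T ∈ A := hT.prop
  rw [hA, Finset.mem_filter, Finset.mem_powerset] at hTA
  obtain ⟨hTS, s0, hs0, hs0T⟩ := hTA
  have hmax : ∀ t ∈ S, t ∉ cl k (T : Set Ω) → ∀ s ∈ S, s ∈ cl k (insert t (T : Set Ω)) := by
    intro t ht htT s hs
    by_contra hc
    have h1 : insert t T ∈ A := by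
      rw [hA, Finset.mem_filter, Finset.mem_powerset]
      refine ⟨Finset.insert_subset ht hTS, s, hs, ?_⟩
      rw [Finset.coe_insert]
      exact hc
    have h2 : insert t T ≤ T := hT.le_of_ge h1 (Finset.subset_insert t T)
    exact htT (subset_cl k _ (h2 (Finset.mem_insert_self t T)))
  refine ⟨fld_E k (T : Set Ω), fld_isAlgClosed k (T : Set Ω), ⟨s0, hs0, hs0T⟩, ?_⟩
  set E : IntermediateField k Ω := fld_E k (T : Set Ω) with hE
  set K : IntermediateField E Ω := adjoin E (S : Set Ω) with hK
  have hval : ∀ f : K, f ∉ Set.range (algebraMap E K) → (f : Ω) ∉ E := by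
    intro f hf hfE
    apply hf
    exact ⟨⟨(f : Ω), hfE⟩, Subtype.ext rfl⟩
  have hinj : Function.Injective (algebraMap K Ω) := (algebraMap K Ω).injective
  have htr : ∀ f : K, f ∉ Set.range (algebraMap E K) → Transcendental E f := by
    intro f hf halg
    apply hval f hf
    have h1 : IsAlgebraic E (algebraMap K Ω f) := (isAlgebraic_algebraMap_iff hinj).2 halg
    exact fld_closed h1
  refine ⟨htr, ?_⟩
  intro f hf
  have hfE : (f : Ω) ∉ cl k (T : Set Ω) := hval f hf
  -- `K ⊆ cl (insert s0 T)`
  have hKcl : ∀ x ∈ K, x ∈ cl k (insert s0 (T : Set Ω)) := by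
    intro x hx
    rw [hK] at hx
    induction hx using adjoin_induction with
    | mem x hx => exact hmax s0 hs0 hs0T x hx
    | algebraMap r => exact cl_mono k (Set.subset_insert _ _) r.2
    | add x y _ _ hx hy => exact (clAlg k (insert s0 (T : Set Ω))).add_mem hx hy
    | inv x _ hx => exact inv_mem_cl k hx
    | mul x y _ _ hx hy => exact (clAlg k (insert s0 (T : Set Ω))).mul_mem hx hy
  have hex : s0 ∈ cl k (insert (f : Ω) (T : Set Ω)) := by
    have h1 : (f : Ω) ∈ (AlgebraicIndependent.matroid k Ω).closure (insert s0 (T : Set Ω)) \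
        (AlgebraicIndependent.matroid k Ω).closure (T : Set Ω) := ⟨hKcl f f.2, hfE⟩
    exact (Matroid.closure_exchange h1).1
  have hScl : ∀ s ∈ S, s ∈ cl k (insert (f : Ω) (T : Set Ω)) := by
    intro s hs
    refine cl_cl_mono k (S := insert s0 (T : Set Ω)) ?_ (hmax s0 hs0 hs0T s hs)
    intro x hx
    rcases hx with rfl | hx
    · exact hex
    · exact subset_cl k _ (Set.mem_insert_of_mem _ hx)
  -- algebraic over `E⟮f⟯`
  set L : IntermediateField E K := E⟮f⟯ with hL
  have halg : ∀ s ∈ S, IsAlgebraic L s := by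
    intro s hs
    refine fld_alg_of (k := k) (hScl s hs) ?_ ?_
    · intro x hx
      rcases hx with rfl | hx
      · exact ⟨⟨f, mem_adjoin_simple_self E f⟩, rfl⟩
      · exact ⟨algebraMap E L ⟨x, subset_cl k _ hx⟩, rfl⟩
    · intro r
      exact ⟨algebraMap E L (algebraMap k E r), rfl⟩
  set S' : Set K := {x : K | (x : Ω) ∈ S} with hS'
  have hfin : S'.Finite := by
    have h1 : S' = (Subtype.val : K → Ω) ⁻¹' (S : Set Ω) := rfl
    rw [h1]
    exact Set.Finite.preimage (Subtype.val_injective.injOn) S.finite_toSet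
  have : Finite S' := hfin.to_subtype
  have hint : ∀ x ∈ S', IsIntegral L x := by
    intro x hx
    have h1 : IsAlgebraic L (algebraMap K Ω x) := halg _ hx
    exact ((isAlgebraic_algebraMap_iff hinj).1 h1).isIntegral
  have hfd : FiniteDimensional L (adjoin L S') := finiteDimensional_adjoin hint
  have htop : adjoin L S' = ⊤ := by
    rw [eq_top_iff]
    intro x _
    have key : ∀ (y : Ω) (hy : y ∈ K), (⟨y, hy⟩ : K) ∈ adjoin L S' := by
      intro y hy
      have hy' : y ∈ adjoin E (S : Set Ω) := hy
      induction hy' using adjoin_induction with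
      | mem x hx => exact subset_adjoin L S' hx
      | algebraMap r => exact (adjoin L S').algebraMap_mem (algebraMap E L r)
      | add x1 y1 hx' hy' hx1 hy1 => exact add_mem (hx1 hx') (hy1 hy')
      | inv x1 hx' hx1 => exact inv_mem (hx1 hx')
      | mul x1 y1 hx' hy' hx1 hy1 => exact mul_mem (hx1 hx') (hy1 hy')
    exact key x.1 x.2
  rw [htop] at hfd
  exact LinearEquiv.finiteDimensional (topEquiv (F := L) (E := K)).toLinearEquiv

end H719FO
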