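import Pool.Agent.H719R3.FO.FLAux

/-!
Task FLI: the flip of an irreducible polynomial is irreducible.
-/

set_option autoImplicit false

namespace H719FO

open Polynomial

theorem fli_unit {R : Type} [CommRing R] [IsDomain R] (N : ℕ) (A : R[X]) (hA : A.coeff 0 ≠ 0)
    (hu : IsUnit (reflect N A)) : IsUnit A := by
  obtain ⟨u, hu1, hu2⟩ := Polynomial.isUnit_iff.mp hu
  have h1 : A = C u * X ^ N := by
    rw [← reflect_C, hu2, reflect_reflect]
  have hN : N = 0 := by
    by_contra hN
    apply hA
    rw [h1, mul_coeff_zero, coeff_X_pow, if_neg (by omega), mul_zero]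
  rw [h1, hN, pow_zero, mul_one]
  exact hu1.map C

theorem FLI_proof : St_FLI := by
  intro k _ i i' h P Q d c r hr hP hF hc hC
  obtain ⟨hd, hQ⟩ := FLAux.flip h hF
  obtain ⟨U0, hU, hU0⟩ := FLAux.ct h hr hc hC
  rw [FLAux.irr h] at hP ⊢
  set F := FLAux.phi i' P with hFdef
  set G := FLAux.phi i' Q with hGdef
  have hG0 : G.coeff 0 ≠ 0 := by
    rw [hU]
    apply mul_ne_zero (X_sub_C_ne_zero _)
    rintro rfl
    simp at hU0
  have hFG : F = reflect d G := by
    rw [hQ, reflect_reflect]
  have hGd : G.natDegree ≤ d := by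
    rw [hQ]
    apply Polynomial.natDegree_le_iff_coeff_eq_zero.mpr
    intro n hn
    rw [coeff_reflect]
    have h1 : revAt d n = n := by
      apply revAtFun_eq |> fun e => ?_
      rw [← revAtFun_eq]
      unfold revAtFun
      rw [if_neg (by omega)]
    rw [h1]
    exact Polynomial.coeff_eq_zero_of_natDegree_lt (lt_of_le_of_lt hd hn)
  refine ⟨?_, ?_⟩
  · intro hu
    obtain ⟨u, hu1, hu2⟩ := Polynomial.isUnit_iff.mp hu
    have h1 : G.coeff 0 = u := by
      rw [← hu2, coeff_C_zero]
    have h2 : IsUnit (X - C (c i) : k[X]) := by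
      rw [hU] at h1
      rw [← h1] at hu1
      exact isUnit_of_mul_isUnit_left hu1
    exact Polynomial.not_isUnit_X_sub_C _ h2
  · intro A B hAB
    have hne : A.coeff 0 * B.coeff 0 ≠ 0 := by
      rw [← mul_coeff_zero, ← hAB]
      exact hG0
    have hA0 : A.coeff 0 ≠ 0 := left_ne_zero_of_mul hne
    have hB0 : B.coeff 0 ≠ 0 := right_ne_zero_of_mul hne
    have hA : A ≠ 0 := by
      rintro rfl
      simp at hA0
    have hB : B ≠ 0 := by
      rintro rfl
      simp at hB0
    have hdeg : A.natDegree + B.natDegree ≤ d := by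
      rw [← Polynomial.natDegree_mul hA hB, ← hAB]
      exact hGd
    have hF2 : F = reflect (d - B.natDegree) A * reflect B.natDegree B := by
      rw [← reflect_mul A B (by omega) le_rfl, hFG, hAB]
      congr 1
      omega
    rcases hP.isUnit_or_isUnit hF2 with h1 | h1
    · left
      exact fli_unit _ A hA0 h1
    · right
      exact fli_unit _ B hB0 h1

end H719FO
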