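import Pool.Agent.H719R3.FO.Stubs

/-!
Task FLP: the relation between a curve and its flip.
-/

set_option autoImplicit false

namespace H719FO

theorem flp_pd {k : Type} [Field k] (j i : Fin 2) (p : Polynomial k) :
    MvPolynomial.pderiv j (Polynomial.aeval (MvPolynomial.X i : MvPolynomial (Fin 2) k) p) =
      if i = j then Polynomial.aeval (MvPolynomial.X i : MvPolynomial (Fin 2) k)
        (Polynomial.derivative p) else 0 := by
  rw [Derivation.map_aeval, MvPolynomial.pderiv_X, smul_eq_mul]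
  by_cases h : i = j
  · subst h
    simp
  · rw [if_neg h, Pi.single_eq_of_ne (by tauto), mul_zero]

theorem flp_ev {k K : Type} [Field k] [Field K] [Algebra k K] (q : Fin 2 → K) (i : Fin 2)
    (p : Polynomial k) :
    MvPolynomial.aeval q (Polynomial.aeval (MvPolynomial.X i : MvPolynomial (Fin 2) k) p) =
      Polynomial.aeval (q i) p := by
  rw [← Polynomial.aeval_algHom_apply, MvPolynomial.aeval_X]

theorem flp_pow {K : Type} [Field K] {w : K} (hw : w ≠ 0) {n d : ℕ} (h : n ≤ d) :
    w ^ d * (w⁻¹) ^ (d - n) = w ^ n := by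
  obtain ⟨m, rfl⟩ := Nat.exists_eq_add_of_le h
  rw [Nat.add_sub_cancel_left, pow_add, mul_assoc, ← mul_pow, mul_inv_cancel₀ hw, one_pow, mul_one]

theorem flp_pow2 {K : Type} [Field K] {w : K} (hw : w ≠ 0) {n d : ℕ} (h : n ≤ d) :
    w ^ 2 * ((n : K) * w ^ (n - 1)) =
      d * (w * w ^ n) - w ^ d * (((d - n : ℕ) : K) * (w⁻¹) ^ (d - n - 1)) := by
  obtain ⟨m, rfl⟩ := Nat.exists_eq_add_of_le h
  rw [Nat.add_sub_cancel_left]
  have h1 : w ^ 2 * ((n : K) * w ^ (n - 1)) = n * w ^ (n + 1) := by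
    rcases n with _ | n
    · simp
    · rw [Nat.add_sub_cancel]
      ring
  have h2 : w ^ (n + m) * ((m : K) * (w⁻¹) ^ (m - 1)) = m * w ^ (n + 1) := by
    rcases m with _ | m
    · simp
    · rw [Nat.add_sub_cancel]
      have h3 : w ^ (n + (m + 1)) = w ^ (n + 1) * w ^ m := by ring
      have h4 : w ^ m * (w⁻¹) ^ m = 1 := by
        rw [← mul_pow, mul_inv_cancel₀ hw, one_pow]
      rw [h3]
      calc w ^ (n + 1) * w ^ m * (((m + 1 : ℕ) : K) * w⁻¹ ^ m)
          = ((m + 1 : ℕ) : K) * w ^ (n + 1) * (w ^ m * (w⁻¹) ^ m) := by ring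
        _ = _ := by rw [h4, mul_one]
  rw [h1, h2]
  push_cast
  ring

theorem FLP_proof : St_FLP := by
  intro k K _ _ _ i i' h P Q d hF q hq q' hq'
  obtain ⟨p, hP, hQ⟩ := hF
  set w := q i' with hw
  have e1 : q' i = q i := by
    rw [hq', Function.update_of_ne h]
  have e2 : q' i' = w⁻¹ := by
    rw [hq', Function.update_self]
  refine ⟨?_, ?_, ?_⟩
  · rw [hP, hQ, map_sum, map_sum, Finset.mul_sum]
    apply Finset.sum_congr rfl
    intro n hn
    rw [Finset.mem_range] at hn
    rw [map_mul, map_mul, map_pow, map_pow, MvPolynomial.aeval_X, MvPolynomial.aeval_X, flp_ev,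
      flp_ev, e1, e2, ← hw, ← flp_pow hq (show n ≤ d by omega)]
    ring
  · rw [hP, hQ, map_sum, map_sum, map_sum, map_sum, Finset.mul_sum]
    apply Finset.sum_congr rfl
    intro n hn
    rw [Finset.mem_range] at hn
    have h1 : ∀ m : ℕ, MvPolynomial.pderiv i
        ((MvPolynomial.X i' : MvPolynomial (Fin 2) k) ^ m) = 0 := by
      intro m
      rw [Derivation.leibniz_pow, MvPolynomial.pderiv_X, Pi.single_eq_of_ne h.symm, smul_zero,
        smul_zero]
    rw [Derivation.leibniz, Derivation.leibniz, h1, h1, flp_pd, if_pos rfl]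
    simp only [mul_zero, zero_add, smul_eq_mul, map_mul, map_pow, MvPolynomial.aeval_X, flp_ev]
    rw [e1, e2, ← hw, ← flp_pow hq (show n ≤ d by omega)]
    ring
  · rw [hP, hQ, map_sum, map_sum, map_sum, map_sum, map_sum, Finset.mul_sum, Finset.mul_sum,
      Finset.mul_sum, Finset.mul_sum, ← Finset.sum_sub_distrib]
    apply Finset.sum_congr rfl
    intro n hn
    rw [Finset.mem_range] at hn
    have h1 : ∀ m : ℕ, MvPolynomial.pderiv i'
        ((MvPolynomial.X i' : MvPolynomial (Fin 2) k) ^ m) =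
          (m : MvPolynomial (Fin 2) k) * MvPolynomial.X i' ^ (m - 1) := by
      intro m
      rw [Derivation.leibniz_pow, MvPolynomial.pderiv_X, Pi.single_eq_same, smul_eq_mul, mul_one,
        nsmul_eq_mul]
    rw [Derivation.leibniz, Derivation.leibniz, h1, h1, flp_pd, if_neg h, smul_zero, add_zero,
      smul_zero, add_zero, smul_eq_mul, smul_eq_mul]
    simp only [map_mul, map_pow, MvPolynomial.aeval_X, flp_ev, map_natCast]
    rw [e1, e2, ← hw]
    have h2 := flp_pow2 hq (show n ≤ d by omega)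
    linear_combination (Polynomial.aeval (q i) (p n)) * h2

end H719FO
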