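import Pool.Agent.H719R3.FO.FLAux

/-!
Task FLZ: the flipped coordinate is not zero.
-/

set_option autoImplicit false

namespace H719FO

open Polynomial

theorem FLZ_proof : St_FLZ := by
  intro k K _ _ _ hK i i' h P Q d c r hr hP hF hc hC q hq hl hq0
  obtain ⟨hd, hQ⟩ := FLAux.flip h hF
  obtain ⟨U0, hU, hU0⟩ := FLAux.ct h hr hc hC
  rw [FLAux.irr h] at hP
  have htr : Transcendental k (q i) := by
    apply hK.tr
    obtain ⟨l, hl⟩ := hl
    have : l = i := by
      by_contra hli
      have : l = i' := by omega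
      rw [this, hq0] at hl
      exact hl ⟨0, map_zero _⟩
    rwa [← this]
  have h0 : (FLAux.phi i' P).coeff 0 = 0 := by
    rw [FLAux.aeval_zero h q hq0 P] at hq
    exact (transcendental_iff.mp htr) _ hq
  obtain ⟨G, hG⟩ := Polynomial.X_dvd_iff.mpr h0
  have hGu : IsUnit G := by
    rcases hP.isUnit_or_isUnit hG with h1 | h1
    · exact absurd h1 Polynomial.not_isUnit_X
    · exact h1
  obtain ⟨u, hu1, hu2⟩ := Polynomial.isUnit_iff.mp hGu
  have hu0 : u ≠ 0 := hu1.ne_zero
  have hP1 : FLAux.phi i' P = C u * X ^ 1 := by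
    rw [hG, ← hu2, pow_one, mul_comm]
  have hd1 : 1 ≤ d := by
    rw [hP1, Polynomial.natDegree_C_mul_X_pow 1 u hu0] at hd
    exact hd
  rw [hP1, reflect_C_mul_X_pow, revAt_le hd1] at hQ
  rw [hQ] at hU
  rcases Nat.lt_or_ge 1 d with h2 | h2
  · rw [mul_coeff_zero, coeff_X_pow, if_neg (by omega), mul_zero] at hU
    have h3 : U0 = 0 := by
      rcases mul_eq_zero.mp hU.symm with h3 | h3
      · exact absurd h3 (X_sub_C_ne_zero _)
      · exact h3
    rw [h3] at hU0
    simp at hU0
  · have hd2 : d = 1 := by omega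
    rw [hd2, Nat.sub_self, pow_zero, mul_one, coeff_C_zero] at hU
    rw [hU] at hu1
    exact Polynomial.not_isUnit_X_sub_C _ (isUnit_of_mul_isUnit_left hu1)

end H719FO
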