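import Pool.Agent.H719R3.FO.Stubs
import Pool.Agent.H450R3.BH.Stubs
import Pool.Agent.H450R3.BH.Stubs2

set_option autoImplicit false

namespace H719FO

open IntermediateField H450BH WithZero
open scoped ComplexConjugate

theorem GER2_proof (hGER : H450BH.St_GER) (hTAN : H450BH.St_TAN) : St_GER2 := by
  intro Ω hΩ P hP hfr n hn hinf
  obtain ⟨L, iF, iA, q, τ, h1, h2, h3, h4, h5, h6, h7⟩ :=
    hGER Ω hΩ P hP hfr (hTAN Ω hΩ P hfr) n hn hinf
  have hφ : Function.Injective (algebraMap L (AlgebraicClosure L)) :=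
    (algebraMap L (AlgebraicClosure L)).injective
  have hcomp : ∀ c : ℂ, algebraMap ℂ (AlgebraicClosure L) c =
      algebraMap L (AlgebraicClosure L) (algebraMap ℂ L c) := fun c =>
    IsScalarTower.algebraMap_apply ℂ L (AlgebraicClosure L) c
  have hrange : ∀ x : L, algebraMap L (AlgebraicClosure L) x ∈
      Set.range (algebraMap ℂ (AlgebraicClosure L)) ↔ x ∈ Set.range (algebraMap ℂ L) := by
    intro x
    constructor
    · rintro ⟨c, hc⟩
      rw [hcomp] at hc
      exact ⟨c, hφ hc⟩
    · rintro ⟨c, rfl⟩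
      exact ⟨c, hcomp c⟩
  have haeval : ∀ (v : Fin 2 → L) (Q : MvPolynomial (Fin 2) ℂ),
      MvPolynomial.aeval (fun i => algebraMap L (AlgebraicClosure L) (v i)) Q =
        algebraMap L (AlgebraicClosure L) (MvPolynomial.aeval v Q) := by
    intro v Q
    induction Q using MvPolynomial.induction_on with
    | C a => simp [hcomp]
    | add p q hp hq => rw [map_add, map_add, hp, hq, map_add]
    | mul_X p i hp => rw [map_mul, map_mul, hp, map_mul, MvPolynomial.aeval_X, MvPolynomial.aeval_X]
  refine ⟨AlgebraicClosure L, inferInstance, inferInstance, inferInstance,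
    fun j i => algebraMap L (AlgebraicClosure L) (q j i), ?_, ?_, ?_, ?_, ?_⟩
  · intro j
    funext i
    change algebraMap L (AlgebraicClosure L) (q (j + n) i) = algebraMap L (AlgebraicClosure L) (q j i)
    rw [h1 j]
  · intro j
    rw [haeval, h2 j, map_zero]
  · intro j i h
    exact h3 j i (hφ h)
  · intro j hj
    obtain ⟨i, hi⟩ := hj
    rw [hrange] at hi
    obtain ⟨h8, h9⟩ := h6 j ⟨i, hi⟩
    rw [haeval, haeval]
    suffices hs : MvPolynomial.aeval (q j) (MvPolynomial.pderiv 1 P) ^ 2 *
        ((q j 1 - q (j - 1) 1) * (q (j + 1) 1 - q j 1)) =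
      MvPolynomial.aeval (q j) (MvPolynomial.pderiv 0 P) ^ 2 *
        ((q j 0 - q (j - 1) 0) * (q (j + 1) 0 - q j 0)) by
      have := congrArg (algebraMap L (AlgebraicClosure L)) hs
      rw [RingHom.map_mul, RingHom.map_mul, RingHom.map_mul, RingHom.map_mul, RingHom.map_pow,
        RingHom.map_pow, RingHom.map_sub, RingHom.map_sub, RingHom.map_sub, RingHom.map_sub] at this
      exact this
    have d1 : q j 0 - q (j - 1) 0 ≠ 0 := by
      have := h3 (j - 1) 0
      rw [sub_add_cancel] at this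
      exact sub_ne_zero.2 this
    have d2 : q (j + 1) 0 - q j 0 ≠ 0 := sub_ne_zero.2 (h3 j 0)
    have h10 := h4 j
    rw [div_mul_div_comm, div_eq_iff (mul_ne_zero d1 d2)] at h10
    have h11 : MvPolynomial.aeval (q j) (MvPolynomial.pderiv 0 P) =
      - (τ j * MvPolynomial.aeval (q j) (MvPolynomial.pderiv 1 P)) := by
      exact eq_neg_of_add_eq_zero_left h9
    rw [h10, h11]
    ring
  · obtain ⟨j, i, hi⟩ := h7
    exact ⟨j, i, fun h => hi ((hrange _).1 h)⟩

end H719FO
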