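import Pool.Agent.H719R3.FO.Stubs

/-! Task LOC: the inequality at one place. -/

set_option autoImplicit false

namespace H719FO

lemma LOC_sw_sw (u : VD) : u.sw.sw = u := by
  cases u with
  | mk a b ty r μ =>
    simp only [VD.sw, VD.mk.injEq, true_and, and_true]
    by_cases h1 : ty = 1
    · simp [h1]
    · by_cases h2 : ty = 2
      · simp [h2]
      · simp [h1, h2]

lemma LOC_same_symm {u v : VD} {x y : ℤ} (h : Same1 u v x y) : Same1 v u x y := by
  obtain ⟨h1, h2, h3, h4, h5, h6, h7⟩ := h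
  have e : y + v.b + u.b = y + u.b + v.b := by ring
  refine ⟨h1.symm, h2.symm, ?_, ?_, ?_, ?_, ?_⟩
  · rw [min_comm, e]; exact h3
  · intro h; rw [min_comm, e]; exact h4 (Ne.symm h)
  · rw [min_comm, e, ← h1]; exact h5
  · intro h; rw [min_comm, e, ← h1]; exact h6 (Ne.symm h)
  · intro h; rw [min_comm, e, ← h1] at h; rw [min_comm, e, ← h1]; exact h7 h

lemma LOC_edge_symm {u v : VD} {x y : ℤ} (h : Edge1 u v x y) : Edge1 v u x y := by
  obtain ⟨h1, h2, h3⟩ := h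
  refine ⟨by rw [max_comm]; exact h1, fun h => by rw [max_comm]; exact h2 (Ne.symm h), ?_⟩
  intro a b
  rcases h3 b a with h | h
  · exact Or.inl h
  · exact Or.inr (LOC_same_symm h)

/-- the two shares of a vertex in a slot of the first kind -/
lemma LOC_vertex1 (hX : St_LOCX) (hI : St_LOCI) (u v v' : VD) (x y x' y' : ℤ)
    (ua : 0 ≤ u.a) (ub : 0 ≤ u.b) (va : 0 ≤ v.a) (vb : 0 ≤ v.b) (va' : 0 ≤ v'.a) (vb' : 0 ≤ v'.b)
    (uo : u.ok1) (vo : v.ok1) (vs : v.sw.ok1) (vo' : v'.ok1) (vs' : v'.sw.ok1)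
    (e1 : Edge1 u v x y) (e2 : Edge1 u.sw v.sw y x)
    (e1' : Edge1 u v' x' y') (e2' : Edge1 u.sw v'.sw y' x')
    (hty : u.ty = 1)
    (law : (x' - y') + (x - y) =
      if u.b = 0 then 2 * ((u.r - 1) * u.μ) else 2 * ((u.r + 1) * u.μ)) :
    (if u.b = 0 then 2 * (u.r * u.μ) else (2 * u.r - 5) * u.μ) ≤
      sh1 u v x y + sh1 u v' x' y' := by
  obtain ⟨hμ, hr1, ha, hb⟩ := uo hty
  by_cases hb0 : u.b = 0
  · rw [if_pos hb0] at law ⊢
    have hr2 : 2 ≤ u.r := by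
      rcases hb with h | h
      · exact h.2
      · omega
    have A := hX u v x y ua ub va vb uo vo vs e1 e2 hty hb0
    have B := hX u v' x' y' ua ub va' vb' uo vo' vs' e1' e2' hty hb0
    have hrm : 0 ≤ (u.r - 2) * u.μ := mul_nonneg (by omega) hμ.le
    set m1 := (u.r - 1) * u.μ with hm1
    have f1 : u.r * u.μ = m1 + u.μ := by rw [hm1]; ring
    have f2 : (u.r + 1) * u.μ = m1 + 2 * u.μ := by rw [hm1]; ring
    have f3 : (u.r - 2) * u.μ = m1 - u.μ := by rw [hm1]; ring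
    rw [f3] at hrm
    rw [f1]
    simp only [f2] at A B
    obtain ⟨A1, A2⟩ := A
    obtain ⟨B1, B2⟩ := B
    rcases lt_trichotomy ((x - y) - m1) 0 with h | h | h
    · obtain ⟨a1, a2⟩ := A2 h
      rcases B1 (by omega) with b | b <;> omega
    · rcases A1 (by omega) with a | a <;> rcases B1 (by omega) with b | b <;> omega
    · obtain ⟨a1, a2⟩ := B2 (by omega)
      rcases A1 (by omega) with b | b <;> omega
  · rw [if_neg hb0] at law ⊢
    obtain ⟨A1, A2⟩ := hI u v x y ua ub va vb uo vo vs e1 e2 hty hb0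
    obtain ⟨B1, B2⟩ := hI u v' x' y' ua ub va' vb' uo vo' vs' e1' e2' hty hb0
    set m1 := (u.r + 1) * u.μ with hm1
    have f1 : (2 * u.r - 5) * u.μ = 2 * m1 - 7 * u.μ := by rw [hm1]; ring
    have f2 : (u.r - 1) * u.μ = m1 - 2 * u.μ := by rw [hm1]; ring
    have f3 : (u.r - 4) * u.μ = m1 - 5 * u.μ := by rw [hm1]; ring
    rw [f1]
    rw [f2] at A1 B1
    rw [f3] at A2 B2
    rcases lt_trichotomy ((x - y) - m1) 0 with h | h | h
    · have a := A2 h
      have b := B1 (by omega)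
      omega
    · have a := A1 (by omega)
      have b := B1 (by omega)
      omega
    · have a := A1 (by omega)
      have b := B2 (by omega)
      omega

/-- the two shares of a vertex -/
lemma LOC_vertex (hX : St_LOCX) (hI : St_LOCI) (u v v' : VD) (x y x' y' : ℤ)
    (ua : 0 ≤ u.a) (ub : 0 ≤ u.b) (va : 0 ≤ v.a) (vb : 0 ≤ v.b) (va' : 0 ≤ v'.a) (vb' : 0 ≤ v'.b)
    (uo : u.ok1) (us : u.sw.ok1) (vo : v.ok1) (vs : v.sw.ok1) (vo' : v'.ok1) (vs' : v'.sw.ok1)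
    (e1 : Edge1 u v x y) (e2 : Edge1 u.sw v.sw y x)
    (e1' : Edge1 u v' x' y') (e2' : Edge1 u.sw v'.sw y' x')
    (law1 : u.ty = 1 → (x' - y') + (x - y) =
      if u.b = 0 then 2 * ((u.r - 1) * u.μ) else 2 * ((u.r + 1) * u.μ))
    (law2 : u.ty = 2 → (y' - x') + (y - x) =
      if u.a = 0 then 2 * ((u.r - 1) * u.μ) else 2 * ((u.r + 1) * u.μ)) :
    u.v2 ≤ sh u v x y + sh u v' x' y' := by
  by_cases h1 : u.ty = 1
  · have h := LOC_vertex1 hX hI u v v' x y x' y' ua ub va vb va' vb' uo vo vs vo' vs' e1 e2 e1' e2'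
      h1 (law1 h1)
    unfold VD.v2 sh
    rw [if_pos h1, if_pos h1, if_pos h1]
    exact h
  · by_cases h2 : u.ty = 2
    · have hty : u.sw.ty = 1 := by
        simp [VD.sw, h2]
      have h := LOC_vertex1 hX hI u.sw v.sw v'.sw y x y' x' ub ua vb va vb' va' us vs
        (by rw [LOC_sw_sw]; exact vo) vs' (by rw [LOC_sw_sw]; exact vo')
        e2 (by rw [LOC_sw_sw, LOC_sw_sw]; exact e1) e2' (by rw [LOC_sw_sw, LOC_sw_sw]; exact e1')
        hty (law2 h2)
      unfold VD.v2 sh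
      rw [if_neg h1, if_pos h2, if_neg h1, if_pos h2, if_neg h1, if_pos h2]
      exact h
    · unfold VD.v2 sh
      rw [if_neg h1, if_neg h2, if_neg h1, if_neg h2, if_neg h1, if_neg h2]
      omega

lemma LOC_cyc (n : ℕ) (hn : 0 < n) (f : ℤ → ℤ) (hf : ∀ j, f (j + n) = f j) :
    ∑ j ∈ Finset.range n, f ((j : ℤ) - 1) = ∑ j ∈ Finset.range n, f (j : ℤ) := by
  obtain ⟨m, rfl⟩ : ∃ m, n = m + 1 := ⟨n - 1, by omega⟩
  rw [Finset.sum_range_succ', Finset.sum_range_succ]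
  congr 1
  · refine Finset.sum_congr rfl fun j _ => ?_
    congr 1
    push_cast
    ring
  · rw [← hf]
    congr 1
    push_cast
    ring

theorem LOC_proof (hE : St_LOCE) (hX : St_LOCX) (hI : St_LOCI) : St_LOC := by
  intro n hn u x y pu px py hok hed law1 law2
  have hedr : ∀ j, Edge1 (u (j + 1)) (u j) (x j) (y j) ∧
      Edge1 (u (j + 1)).sw (u j).sw (y j) (x j) := fun j =>
    ⟨LOC_edge_symm (hed j).1, LOC_edge_symm (hed j).2⟩
  have hE' : ∀ j, sh (u j) (u (j + 1)) (x j) (y j) + sh (u (j + 1)) (u j) (x j) (y j) ≤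
      2 * (x j + y j) := fun j => hE (u j) (u (j + 1)) (x j) (y j) (hok j).1 (hok j).2.1
      (hok (j + 1)).1 (hok (j + 1)).2.1 (hok j).2.2.1 (hok j).2.2.2 (hok (j + 1)).2.2.1
      (hok (j + 1)).2.2.2 (hed j).1 (hed j).2
  have hV : ∀ j : ℤ, (u j).v2 ≤ sh (u j) (u (j + 1)) (x j) (y j) +
      sh (u (j - 1 + 1)) (u (j - 1)) (x (j - 1)) (y (j - 1)) := by
    intro j
    have hj := hedr (j - 1)
    rw [sub_add_cancel] at hj ⊢
    exact LOC_vertex hX hI (u j) (u (j + 1)) (u (j - 1)) (x j) (y j) (x (j - 1)) (y (j - 1))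
      (hok j).1 (hok j).2.1 (hok (j + 1)).1 (hok (j + 1)).2.1 (hok (j - 1)).1 (hok (j - 1)).2.1
      (hok j).2.2.1 (hok j).2.2.2 (hok (j + 1)).2.2.1 (hok (j + 1)).2.2.2
      (hok (j - 1)).2.2.1 (hok (j - 1)).2.2.2 (hed j).1 (hed j).2 hj.1 hj.2
      (law1 j) (law2 j)
  set R : ℤ → ℤ := fun j => sh (u (j + 1)) (u j) (x j) (y j) with hR
  have hRp : ∀ j, R (j + n) = R j := by
    intro j
    simp only [hR]
    rw [px, py, pu, show j + (n : ℤ) + 1 = (j + 1) + n by ring, pu]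
  have hc := LOC_cyc n hn R hRp
  calc ∑ j ∈ Finset.range n, (u (j : ℤ)).v2
      ≤ ∑ j ∈ Finset.range n, (sh (u (j : ℤ)) (u ((j : ℤ) + 1)) (x j) (y j) + R ((j : ℤ) - 1)) :=
        Finset.sum_le_sum fun j _ => hV (j : ℤ)
    _ = ∑ j ∈ Finset.range n, (sh (u (j : ℤ)) (u ((j : ℤ) + 1)) (x j) (y j) + R (j : ℤ)) := by
        rw [Finset.sum_add_distrib, Finset.sum_add_distrib, hc]
    _ ≤ _ := Finset.sum_le_sum fun j _ => hE' (j : ℤ)

end H719FO
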