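import Pool.Agent.H719R3.FO.Stubs

set_option autoImplicit false

namespace H719FO

/-- the case of two slots of the first kind -/
theorem LOCE_11 (ua ub : ℤ) (ur um : ℤ) (va vb : ℤ) (vr vm : ℤ) (x y : ℤ)
    (hu : 0 < um ∧ 1 ≤ ur ∧ ua = 0 ∧ ((ub = 0 ∧ 2 ≤ ur) ∨ ub = um))
    (hv : 0 < vm ∧ 1 ≤ vr ∧ va = 0 ∧ ((vb = 0 ∧ 2 ≤ vr) ∨ vb = vm))
    (h1 : Edge1 ⟨ua, ub, 1, ur, um⟩ ⟨va, vb, 1, vr, vm⟩ x y)
    (h2 : -max ub vb ≤ y ∧ (ub ≠ vb → y = -max ub vb)) :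
    sh1 ⟨ua, ub, 1, ur, um⟩ ⟨va, vb, 1, vr, vm⟩ x y +
      sh1 ⟨va, vb, 1, vr, vm⟩ ⟨ua, ub, 1, ur, um⟩ x y ≤ 2 * (x + y) := by
  obtain ⟨hx1, hx2, h3⟩ := h1
  simp only [forall_const] at h3
  obtain ⟨hum, hur, hua, hub⟩ := hu
  obtain ⟨hvm, hvr, hva, hvb⟩ := hv
  simp only at hx1 hx2
  have key : ∀ r m m' : ℤ, 1 ≤ r → 0 < m → m < m' → 0 ≤ (r - 1) * m ∧ (r - 1) * m ≤ (r - 1) * m' := by
    intro r m m' h1 h2 h3
    constructor
    · exact mul_nonneg (by omega) (by omega)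
    · exact mul_le_mul_of_nonneg_left h3.le (by omega)
  have key2 : ∀ r m : ℤ, 1 ≤ r → 0 < m → 0 ≤ (r - 1) * m := by
    intro r m h1 h2
    exact mul_nonneg (by omega) (by omega)
  obtain ⟨mx, hmx, hmx1, hmx2, hmx3⟩ : ∃ mx, mx = max 0 (x - y) ∧ 0 ≤ mx ∧ x - y ≤ mx ∧
      (mx = 0 ∨ mx = x - y) := ⟨_, rfl, le_max_left _ _, le_max_right _ _, by
        rcases le_total 0 (x - y) with h | h
        · right; exact max_eq_right h
        · left; exact max_eq_left h⟩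
  rcases h3 with h3 | h3
  · simp only [sh1, ← hmx, true_and, if_true]
    rcases lt_trichotomy um vm with h | h | h
    · have e1 := key ur um vm hur hum h
      split_ifs <;> omega
    · subst h
      split_ifs <;> omega
    · have e1 := key vr vm um hvr hvm h
      split_ifs <;> omega
  · simp only [Same1, sh1, ← hmx, true_and, if_true] at h3 ⊢
    obtain ⟨hr, hb, s1, s2, s3, s4, s5⟩ := h3
    subst hr
    rcases lt_trichotomy um vm with h | h | h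
    · have e1 := key ur um vm hur hum h
      rw [min_eq_left h.le] at s1 s2 s3 s4 s5
      generalize (ur - 1) * um = P at *
      generalize (ur - 1) * vm = Q at *
      split_ifs <;> omega
    · subst h
      rw [min_self] at s1 s2 s3 s4 s5
      have e1 := key2 ur um hur hum
      generalize (ur - 1) * um = P at *
      split_ifs <;> omega
    · have e1 := key ur vm um hur hvm h
      rw [min_eq_right h.le] at s1 s2 s3 s4 s5
      generalize (ur - 1) * um = P at *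
      generalize (ur - 1) * vm = Q at *
      split_ifs <;> omega

/-- first kind and second kind -/
theorem LOCE_12 (ua ub : ℤ) (ur um : ℤ) (va vb : ℤ) (vr vm : ℤ) (x y : ℤ)
    (hu : 0 < um ∧ 1 ≤ ur ∧ ua = 0 ∧ ((ub = 0 ∧ 2 ≤ ur) ∨ ub = um))
    (hv : 0 < vm ∧ 1 ≤ vr ∧ vb = 0 ∧ ((va = 0 ∧ 2 ≤ vr) ∨ va = vm))
    (h1 : -max ua va ≤ x ∧ (ua ≠ va → x = -max ua va))
    (h2 : -max ub vb ≤ y ∧ (ub ≠ vb → y = -max ub vb)) :
    sh1 ⟨ua, ub, 1, ur, um⟩ ⟨va, vb, 2, vr, vm⟩ x y +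
      sh1 ⟨vb, va, 1, vr, vm⟩ ⟨ub, ua, 2, ur, um⟩ y x ≤ 2 * (x + y) := by
  obtain ⟨mx, hmx, hmx1, hmx2, hmx3⟩ : ∃ mx, mx = max 0 (x - y) ∧ 0 ≤ mx ∧ x - y ≤ mx ∧
      (mx = 0 ∨ mx = x - y) := ⟨_, rfl, le_max_left _ _, le_max_right _ _, by
        rcases le_total 0 (x - y) with h | h
        · right; exact max_eq_right h
        · left; exact max_eq_left h⟩
  obtain ⟨my, hmy, hmy1, hmy2, hmy3⟩ : ∃ my, my = max 0 (y - x) ∧ 0 ≤ my ∧ y - x ≤ my ∧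
      (my = 0 ∨ my = y - x) := ⟨_, rfl, le_max_left _ _, le_max_right _ _, by
        rcases le_total 0 (y - x) with h | h
        · right; exact max_eq_right h
        · left; exact max_eq_left h⟩
  obtain ⟨hx1, hx2⟩ := h1
  obtain ⟨hy1, hy2⟩ := h2
  simp only [sh1, ← hmx, ← hmy, if_true, show ¬ ((2:ℕ) = 1) by norm_num, false_and, if_false]
  split_ifs <;> omega

/-- first kind and no slot -/
theorem LOCE_1o (ua ub : ℤ) (ur um : ℤ) (va vb : ℤ) (vt : ℕ) (vr vm : ℤ) (x y : ℤ)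
    (hva : 0 ≤ va) (hvb : 0 ≤ vb) (ht1 : vt ≠ 1) (ht2 : vt ≠ 2)
    (hu : 0 < um ∧ 1 ≤ ur ∧ ua = 0 ∧ ((ub = 0 ∧ 2 ≤ ur) ∨ ub = um))
    (h1 : -max ua va ≤ x ∧ (ua ≠ va → x = -max ua va))
    (h2 : -max ub vb ≤ y ∧ (ub ≠ vb → y = -max ub vb)) :
    sh1 ⟨ua, ub, 1, ur, um⟩ ⟨va, vb, vt, vr, vm⟩ x y + -4 * max va vb ≤ 2 * (x + y) := by
  obtain ⟨mx, hmx, hmx1, hmx2, hmx3⟩ : ∃ mx, mx = max 0 (x - y) ∧ 0 ≤ mx ∧ x - y ≤ mx ∧
      (mx = 0 ∨ mx = x - y) := ⟨_, rfl, le_max_left _ _, le_max_right _ _, by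
        rcases le_total 0 (x - y) with h | h
        · right; exact max_eq_right h
        · left; exact max_eq_left h⟩
  obtain ⟨hx1, hx2⟩ := h1
  obtain ⟨hy1, hy2⟩ := h2
  simp only [sh1, ← hmx, ht1, ht2, false_and, if_false]
  split_ifs <;> omega

theorem LOCE_oo (ua ub va vb x y : ℤ) (hua : 0 ≤ ua) (hub : 0 ≤ ub) (hva : 0 ≤ va) (hvb : 0 ≤ vb)
    (h1 : -max ua va ≤ x ∧ (ua ≠ va → x = -max ua va))
    (h2 : -max ub vb ≤ y ∧ (ub ≠ vb → y = -max ub vb)) :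
    -4 * max ua ub + -4 * max va vb ≤ 2 * (x + y) := by
  omega

theorem LOCE_same (u v : VD) (x y : ℤ) (h : Same1 u v x y) : Same1 v u x y := by
  unfold Same1 at *
  obtain ⟨hr, hb, s1, s2, s3, s4, s5⟩ := h
  rw [min_comm v.μ u.μ, ← hr]
  refine ⟨rfl, hb.symm, by omega, ?_, ?_, ?_, ?_⟩
  · intro h; rw [← s2 (Ne.symm h)]; ring
  · have : x - (y + v.b + u.b) = x - (y + u.b + v.b) := by ring
    rw [this]; exact s3
  · intro h
    have : x - (y + v.b + u.b) = x - (y + u.b + v.b) := by ring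
    rw [this]; exact s4 (Ne.symm h)
  · intro h
    have e1 : x - (y + v.b + u.b) = x - (y + u.b + v.b) := by ring
    rw [e1] at h
    have := s5 h
    refine ⟨by omega, this.2⟩

theorem LOCE_edge (u v : VD) (x y : ℤ) (h : Edge1 u v x y) : Edge1 v u x y := by
  unfold Edge1 at *
  obtain ⟨h1, h2, h3⟩ := h
  rw [max_comm v.a u.a]
  refine ⟨h1, fun h => h2 (Ne.symm h), fun h4 h5 => ?_⟩
  rcases h3 h5 h4 with h | h
  · exact Or.inl h
  · exact Or.inr (LOCE_same u v x y h)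

theorem LOCE_proof : St_LOCE := by
  intro u v x y hua hub hva hvb ok1 ok2 ok3 ok4 e1 e2
  rcases u with ⟨ua, ub, ut, ur, um⟩
  rcases v with ⟨va, vb, vt, vr, vm⟩
  have e1' := LOCE_edge _ _ _ _ e1
  have e2' := LOCE_edge _ _ _ _ e2
  have htu : ut = 1 ∨ ut = 2 ∨ (ut ≠ 1 ∧ ut ≠ 2) := by omega
  have htv : vt = 1 ∨ vt = 2 ∨ (vt ≠ 1 ∧ vt ≠ 2) := by omega
  have f1 : -max ua va ≤ x ∧ (ua ≠ va → x = -max ua va) := ⟨e1.1, e1.2.1⟩
  have f2 : -max ub vb ≤ y ∧ (ub ≠ vb → y = -max ub vb) := ⟨e2.1, e2.2.1⟩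
  have g1 : -max va ua ≤ x ∧ (va ≠ ua → x = -max va ua) := ⟨e1'.1, e1'.2.1⟩
  have g2 : -max vb ub ≤ y ∧ (vb ≠ ub → y = -max vb ub) := ⟨e2'.1, e2'.2.1⟩
  simp only at hua hub hva hvb
  rcases htu with rfl | rfl | ⟨hu1, hu2⟩
  · rcases htv with rfl | rfl | ⟨hv1, hv2⟩
    · exact LOCE_11 ua ub ur um va vb vr vm x y (ok1 rfl) (ok3 rfl) e1 f2
    · exact LOCE_12 ua ub ur um va vb vr vm x y (ok1 rfl) (ok4 rfl) f1 f2
    · have h := LOCE_1o ua ub ur um va vb vt vr vm x y hva hvb hv1 hv2 (ok1 rfl) f1 f2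
      simp only [sh, hv1, hv2, if_true, if_false]
      exact h
  · rcases htv with rfl | rfl | ⟨hv1, hv2⟩
    · have h := LOCE_12 va vb vr vm ua ub ur um x y (ok3 rfl) (ok2 rfl) g1 g2
      have h' : sh1 ⟨ub, ua, 1, ur, um⟩ ⟨vb, va, 2, vr, vm⟩ y x +
        sh1 ⟨va, vb, 1, vr, vm⟩ ⟨ua, ub, 2, ur, um⟩ x y ≤ 2 * (x + y) := by linarith
      exact h'
    · have h := LOCE_11 ub ua ur um vb va vr vm y x (ok2 rfl) (ok4 rfl) e2 f1
      have h' : sh1 ⟨ub, ua, 1, ur, um⟩ ⟨vb, va, 1, vr, vm⟩ y x +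
        sh1 ⟨vb, va, 1, vr, vm⟩ ⟨ub, ua, 1, ur, um⟩ y x ≤ 2 * (x + y) := by linarith
      exact h'
    · have h := LOCE_1o ub ua ur um vb va vt vr vm y x hvb hva hv1 hv2 (ok2 rfl) f2 f1
      simp only [sh, VD.sw, hv1, hv2, if_true, if_false, show ¬ ((2:ℕ) = 1) by norm_num]
      rw [max_comm va vb]
      linarith
  · rcases htv with rfl | rfl | ⟨hv1, hv2⟩
    · have h := LOCE_1o va vb vr vm ua ub ut ur um x y hua hub hu1 hu2 (ok3 rfl) g1 g2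
      simp only [sh, hu1, hu2, if_true, if_false]
      linarith
    · have h := LOCE_1o vb va vr vm ub ua ut ur um y x hub hua hu1 hu2 (ok4 rfl) g2 g1
      simp only [sh, VD.sw, hu1, hu2, if_true, if_false, show ¬ ((2:ℕ) = 1) by norm_num]
      rw [max_comm ua ub]
      linarith
    · have h := LOCE_oo ua ub va vb x y hua hub hva hvb f1 f2
      simp only [sh, hu1, hu2, hv1, hv2, if_false]
      exact h

end H719FO
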