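import Pool.Agent.H719R3.FO.Stubs

set_option autoImplicit false

/-! The share of an infinite slot. -/

namespace H719FO

theorem LOCI_proof : St_LOCI := by
  intro u v x y hua hub hva hvb hu hv hvs he1 he2 hty hb
  obtain ⟨hmu, hr1, ha, hr⟩ := hu hty
  have hbm : u.b = u.μ := by
    rcases hr with h | h
    · exact absurd h.1 hb
    · exact h
  obtain ⟨e1, e2, e3⟩ := he1
  obtain ⟨f1, f2, -⟩ := he2
  simp only [VD.sw] at f1 f2
  rw [ha] at e1 e2
  have E1 : (u.r + 1) * u.μ = u.r * u.μ + u.μ := by ring
  have E2 : (u.r - 1) * u.μ = u.r * u.μ - u.μ := by ring
  have E3 : (u.r - 4) * u.μ = u.r * u.μ - 4 * u.μ := by ring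
  have hrN : u.μ ≤ u.r * u.μ := by nlinarith
  unfold sh1
  rw [if_neg hb, E1, E2, E3]
  by_cases hv1 : v.ty = 1
  · rw [if_pos hv1]
    obtain ⟨hvmu, hvr1, hva', hvr⟩ := hv hv1
    by_cases hx : x ≠ 0
    · rw [if_pos hx]
      rcases e3 hty hv1 with h0 | S
      · exact absurd h0 hx
      obtain ⟨s1, s2, s3, s4, s5, s6, s7⟩ := S
      have hvb0 : v.b ≠ 0 := fun h => hb (s2.2 h)
      have hvbm : v.b = v.μ := by
        rcases hvr with h | h
        · exact absurd h.1 hvb0
        · exact h
      by_cases hmm : u.μ = v.μ
      · rw [if_pos hmm]
        rw [← hmm, min_self, E2] at s5 s7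
        rw [← hmm, min_self] at s3
        rcases eq_or_lt_of_le s5 with h5 | h5
        · constructor
          · intro ht; omega
          · intro ht; omega
        · have := s7 h5
          constructor
          · intro ht; omega
          · intro ht; omega
      · rw [if_neg hmm]
        have s4' := s4 hmm
        have s6' := s6 hmm
        by_cases hlt : u.μ < v.μ
        · rw [if_pos hlt]
          rw [min_eq_left hlt.le] at s4' s6'
          rw [E2] at s6'
          constructor
          · intro ht; omega
          · intro ht; omega
        · rw [if_neg hlt]
          have hlt' : v.μ < u.μ := by omega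
          rw [min_eq_right hlt'.le] at s4' s6'
          have E4 : (u.r - 1) * v.μ = u.r * v.μ - v.μ := by ring
          rw [E4] at s6' ⊢
          have h9 : (u.μ - v.μ) ≤ u.r * (u.μ - v.μ) := by nlinarith
          have h8 : u.r * (u.μ - v.μ) = u.r * u.μ - u.r * v.μ := by ring
          constructor
          · intro ht; omega
          · intro ht; omega
    · rw [if_neg hx]
      have hx0 : x = 0 := by omega
      by_cases hvb0 : v.b = 0
      · rw [if_pos hvb0]
        have := f2 (by omega)
        constructor
        · intro ht; omega
        · intro ht; omega
      · rw [if_neg hvb0]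
        have hvbm : v.b = v.μ := by
          rcases hvr with h | h
          · exact absurd h.1 hvb0
          · exact h
        by_cases h1 : u.μ < v.μ
        · rw [if_pos h1]
          have := f2 (by omega)
          constructor
          · intro ht; omega
          · intro ht; omega
        · rw [if_neg h1]
          by_cases h2 : v.μ < u.μ
          · rw [if_pos h2]
            have := f2 (by omega)
            constructor
            · intro ht; omega
            · intro ht; omega
          · rw [if_neg h2]
            constructor
            · intro ht; omega
            · intro ht; omega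
  · rw [if_neg hv1]
    by_cases hv2 : v.ty = 2
    · rw [if_pos hv2]
      have hsw : v.sw.ty = 1 := by simp [VD.sw, hv2]
      obtain ⟨hvmu, hvr1, hva', hvr⟩ := hvs hsw
      simp only [VD.sw] at hvmu hvr1 hva' hvr
      by_cases hva0 : v.a = 0
      · rw [if_pos hva0]
        have := f2 (by omega)
        constructor
        · intro ht; omega
        · intro ht; omega
      · rw [if_neg hva0]
        have h1 := f2 (by omega)
        have h2 := e2 (by omega)
        constructor
        · intro ht; omega
        · intro ht; omega
    · rw [if_neg hv2]
      constructor
      · intro ht; omega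
      · intro ht; omega

end H719FO
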