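import Pool.Agent.H719R3.FO.Stubs

set_option autoImplicit false

/-! The share of a finite slot. -/

namespace H719FO

theorem LOCX_proof : St_LOCX := by
  intro u v x y hua hub hva hvb hu hv hvs he1 he2 hty hb
  obtain ⟨hmu, hr1, ha, hr⟩ := hu hty
  have hr2 : 2 ≤ u.r := by
    rcases hr with h | h
    · exact h.2
    · omega
  have hA : u.μ ≤ (u.r - 1) * u.μ := by nlinarith
  unfold sh1
  rw [if_pos hb]
  by_cases hc : v.ty = 1 ∧ x ≠ 0
  · rw [if_pos hc]
    obtain ⟨hvmu, hvr1, hva', hvr⟩ := hv hc.1
    obtain ⟨-, -, h3⟩ := he1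
    rcases h3 hty hc.1 with h0 | S
    · exact absurd h0 hc.2
    obtain ⟨s1, s2, s3, s4, s5, s6, s7⟩ := S
    have hvb0 : v.b = 0 := s2.1 hb
    have e1 : (u.r + 1) * u.μ = (u.r - 1) * u.μ + 2 * u.μ := by ring
    rw [e1]
    rcases le_or_gt u.μ v.μ with h | h
    · rw [min_eq_left h] at s3 s4 s5 s6 s7
      constructor
      · intro ht
        left
        rcases eq_or_lt_of_le s5 with h5 | h5
        · omega
        · have := s7 h5
          omega
      · intro ht
        omega
    · rw [min_eq_right h.le] at s3 s4 s5 s6 s7
      have s4' := s4 (by omega)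
      have s6' := s6 (by omega)
      have h8 : (u.r - 1) * u.μ - (u.r - 1) * v.μ = (u.r - 1) * (u.μ - v.μ) := by ring
      have h9 : (u.μ - v.μ) ≤ (u.r - 1) * (u.μ - v.μ) := by nlinarith
      constructor
      · intro ht
        omega
      · intro ht
        constructor <;> omega
  · rw [if_neg hc]
    rcases le_total 0 (x - y) with h | h
    · rw [max_eq_right h]
      constructor
      · intro ht; right; omega
      · intro ht; constructor <;> omega
    · rw [max_eq_left h]
      constructor
      · intro ht; right; omega
      · intro ht; constructor <;> omega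

end H719FO
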