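import Pool.Agent.H719R3.FO.Stubs

set_option autoImplicit false

namespace H719FO

open IntermediateField H450BH WithZero
open scoped ComplexConjugate

section
variable {k K : Type} [Field k] [Field K] [Algebra k K]

/-- the maximal pole order -/
noncomputable def NOR_N (q : Fin 2 → K) (w : Valuation K ℤᵐ⁰) : ℤ :=
  max (max 0 (-od w (q 0))) (max 0 (-od w (q 1)))

theorem NOR_nonneg (q : Fin 2 → K) (w : Valuation K ℤᵐ⁰) : 0 ≤ NOR_N q w :=
  le_max_of_le_left (le_max_left _ _)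

theorem NOR_le0 (q : Fin 2 → K) (w : Valuation K ℤᵐ⁰) : w (q 0) ≤ WithZero.exp (NOR_N q w) := by
  by_cases h : q 0 = 0
  · rw [h, map_zero]; exact zero_le
  · rw [w_eq w h, WithZero.exp_le_exp]
    exact le_max_of_le_left (le_max_right _ _)

theorem NOR_le1 (q : Fin 2 → K) (w : Valuation K ℤᵐ⁰) : w (q 1) ≤ WithZero.exp (NOR_N q w) := by
  by_cases h : q 1 = 0
  · rw [h, map_zero]; exact zero_le
  · rw [w_eq w h, WithZero.exp_le_exp]
    exact le_max_of_le_right (le_max_right _ _)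

theorem NOR_alg (w : Valuation K ℤᵐ⁰) (hw : Pl k K w) (l : k) : w (algebraMap k K l) ≤ 1 := by
  by_cases h : l = 0
  · rw [h, map_zero, map_zero]; exact zero_le
  · exact (hw.triv l h).le

theorem NOR_le (q : Fin 2 → K) (w : Valuation K ℤᵐ⁰) (hw : Pl k K w) (l : k) :
    w (q 1 - algebraMap k K l * q 0) ≤ WithZero.exp (NOR_N q w) := by
  refine (w.map_sub _ _).trans (max_le (NOR_le1 q w) ?_)
  rw [map_mul]
  calc w (algebraMap k K l) * w (q 0) ≤ 1 * w (q 0) := mul_le_mul_left (NOR_alg w hw l) _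
    _ = w (q 0) := one_mul _
    _ ≤ _ := NOR_le0 q w

theorem NOR_not (q : Fin 2 → K) (w : Valuation K ℤᵐ⁰) (hN : 0 < NOR_N q w)
    (h0 : w (q 0) < WithZero.exp (NOR_N q w)) (h1 : w (q 1) < WithZero.exp (NOR_N q w)) : False := by
  have key : ∀ i, -od w (q i) = NOR_N q w → 0 < NOR_N q w → w (q i) = WithZero.exp (NOR_N q w) := by
    intro i hi hp
    have hne : q i ≠ 0 := by
      intro h0
      rw [h0, od_zero] at hi
      omega
    rw [w_eq w hne, hi]
  have hc : NOR_N q w = -od w (q 0) ∨ NOR_N q w = -od w (q 1) := by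
    have hN' := hN
    unfold NOR_N at hN' ⊢
    omega
  rcases hc with h | h
  · exact h0.ne (key 0 h.symm hN)
  · exact h1.ne (key 1 h.symm hN)

theorem NOR_sub (q : Fin 2 → K) (w : Valuation K ℤᵐ⁰) (hw : Pl k K w) (hN : 0 < NOR_N q w) :
    {l : k | w (q 1 - algebraMap k K l * q 0) < WithZero.exp (NOR_N q w)}.Subsingleton := by
  intro l hl l' hl'
  simp only [Set.mem_ofPred_eq] at hl hl'
  by_contra hne
  have h1 : w ((algebraMap k K (l - l')) * q 0) < WithZero.exp (NOR_N q w) := by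
    have e : (algebraMap k K (l - l')) * q 0 =
        (q 1 - algebraMap k K l' * q 0) - (q 1 - algebraMap k K l * q 0) := by
      rw [map_sub]; ring
    rw [e]
    exact lt_of_le_of_lt (w.map_sub _ _) (max_lt hl' hl)
  have h2 : w (q 0) < WithZero.exp (NOR_N q w) := by
    rwa [map_mul, hw.triv _ (sub_ne_zero.mpr hne), one_mul] at h1
  have h3 : w (q 1) < WithZero.exp (NOR_N q w) := by
    have e : q 1 = (q 1 - algebraMap k K l * q 0) + algebraMap k K l * q 0 := by ring
    rw [e]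
    refine lt_of_le_of_lt (w.map_add _ _) (max_lt hl ?_)
    rw [map_mul]
    calc w (algebraMap k K l) * w (q 0) ≤ 1 * w (q 0) := mul_le_mul_left (NOR_alg w hw l) _
      _ = w (q 0) := one_mul _
      _ < _ := h2
  exact NOR_not q w hN h2 h3

theorem NOR_dg_inv (f : K) : dg k K f⁻¹ = dg k K f := by
  have h1 : f⁻¹ ∈ Set.range (algebraMap k K) ↔ f ∈ Set.range (algebraMap k K) := by
    constructor
    · rintro ⟨c, hc⟩
      exact ⟨c⁻¹, by rw [map_inv₀, hc, inv_inv]⟩
    · rintro ⟨c, hc⟩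
      exact ⟨c⁻¹, by rw [map_inv₀, hc]⟩
  have h2 : k⟮f⁻¹⟯ = k⟮f⟯ := by
    apply le_antisymm
    · rw [adjoin_simple_le_iff]
      exact inv_mem (mem_adjoin_simple_self k f)
    · rw [adjoin_simple_le_iff]
      have := inv_mem (mem_adjoin_simple_self k f⁻¹)
      rwa [inv_inv] at this
  unfold dg
  by_cases hf : f ∈ Set.range (algebraMap k K)
  · rw [if_pos hf, if_pos (h1.2 hf)]
  · rw [if_neg hf, if_neg (fun h => hf (h1.1 h)), h2]

end

theorem NOR_proof (h : St_DU) (hLIN : St_LIN) : St_NOR := by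
  intro k K _ _ _ _ _ hOD P q hP hq V hV
  classical
  change ∑ w ∈ V, NOR_N q w ≤ _
  by_cases hall : ∀ w ∈ V, NOR_N q w = 0
  · rw [Finset.sum_eq_zero hall]
    positivity
  push Not at hall
  obtain ⟨w₀, hw₀, hNw₀⟩ := hall
  -- the good l
  have hfin : (⋃ w ∈ (V.filter fun w => 0 < NOR_N q w : Finset (Valuation K ℤᵐ⁰)),
      {l : k | w (q 1 - algebraMap k K l * q 0) < WithZero.exp (NOR_N q w)}).Finite := by
    apply Set.Finite.biUnion (Finset.finite_toSet _)
    intro w hw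
    rw [Finset.mem_coe, Finset.mem_filter] at hw
    exact (NOR_sub q w (hV w hw.1) hw.2).finite
  have : Infinite k := IsAlgClosed.instInfinite
  obtain ⟨l, hl⟩ := hfin.exists_notMem
  simp only [Set.mem_iUnion, Finset.mem_filter, Set.mem_ofPred_eq, not_exists, not_lt] at hl
  set f : K := q 1 - algebraMap k K l * q 0 with hf
  have hwf : ∀ w ∈ V, 0 < NOR_N q w → w f = WithZero.exp (NOR_N q w) := by
    intro w hw hN
    exact le_antisymm (NOR_le q w (hV w hw) l) (hl w ⟨hw, hN⟩)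
  have hodf : ∀ w ∈ V, 0 < NOR_N q w → od w f = -NOR_N q w := by
    intro w hw hN
    unfold od
    rw [hwf w hw hN, WithZero.log_exp]
  have hN₀ : 0 < NOR_N q w₀ := lt_of_le_of_ne (NOR_nonneg q w₀) (Ne.symm hNw₀)
  have hfr : f ∉ Set.range (algebraMap k K) := by
    rintro ⟨c, hc⟩
    have h1 : od w₀ f = 0 := by
      by_cases hc0 : c = 0
      · rw [← hc, hc0, map_zero, od_zero]
      · rw [← hc]
        have h2 := (hV w₀ hw₀).triv c hc0
        unfold od
        rw [h2, WithZero.log_one, neg_zero]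
    rw [hodf w₀ hw₀ hN₀] at h1
    omega
  have hfr' : f⁻¹ ∉ Set.range (algebraMap k K) := by
    rintro ⟨c, hc⟩
    exact hfr ⟨c⁻¹, by rw [map_inv₀, hc, inv_inv]⟩
  obtain ⟨W, hW, hsum⟩ := h k K hOD f⁻¹ hfr'
  have hsub : V.filter (fun w => 0 < NOR_N q w) ⊆ W := by
    intro w hw
    rw [Finset.mem_filter] at hw
    rw [hW]
    refine ⟨hV w hw.1, ?_⟩
    rw [od_inv, hodf w hw.1 hw.2, neg_neg]
    exact hw.2
  have h1 : ∑ w ∈ V, NOR_N q w = ∑ w ∈ V.filter (fun w => 0 < NOR_N q w), NOR_N q w := by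
    rw [Finset.sum_filter]
    refine Finset.sum_congr rfl fun w _ => ?_
    split_ifs with h2
    · rfl
    · exact le_antisymm (not_lt.mp h2) (NOR_nonneg q w)
  have h2 : ∑ w ∈ V.filter (fun w => 0 < NOR_N q w), NOR_N q w =
      ∑ w ∈ V.filter (fun w => 0 < NOR_N q w), od w f⁻¹ := by
    refine Finset.sum_congr rfl fun w hw => ?_
    rw [Finset.mem_filter] at hw
    rw [od_inv, hodf w hw.1 hw.2, neg_neg]
  have h3 : ∑ w ∈ V.filter (fun w => 0 < NOR_N q w), od w f⁻¹ ≤ ∑ w ∈ W, od w f⁻¹ := by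
    apply Finset.sum_le_sum_of_subset_of_nonneg hsub
    intro w hw _
    exact ((hW w).1 hw).2.le
  rw [h1, h2]
  refine h3.trans ?_
  rw [hsum, NOR_dg_inv]
  have h4 := hLIN k K hOD P q hP hq l
  exact_mod_cast h4

end H719FO
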