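import Mathlib
import Pool.Agent.H719R3.FO.Stubs

set_option autoImplicit false

namespace H719FO

open IntermediateField H450BH WithZero Pool.Agent.H719R3.BG

namespace SLCaux

variable {k K : Type} [Field k] [Field K] [Algebra k K]

lemma mem_adj (q : Fin 2 → K) (l : Fin 2) : q l ∈ k⟮q 0, q 1⟯ := by
  apply subset_adjoin
  fin_cases l <;> simp

lemma adj_le (q q' : Fin 2 → K) (i' : Fin 2) (h1 : ∀ l, l ≠ i' → q' l = q l)
    (h2 : q' i' = (q i')⁻¹) : k⟮q' 0, q' 1⟯ ≤ k⟮q 0, q 1⟯ := by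
  have key : ∀ l, q' l ∈ k⟮q 0, q 1⟯ := by
    intro l
    by_cases hl : l = i'
    · subst hl
      rw [h2]
      exact inv_mem (mem_adj q l)
    · rw [h1 l hl]
      exact mem_adj q l
  rw [adjoin_le_iff]
  intro z hz
  simp only [Set.mem_insert_iff, Set.mem_singleton_iff] at hz
  rcases hz with rfl | rfl
  · exact key 0
  · exact key 1

end SLCaux

open SLCaux

theorem SLC_proof (hCEN : St_CEN) (hFLP : St_FLP) (hFLI : St_FLI) (hFLZ : St_FLZ) : St_SLC := by
  intro k K _ _ _ _ _ hOD P s hP hs q hq hnc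
  by_cases hinf : s.inf = true
  · obtain ⟨hr, hc, hFl⟩ := hs.infi hinf
    have hQ : Irreducible s.Q := hFLI k s.i s.i' hs.ne P s.Q s.d s.c s.r hr hP hFl hc hs.ct
    have hq0 : q s.i' ≠ 0 := hFLZ k K hOD s.i s.i' hs.ne P s.Q s.d s.c s.r hr hP hFl hc hs.ct q hq hnc
    set q' : Fin 2 → K := Function.update q s.i' (q s.i')⁻¹ with hq'
    have h1 : ∀ l, l ≠ s.i' → q' l = q l := fun l hl => Function.update_of_ne hl _ _
    have h2 : q' s.i' = (q s.i')⁻¹ := Function.update_self _ _ _
    have hQ0 : MvPolynomial.aeval q' s.Q = 0 := by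
      have := (hFLP k K s.i s.i' hs.ne P s.Q s.d hFl q hq0 q' hq').1
      rw [hq] at this
      rcases mul_eq_zero.mp this.symm with h | h
      · exact absurd h (pow_ne_zero _ hq0)
      · exact h
    have hnc' : ∃ l, q' l ∉ Set.range (algebraMap k K) := by
      obtain ⟨l, hl⟩ := hnc
      by_cases hl' : l = s.i'
      · refine ⟨s.i', ?_⟩
        rw [h2]
        rintro ⟨a, ha⟩
        apply hl
        rw [hl']
        exact ⟨a⁻¹, by rw [map_inv₀, ha, inv_inv]⟩
      · exact ⟨l, by rw [h1 l hl']; exact hl⟩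
    obtain ⟨V, hV1, hV2⟩ := hCEN k K hOD s.i s.i' hs.ne s.Q s.c s.r hQ hr hs.ct q' hQ0 hnc'
    refine ⟨V, ?_, ?_⟩
    · intro w hw
      obtain ⟨hpl, hc'⟩ := hV1 w hw
      refine ⟨hpl, ?_, ?_, ?_⟩
      · have := hc' s.i
        rw [h1 _ hs.ne] at this
        exact this
      · intro h; rw [hinf] at h; exact absurd h (by decide)
      · intro _
        refine ⟨hq0, ?_⟩
        have := hc' s.i'
        rw [h2, hc, map_zero, sub_zero] at this
        exact this
    · have he : k⟮q' 0, q' 1⟯ = k⟮q 0, q 1⟯ := by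
        apply le_antisymm
        · exact adj_le q q' s.i' h1 h2
        · exact adj_le q' q s.i' (fun l hl => (h1 l hl).symm) (by rw [h2, inv_inv])
      rw [he] at hV2
      refine hV2.trans (le_of_eq ?_)
      apply Finset.sum_congr rfl
      intro w _
      unfold Slot.mu
      rw [if_pos hinf, h2, hc, map_zero, sub_zero, od_inv]
  · have hinf' : s.inf = false := by simpa using hinf
    obtain ⟨hQ, hr⟩ := hs.fin hinf'
    have hct : Ct s.i s.i' P s.c s.r := by rw [← hQ]; exact hs.ct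
    obtain ⟨V, hV1, hV2⟩ := hCEN k K hOD s.i s.i' hs.ne P s.c s.r hP (by omega) hct q hq hnc
    refine ⟨V, ?_, ?_⟩
    · intro w hw
      obtain ⟨hpl, hc'⟩ := hV1 w hw
      exact ⟨hpl, hc' _, fun _ => hc' _, fun h => absurd h hinf⟩
    · refine hV2.trans (le_of_eq ?_)
      apply Finset.sum_congr rfl
      intro w _
      unfold Slot.mu
      rw [if_neg hinf]

end H719FO
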