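import Pool.Agent.H719R3.FO.Stubs

/-! SLE: two vertices in the same slot. -/

set_option autoImplicit false

namespace H719FO

open IntermediateField H450BH WithZero

namespace SLEaux

theorem fin2 {i i' l : Fin 2} (h : i ≠ i') : l = i ∨ l = i' := by
  omega

end SLEaux

open SLEaux

theorem SLE_proof (hVE : St_VE) (hFLP : St_FLP) : St_SLE := by
  intro k K _ _ _ _ w hw P s hs q q' hq hqn hcen hq' hqn' hcen' hne μ μ' β β' x y hμ hμ' hβ hβ'
    hx hy
  obtain ⟨i, i', inf, c, r, d, Q⟩ := s
  cases inf with
  | false =>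
    obtain ⟨hQ, hr⟩ := hs.fin rfl
    simp only at hQ hr
    subst hQ
    simp only [Slot.mu, Bool.false_eq_true, if_false] at hμ hμ' hβ hβ' hx hy
    subst hβ
    subst hβ'
    have h1 : ∀ l, w (q l - algebraMap k K (c l)) < 1 := by
      intro l
      rcases fin2 (l := l) hs.ne with h | h
      · rw [h]; exact hcen.1
      · rw [h]; exact hcen.2.1 rfl
    have h2 : ∀ l, w (q' l - algebraMap k K (c l)) < 1 := by
      intro l
      rcases fin2 (l := l) hs.ne with h | h
      · rw [h]; exact hcen'.1
      · rw [h]; exact hcen'.2.1 rfl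
    have h3 := hVE k K w hw i i' hs.ne Q c r (by omega) hs.ct q q' hq hqn h1 hq' hqn' h2 hne
      μ μ' y (x - y) hμ hμ' hy (by rw [hx]; ring)
    simpa using h3
  | true =>
    obtain ⟨hr, hc, hfl⟩ := hs.infi rfl
    simp only at hr hc hfl
    simp only [Slot.mu, if_true] at hμ hμ' hβ hβ' hx hy
    subst hβ
    subst hβ'
    have hne' : i ≠ i' := hs.ne
    obtain ⟨hq0, hqw⟩ := hcen.2.2 rfl
    obtain ⟨hq0', hqw'⟩ := hcen'.2.2 rfl
    simp only at hq0 hqw hq0' hqw'
    have hci : w (q i - algebraMap k K (c i)) < 1 := hcen.1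
    have hci' : w (q' i - algebraMap k K (c i)) < 1 := hcen'.1
    set v : Fin 2 → K := Function.update q i' (q i')⁻¹ with hv
    set v' : Fin 2 → K := Function.update q' i' (q' i')⁻¹ with hv'
    have vi : v i = q i := by rw [hv, Function.update_of_ne hne']
    have vi' : v i' = (q i')⁻¹ := by rw [hv, Function.update_self]
    have v'i : v' i = q' i := by rw [hv', Function.update_of_ne hne']
    have v'i' : v' i' = (q' i')⁻¹ := by rw [hv', Function.update_self]
    have e1 : MvPolynomial.aeval v Q = 0 := by
      have := (hFLP k K i i' hne' P Q d hfl q hq0 v hv).1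
      rw [hq] at this
      rcases mul_eq_zero.1 this.symm with h | h
      · exact absurd h (pow_ne_zero _ hq0)
      · exact h
    have e1' : MvPolynomial.aeval v' Q = 0 := by
      have := (hFLP k K i i' hne' P Q d hfl q' hq0' v' hv').1
      rw [hq'] at this
      rcases mul_eq_zero.1 this.symm with h | h
      · exact absurd h (pow_ne_zero _ hq0')
      · exact h
    have inv_range : ∀ z : K, z⁻¹ ∈ Set.range (algebraMap k K) →
        z ∈ Set.range (algebraMap k K) := by
      rintro z ⟨a, ha⟩
      exact ⟨a⁻¹, by rw [map_inv₀, ha, inv_inv]⟩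
    have e2 : ∃ l, v l ∉ Set.range (algebraMap k K) := by
      obtain ⟨l, hl⟩ := hqn
      rcases fin2 (l := l) hne' with h | h
      · exact ⟨i, by rw [vi, ← h]; exact hl⟩
      · refine ⟨i', fun h' => hl ?_⟩
        rw [h]
        rw [vi'] at h'
        exact inv_range _ h'
    have e2' : ∃ l, v' l ∉ Set.range (algebraMap k K) := by
      obtain ⟨l, hl⟩ := hqn'
      rcases fin2 (l := l) hne' with h | h
      · exact ⟨i, by rw [v'i, ← h]; exact hl⟩
      · refine ⟨i', fun h' => hl ?_⟩
        rw [h]
        rw [v'i'] at h'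
        exact inv_range _ h'
    have e3 : ∀ l, w (v l - algebraMap k K (c l)) < 1 := by
      intro l
      rcases fin2 (l := l) hne' with h | h
      · rw [h, vi]; exact hci
      · rw [h, vi', hc, map_zero, sub_zero]; exact hqw
    have e3' : ∀ l, w (v' l - algebraMap k K (c l)) < 1 := by
      intro l
      rcases fin2 (l := l) hne' with h | h
      · rw [h, v'i]; exact hci'
      · rw [h, v'i', hc, map_zero, sub_zero]; exact hqw'
    have e4 : ∀ l, v' l ≠ v l := by
      intro l
      rcases fin2 (l := l) hne' with h | h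
      · rw [h, vi, v'i]; exact hne i
      · rw [h, vi', v'i']
        intro h'
        exact hne i' (inv_injective h')
    have e5 : od w (v i' - algebraMap k K (c i')) = μ := by
      rw [vi', hc, map_zero, sub_zero, od_inv]
      exact hμ
    have e5' : od w (v' i' - algebraMap k K (c i')) = μ' := by
      rw [v'i', hc, map_zero, sub_zero, od_inv]
      exact hμ'
    have e6 : od w (v' i' - v i') = y + μ + μ' := by
      have hd : q' i' - q i' ≠ 0 := sub_ne_zero.2 (hne i')
      have : v' i' - v i' = -((q' i' - q i') * ((q i')⁻¹ * (q' i')⁻¹)) := by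
        rw [vi', v'i']
        field_simp
        ring
      rw [this, od_neg, od_mul w hd (mul_ne_zero (inv_ne_zero hq0) (inv_ne_zero hq0')),
        od_mul w (inv_ne_zero hq0) (inv_ne_zero hq0'), od_inv, od_inv, hy]
      omega
    have e7 : od w (v' i - v i) = (y + μ + μ') + (x - (y + μ + μ')) := by
      rw [vi, v'i, hx]
      ring
    exact hVE k K w hw i i' hne' Q c r hr hs.ct v v' e1 e2 e3 e1' e2' e3' e4
      μ μ' (y + μ + μ') (x - (y + μ + μ')) e5 e5' e6 e7

end H719FO
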