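import Pool.Agent.H719R3.FO.Stubs

set_option autoImplicit false

namespace H719FO

open IntermediateField H450BH WithZero
open scoped ComplexConjugate

lemma SLM_eval {k E : Type} [Field k] [Field E] (f : k →+* E) (c : Fin 2 → k)
    (U : MvPolynomial (Fin 2) k) :
    MvPolynomial.eval (fun l => f (c l)) (MvPolynomial.map f U) = f (MvPolynomial.eval c U) := by
  induction U using MvPolynomial.induction_on with
  | C a => simp
  | add p q hp hq => simp [hp, hq]
  | mul_X p i hp => simp [hp]

lemma SLM_aeval {k E : Type} [Field k] [Field E] (f : k →+* E) (i : Fin 2) (p : Polynomial k) :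
    MvPolynomial.map f (Polynomial.aeval (MvPolynomial.X i : MvPolynomial (Fin 2) k) p) =
      Polynomial.aeval (MvPolynomial.X i : MvPolynomial (Fin 2) E) (p.map f) := by
  induction p using Polynomial.induction_on' with
  | add p q hp hq => simp [hp, hq]
  | monomial n a =>
    rw [Polynomial.map_monomial, Polynomial.aeval_monomial, Polynomial.aeval_monomial]
    simp [MvPolynomial.algebraMap_eq]

theorem SLM_proof : St_SLM := by
  intro k E _ _ f P s hs
  obtain ⟨hne, ⟨U, V, hQ, hU, hV⟩, hfin, hinf⟩ := hs
  refine ⟨hne, ⟨MvPolynomial.map f U, MvPolynomial.map f V, ?_, ?_, ?_⟩, ?_, ?_⟩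
  · change MvPolynomial.map f s.Q = _
    rw [hQ]
    simp [Slot.map]
  · change MvPolynomial.eval (fun l => f (s.c l)) _ ≠ 0
    rw [SLM_eval]
    intro h
    exact hU ((map_eq_zero f).1 h)
  · change MvPolynomial.eval (fun l => f (s.c l)) _ ≠ 0
    rw [SLM_eval]
    intro h
    exact hV ((map_eq_zero f).1 h)
  · intro h
    obtain ⟨h1, h2⟩ := hfin h
    refine ⟨?_, h2⟩
    change MvPolynomial.map f s.Q = _
    rw [h1]
  · intro h
    obtain ⟨h1, h2, p, hp, hq⟩ := hinf h
    refine ⟨h1, ?_, fun n => (p n).map f, ?_, ?_⟩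
    · change f (s.c s.i') = 0
      rw [h2, map_zero]
    · rw [hp, map_sum]
      refine Finset.sum_congr rfl fun n _ => ?_
      rw [map_mul, map_pow, SLM_aeval, MvPolynomial.map_X]
      rfl
    · change MvPolynomial.map f s.Q = _
      rw [hq, map_sum]
      refine Finset.sum_congr rfl fun n _ => ?_
      rw [map_mul, map_pow, SLM_aeval, MvPolynomial.map_X]
      rfl

end H719FO
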