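import Pool.Agent.H719R3.FO.Stubs

/-!
Task SLT: slots of both kinds.
-/

set_option autoImplicit false

namespace H719FO

open IntermediateField H450BH WithZero Pool.Agent.H719R3.BG
open scoped ComplexConjugate

namespace SLTx

/-- `cj` as a ring homomorphism -/
noncomputable def ch : MvPolynomial (Fin 2) ℂ →+* MvPolynomial (Fin 2) ℂ :=
  (MvPolynomial.rename (Equiv.swap (0 : Fin 2) 1) :
    MvPolynomial (Fin 2) ℂ →ₐ[ℂ] MvPolynomial (Fin 2) ℂ).toRingHom.comp
    (MvPolynomial.map (starRingEnd ℂ))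

theorem ch_eq (P : MvPolynomial (Fin 2) ℂ) : ch P = cj P := rfl

theorem ch_X0 : ch (MvPolynomial.X 0) = MvPolynomial.X 1 := by
  rw [ch_eq, cj, MvPolynomial.map_X, MvPolynomial.rename_X, Equiv.swap_apply_left]

theorem ch_X1 : ch (MvPolynomial.X 1) = MvPolynomial.X 0 := by
  rw [ch_eq, cj, MvPolynomial.map_X, MvPolynomial.rename_X, Equiv.swap_apply_right]

theorem ch_C (a : ℂ) : ch (MvPolynomial.C a) = MvPolynomial.C (conj a) := by
  rw [ch_eq, cj, MvPolynomial.map_C, MvPolynomial.rename_C]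

theorem eval_ch (a b : ℂ) (U : MvPolynomial (Fin 2) ℂ) :
    MvPolynomial.eval ![conj b, conj a] (ch U) = conj (MvPolynomial.eval ![a, b] U) := by
  induction U using MvPolynomial.induction_on with
  | C c => rw [ch_C, MvPolynomial.eval_C, MvPolynomial.eval_C]
  | add p q hp hq => rw [map_add, map_add, hp, hq, map_add, map_add]
  | mul_X p i hp =>
    rw [map_mul, map_mul, hp, map_mul, map_mul]
    congr 1
    fin_cases i
    · simp [ch_X0]
    · simp [ch_X1]

theorem ct_ch {P : MvPolynomial (Fin 2) ℂ} {a b : ℂ} {r : ℕ} (h : Ct 0 1 P ![a, b] r) {c : ℂ}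
    (hc : c ≠ 0) : Ct 1 0 (MvPolynomial.C c * ch P) ![conj b, conj a] r := by
  obtain ⟨U, V, hP, hU, hV⟩ := h
  refine ⟨MvPolynomial.C c * ch U, MvPolynomial.C c * ch V, ?_, ?_, ?_⟩
  · rw [hP]
    simp only [map_add, map_mul, map_sub, map_pow, ch_X0, ch_X1, ch_C, Matrix.cons_val_zero,
      Matrix.cons_val_one]
    ring
  · rw [map_mul, MvPolynomial.eval_C, eval_ch]
    exact mul_ne_zero hc ((map_ne_zero _).2 hU)
  · rw [map_mul, MvPolynomial.eval_C, eval_ch]
    exact mul_ne_zero hc ((map_ne_zero _).2 hV)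

theorem ch_aeval (p : Polynomial ℂ) :
    ch (Polynomial.aeval (MvPolynomial.X 0 : MvPolynomial (Fin 2) ℂ) p) =
      Polynomial.aeval (MvPolynomial.X 1 : MvPolynomial (Fin 2) ℂ) (p.map (starRingEnd ℂ)) := by
  induction p using Polynomial.induction_on' with
  | add p q hp hq => rw [map_add, map_add, hp, hq, Polynomial.map_add, map_add]
  | monomial n a =>
    rw [Polynomial.aeval_monomial, map_mul, map_pow, ch_X0, Polynomial.map_monomial,
      Polynomial.aeval_monomial]
    congr 1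
    exact ch_C a

theorem fl_ch {P Q : MvPolynomial (Fin 2) ℂ} {d : ℕ} (h : Fl 0 1 d P Q) (c : ℂ) :
    Fl 1 0 d (MvPolynomial.C c * ch P) (MvPolynomial.C c * ch Q) := by
  obtain ⟨p, hP, hQ⟩ := h
  have hC : ∀ n, Polynomial.aeval (MvPolynomial.X 1 : MvPolynomial (Fin 2) ℂ)
      (Polynomial.C c * (p n).map (starRingEnd ℂ)) =
      MvPolynomial.C c * ch (Polynomial.aeval (MvPolynomial.X 0 : MvPolynomial (Fin 2) ℂ) (p n)) := by
    intro n
    rw [map_mul, ch_aeval, Polynomial.aeval_C]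
    rfl
  refine ⟨fun n => Polynomial.C c * (p n).map (starRingEnd ℂ), ?_, ?_⟩
  · rw [hP, map_sum, Finset.mul_sum]
    refine Finset.sum_congr rfl fun n _ => ?_
    rw [hC, map_mul, map_pow, ch_X1, mul_assoc]
  · rw [hQ, map_sum, Finset.mul_sum]
    refine Finset.sum_congr rfl fun n _ => ?_
    rw [hC, map_mul, map_pow, ch_X1, mul_assoc]

end SLTx

open SLTx in
theorem SLT_proof : St_SLT := by
  intro P ⟨c0, hc0, hcj⟩ F G r ⟨hdis, hF, hG, hdeg⟩
  have hP : MvPolynomial.C c0⁻¹ * ch P = P := by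
    rw [ch_eq, hcj, ← mul_assoc, ← MvPolynomial.C_mul, inv_mul_cancel₀ hc0, MvPolynomial.C_1, one_mul]
  have hi0 : c0⁻¹ ≠ 0 := inv_ne_zero hc0
  choose hF2 b hb using hF
  choose hG1 d Q hfl hct using hG
  let s : (F ⊕ G) × Bool → Slot ℂ := fun x =>
    match x with
    | (Sum.inl a, false) => ⟨0, 1, false, ![a.1, b a.1 a.2], r a.1, 0, P⟩
    | (Sum.inl a, true) => ⟨1, 0, false, ![conj (b a.1 a.2), conj a.1], r a.1, 0, P⟩
    | (Sum.inr a, false) => ⟨0, 1, true, ![a.1, 0], r a.1, d a.1 a.2, Q a.1 a.2⟩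
    | (Sum.inr a, true) => ⟨1, 0, true, ![conj 0, conj a.1], r a.1, d a.1 a.2,
        MvPolynomial.C c0⁻¹ * ch (Q a.1 a.2)⟩
  refine ⟨(F ⊕ G) × Bool, inferInstance, s, ?_, ?_, ?_⟩
  · rintro ⟨a | a, _ | _⟩
    · exact ⟨by simp [s], hb a.1 a.2, fun _ => ⟨rfl, hF2 a.1 a.2⟩, fun h => by simp [s] at h⟩
    · refine ⟨by simp [s], ?_, fun _ => ⟨rfl, hF2 a.1 a.2⟩, fun h => by simp [s] at h⟩
      have h1 := ct_ch (hb a.1 a.2) hi0
      rw [hP] at h1
      exact h1
    · exact ⟨by simp [s], hct a.1 a.2, fun h => by simp [s] at h,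
        fun _ => ⟨hG1 a.1 a.2, by simp [s], hfl a.1 a.2⟩⟩
    · refine ⟨by simp [s], ct_ch (hct a.1 a.2) hi0, fun h => by simp [s] at h,
        fun _ => ⟨hG1 a.1 a.2, by simp [s], ?_⟩⟩
      have h1 := fl_ch (hfl a.1 a.2) c0⁻¹
      rw [hP] at h1
      exact h1
  · have hne : ∀ (a : F) (a' : G), a.1 ≠ a'.1 := by
      intro a a' h
      exact Finset.disjoint_left.1 hdis a.2 (h ▸ a'.2)
    have hconj : ∀ z z' : ℂ, conj z = conj z' → z = z' := fun z z' h => (starRingEnd ℂ).injective h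
    rintro ⟨a | a, _ | _⟩ ⟨a' | a', _ | _⟩ h1 h2
    · have h3 : a.1 = a'.1 := by simpa [s] using h2
      rw [Subtype.ext h3]
    · simp [s] at h1
    · exact absurd (by simpa [s] using h2) (hne a a')
    · simp [s] at h1
    · simp [s] at h1
    · have h3 : a.1 = a'.1 := hconj _ _ (by simpa [s] using h2)
      rw [Subtype.ext h3]
    · simp [s] at h1
    · exact absurd (hconj _ _ (by simpa [s] using h2)) (hne a a')
    · exact absurd (by simpa [s] using h2.symm) (hne a' a)
    · simp [s] at h1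
    · have h3 : a.1 = a'.1 := by simpa [s] using h2
      rw [Subtype.ext h3]
    · simp [s] at h1
    · simp [s] at h1
    · exact absurd (hconj _ _ (by simpa [s] using h2.symm)) (hne a' a)
    · simp [s] at h1
    · have h3 : a.1 = a'.1 := hconj _ _ (by simpa [s] using h2)
      rw [Subtype.ext h3]
  · have hsum : ∑ x, (s x).wt = 2 * (∑ a ∈ F, 2 * r a + ∑ a ∈ G, (2 * r a + 3)) := by
      rw [Fintype.sum_prod_type, Fintype.sum_sum_type, mul_add, Finset.mul_sum, Finset.mul_sum]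
      congr 1
      · rw [← Finset.sum_coe_sort F]
        refine Finset.sum_congr rfl fun a _ => ?_
        rw [Fintype.sum_bool]
        simp only [s, Slot.wt, Bool.false_eq_true, if_false]
        ring
      · rw [← Finset.sum_coe_sort G]
        refine Finset.sum_congr rfl fun a _ => ?_
        rw [Fintype.sum_bool]
        simp only [s, Slot.wt, if_true]
        ring
    rw [hsum]
    omega

end H719FO
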