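import Mathlib
import Pool.Agent.H719R3.FO.Stubs

/-!
SLV: one vertex in a slot (helper477).
-/

set_option autoImplicit false

namespace H719FO

open IntermediateField H450BH WithZero Pool.Agent.H719R3.BG
open scoped ComplexConjugate

namespace SLVaux

theorem fin_two {i i' : Fin 2} (h : i ≠ i') (l : Fin 2) : l = i ∨ l = i' := by
  fin_cases i <;> fin_cases i' <;> fin_cases l <;> simp_all

end SLVaux

open SLVaux in
theorem SLV_proof (hVX : St_VX) (hFLP : St_FLP) : St_SLV := by
  intro k K _ _ _ _ w hw P s hs q hq hnc hcen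
  obtain ⟨hc1, hc2, hc3⟩ := hcen
  by_cases hinf : s.inf = true
  · obtain ⟨hr, hc0, hfl⟩ := hs.infi hinf
    obtain ⟨hq0, hqinv⟩ := hc3 hinf
    set q' : Fin 2 → K := Function.update q s.i' (q s.i')⁻¹ with hq'
    have hq'i : q' s.i = q s.i := by
      rw [hq', Function.update_of_ne hs.ne]
    have hq'i' : q' s.i' = (q s.i')⁻¹ := by
      rw [hq', Function.update_self]
    obtain ⟨f1, f2, f3⟩ := hFLP k K s.i s.i' hs.ne P s.Q s.d hfl q hq0 q' hq'
    have hqd : q s.i' ^ s.d ≠ 0 := pow_ne_zero _ hq0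
    have hQ0 : MvPolynomial.aeval q' s.Q = 0 := by
      rw [hq] at f1
      exact (mul_eq_zero.mp f1.symm).resolve_left hqd
    have hnc' : ∃ l, q' l ∉ Set.range (algebraMap k K) := by
      obtain ⟨l, hl⟩ := hnc
      refine ⟨l, ?_⟩
      rcases fin_two hs.ne l with rfl | rfl
      · rw [hq'i]
        exact hl
      · rw [hq'i']
        rintro ⟨x, hx⟩
        apply hl
        refine ⟨x⁻¹, ?_⟩
        rw [map_inv₀, hx, inv_inv]
    have hcen' : ∀ l, w (q' l - algebraMap k K (s.c l)) < 1 := by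
      intro l
      rcases fin_two hs.ne l with rfl | rfl
      · rw [hq'i]
        exact hc1
      · rw [hq'i', hc0, map_zero, sub_zero]
        exact hqinv
    obtain ⟨g1, g2, g3, g4, g5, g6, g7⟩ := hVX k K w hw s.i s.i' hs.ne s.Q s.c s.r hr hs.ct q' hQ0
      hnc' hcen'
    have hmu : od w (q' s.i' - algebraMap k K (s.c s.i')) = s.mu w q := by
      rw [hq'i', hc0, map_zero, sub_zero, od_inv]
      unfold Slot.mu
      rw [if_pos hinf]
    rw [hmu] at g2 g6
    have hmu' : od w (q s.i') = -s.mu w q := by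
      unfold Slot.mu
      rw [if_pos hinf, neg_neg]
    have e2 : MvPolynomial.aeval q (MvPolynomial.pderiv s.i P) ≠ 0 := by
      rw [f2]
      exact mul_ne_zero hqd g3
    have o2 : od w (MvPolynomial.aeval q (MvPolynomial.pderiv s.i P)) =
        s.d * (-s.mu w q) := by
      rw [f2, od_mul w hqd g3, od_pow, hmu', g4, add_zero]
    have f3' : q s.i' ^ 2 * MvPolynomial.aeval q (MvPolynomial.pderiv s.i' P) =
        -(q s.i' ^ s.d * MvPolynomial.aeval q' (MvPolynomial.pderiv s.i' s.Q)) := by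
      rw [f3, hq]
      ring
    have e3 : MvPolynomial.aeval q (MvPolynomial.pderiv s.i' P) ≠ 0 := by
      intro h
      rw [h, mul_zero] at f3'
      exact (neg_ne_zero.mpr (mul_ne_zero hqd g5)) f3'.symm
    have o3 : 2 * (-s.mu w q) + od w (MvPolynomial.aeval q (MvPolynomial.pderiv s.i' P)) =
        s.d * (-s.mu w q) + ((s.r : ℤ) - 1) * s.mu w q := by
      have := congrArg (od w) f3'
      rw [od_mul w (pow_ne_zero _ hq0) e3, od_neg, od_mul w hqd g5, od_pow, od_pow, hmu', g6] at this
      exact_mod_cast this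
    refine ⟨g2, e2, e3, ?_⟩
    rw [if_pos hinf, o2]
    linear_combination o3
  · have hinf' : s.inf = false := by simpa using hinf
    obtain ⟨hQP, hr⟩ := hs.fin hinf'
    have hct := hs.ct
    rw [hQP] at hct
    have hcen' : ∀ l, w (q l - algebraMap k K (s.c l)) < 1 := by
      intro l
      rcases fin_two hs.ne l with rfl | rfl
      · exact hc1
      · exact hc2 hinf'
    obtain ⟨g1, g2, g3, g4, g5, g6, g7⟩ := hVX k K w hw s.i s.i' hs.ne P s.c s.r (by omega) hct q hq
      hnc hcen'
    have hmu : od w (q s.i' - algebraMap k K (s.c s.i')) = s.mu w q := by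
      unfold Slot.mu
      rw [if_neg hinf]
    rw [hmu] at g2 g6
    refine ⟨g2, g3, g5, ?_⟩
    rw [if_neg hinf, g4, g6, sub_zero]

end H719FO
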