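import Pool.Agent.H719R3.FO.Stubs
import Pool.Agent.H450R3.BH.KER
import Pool.Agent.H450R3.BH.GER

/-!
Task SYM: a real irreducible curve is its own conjugate.
-/

set_option autoImplicit false

namespace H719FO

open H450BH
open scoped ComplexConjugate

theorem sym_eval (P : MvPolynomial (Fin 2) ℂ) (p : ℂ) :
    MvPolynomial.eval ![p, conj p] (cj P) = conj (MvPolynomial.eval ![p, conj p] P) := by
  unfold cj
  rw [MvPolynomial.eval_rename, MvPolynomial.eval_map]
  have h1 : MvPolynomial.eval₂Hom (starRingEnd ℂ) (![p, conj p] ∘ ⇑(Equiv.swap (0 : Fin 2) 1))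
      = (starRingEnd ℂ).comp (MvPolynomial.eval ![p, conj p]) := by
    apply MvPolynomial.ringHom_ext
    · intro r
      simp
    · intro l
      fin_cases l <;> simp
  exact congrArg (fun f : MvPolynomial (Fin 2) ℂ →+* ℂ => f P) h1

theorem cj_ne_zero {P : MvPolynomial (Fin 2) ℂ} (hP : P ≠ 0) : cj P ≠ 0 := by
  unfold cj
  intro h
  apply hP
  have h2 : MvPolynomial.map (starRingEnd ℂ) P = 0 := by
    apply MvPolynomial.rename_injective (R := ℂ) _ (Equiv.swap (0 : Fin 2) 1).injective
    rw [h, map_zero]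
  apply MvPolynomial.map_injective (starRingEnd ℂ) (starRingEnd ℂ).injective
  rw [h2, map_zero]

theorem cj_deg (P : MvPolynomial (Fin 2) ℂ) : (cj P).totalDegree ≤ P.totalDegree := by
  unfold cj
  refine (MvPolynomial.totalDegree_rename_le _ _).trans ?_
  apply Finset.sup_mono
  exact MvPolynomial.support_map_subset _ _

theorem SYM_proof : St_SYM := by
  intro P hP S hS hz
  obtain ⟨L, _, π, hπ1, -⟩ := ger_field
  letI : Algebra ℂ L := (π.comp (Pi.constRingHom ℕ ℂ)).toAlgebra
  have ha : ∀ c : ℂ, algebraMap ℂ L c = π (fun _ => c) := fun c => rfl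
  let f : ℕ ↪ S := hS.natEmbedding
  let F : ℕ → Fin 2 → ℂ := fun i => ![(f i : ℂ), conj (f i : ℂ)]
  let q : Fin 2 → L := fun l => π (fun i => F i l)
  have hq : MvPolynomial.aeval q P = 0 := by
    rw [ger_aeval π ha F P]
    have : (fun i => MvPolynomial.eval (F i) P) = 0 := by
      funext i
      exact hz _ (f i).2
    rw [this, map_zero]
  have hq2 : MvPolynomial.aeval q (cj P) = 0 := by
    rw [ger_aeval π ha F (cj P)]
    have : (fun i => MvPolynomial.eval (F i) (cj P)) = 0 := by
      funext i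
      show MvPolynomial.eval ![(f i : ℂ), conj (f i : ℂ)] (cj P) = 0
      rw [sym_eval, hz _ (f i).2, map_zero]
    rw [this, map_zero]
  have ht : ∃ l, Transcendental ℂ (q l) := by
    refine ⟨0, ger_transc ?_⟩
    rintro ⟨c, hc⟩
    rw [ha] at hc
    refine hπ1 (fun i => F i 0) ?_ c hc.symm
    intro i j hij
    apply f.injective
    apply Subtype.ext
    exact hij
  obtain ⟨R, hR⟩ := ker_dvd P hP q hq ht (cj P) hq2
  have hc0 := cj_ne_zero hP.ne_zero
  have hR0 : R ≠ 0 := by
    rintro rfl
    rw [mul_zero] at hR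
    exact hc0 hR
  have hdeg : R.totalDegree = 0 := by
    have h1 := MvPolynomial.totalDegree_mul_of_isDomain hP.ne_zero hR0
    have h2 := cj_deg P
    rw [hR, h1] at h2
    omega
  have hRC := MvPolynomial.totalDegree_eq_zero_iff_eq_C.mp hdeg
  refine ⟨R.coeff 0, ?_, ?_⟩
  · intro h
    rw [h, map_zero] at hRC
    exact hR0 hRC
  · rw [← hRC, hR, mul_comm]

end H719FO
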