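import Pool.Agent.H719R3.FO.Stubs

/-!
# Task VE (helper702): two points of the curve near a smooth point
-/

set_option autoImplicit false

namespace H719FO

open IntermediateField H450BH WithZero

section VEaux

variable {k K : Type} [Field k] [Field K] [Algebra k K]

theorem ve_const_le (w : Valuation K ℤᵐ⁰) (hw : Pl k K w) (c : k) : w (algebraMap k K c) ≤ 1 := by
  by_cases h : c = 0
  · simp [h]
  · exact (hw.triv c h).le

theorem ve_q_le (w : Valuation K ℤᵐ⁰) (hw : Pl k K w) {a : K} {c : k}
    (h : w (a - algebraMap k K c) < 1) : w a ≤ 1 := by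
  have : a = (a - algebraMap k K c) + algebraMap k K c := by ring
  rw [this]
  exact (Valuation.map_add w _ _).trans (max_le h.le (ve_const_le w hw c))

theorem ve_eval_le (w : Valuation K ℤᵐ⁰) (hw : Pl k K w) (q : Fin 2 → K) (hq : ∀ l, w (q l) ≤ 1)
    (G : MvPolynomial (Fin 2) k) : w (MvPolynomial.aeval q G) ≤ 1 := by
  induction G using MvPolynomial.induction_on with
  | C a => rw [MvPolynomial.aeval_C]; exact ve_const_le w hw a
  | add p q hp hq => rw [map_add]; exact (Valuation.map_add w _ _).trans (max_le hp hq)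
  | mul_X p l hp =>
    rw [map_mul, MvPolynomial.aeval_X, map_mul]
    exact mul_le_one' hp (hq l)

theorem ve_eval_sub (w : Valuation K ℤᵐ⁰) (hw : Pl k K w) (q : Fin 2 → K) (c : Fin 2 → k)
    (hq : ∀ l, w (q l - algebraMap k K (c l)) < 1)
    (G : MvPolynomial (Fin 2) k) :
    w (MvPolynomial.aeval q G - algebraMap k K (MvPolynomial.eval c G)) < 1 := by
  induction G using MvPolynomial.induction_on with
  | C a => rw [MvPolynomial.aeval_C, MvPolynomial.eval_C]; simp
  | add p r hp hr =>
    rw [map_add, map_add, map_add]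
    have : (MvPolynomial.aeval q p + MvPolynomial.aeval q r) -
      (algebraMap k K (MvPolynomial.eval c p) + algebraMap k K (MvPolynomial.eval c r)) =
      (MvPolynomial.aeval q p - algebraMap k K (MvPolynomial.eval c p)) +
      (MvPolynomial.aeval q r - algebraMap k K (MvPolynomial.eval c r)) := by ring
    rw [this]
    exact Valuation.map_add_lt w hp hr
  | mul_X p l hp =>
    rw [map_mul, MvPolynomial.aeval_X, map_mul, MvPolynomial.eval_X, map_mul]
    have : MvPolynomial.aeval q p * q l - algebraMap k K (MvPolynomial.eval c p) * algebraMap k K (c l) =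
      (MvPolynomial.aeval q p - algebraMap k K (MvPolynomial.eval c p)) * q l +
      algebraMap k K (MvPolynomial.eval c p) * (q l - algebraMap k K (c l)) := by ring
    rw [this]
    apply Valuation.map_add_lt w
    · rw [map_mul]
      exact mul_lt_one_of_lt_of_le hp (ve_q_le w hw (hq l))
    · rw [map_mul]
      rw [mul_comm]; exact mul_lt_one_of_lt_of_le (hq l) (ve_const_le w hw _)

theorem ve_eval_one (w : Valuation K ℤᵐ⁰) (hw : Pl k K w) (q : Fin 2 → K) (c : Fin 2 → k)
    (hq : ∀ l, w (q l - algebraMap k K (c l)) < 1)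
    (G : MvPolynomial (Fin 2) k) (hG : MvPolynomial.eval c G ≠ 0) :
    w (MvPolynomial.aeval q G) = 1 := by
  have h1 := ve_eval_sub w hw q c hq G
  have h2 := hw.triv _ hG
  have h3 : MvPolynomial.aeval q G =
      (MvPolynomial.aeval q G - algebraMap k K (MvPolynomial.eval c G)) +
      algebraMap k K (MvPolynomial.eval c G) := by ring
  rw [h3, Valuation.map_add_eq_of_lt_right w (by rw [h2]; exact h1), h2]

theorem ve_dq (w : Valuation K ℤᵐ⁰) (hw : Pl k K w) (i i' : Fin 2) (hi : i ≠ i') (q q' : Fin 2 → K)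
    (hq : ∀ l, w (q l) ≤ 1) (hq' : ∀ l, w (q' l) ≤ 1) (G : MvPolynomial (Fin 2) k) :
    ∃ G1 G2 : K, w G1 ≤ 1 ∧ w G2 ≤ 1 ∧ MvPolynomial.aeval q' G - MvPolynomial.aeval q G =
      (q' i - q i) * G1 + (q' i' - q i') * G2 := by
  induction G using MvPolynomial.induction_on with
  | C a => exact ⟨0, 0, by simp, by simp, by simp⟩
  | add p r hp hr =>
    obtain ⟨a1, a2, h1, h2, h3⟩ := hp
    obtain ⟨b1, b2, h4, h5, h6⟩ := hr
    refine ⟨a1 + b1, a2 + b2, (Valuation.map_add w _ _).trans (max_le h1 h4),
      (Valuation.map_add w _ _).trans (max_le h2 h5), ?_⟩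
    rw [map_add, map_add]
    linear_combination h3 + h6
  | mul_X p l hp =>
    obtain ⟨a1, a2, h1, h2, h3⟩ := hp
    have hpq := ve_eval_le w hw q hq p
    have hl : l = i ∨ l = i' := by
      fin_cases l <;> fin_cases i <;> fin_cases i' <;> simp_all
    rcases hl with rfl | rfl
    · refine ⟨a1 * q' l + MvPolynomial.aeval q p, a2 * q' l, ?_, ?_, ?_⟩
      · refine (Valuation.map_add w _ _).trans (max_le ?_ hpq)
        rw [map_mul]; exact mul_le_one' h1 (hq' l)
      · rw [map_mul]; exact mul_le_one' h2 (hq' l)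
      · rw [map_mul, map_mul, MvPolynomial.aeval_X, MvPolynomial.aeval_X]
        linear_combination (q' l) * h3
    · refine ⟨a1 * q' l, a2 * q' l + MvPolynomial.aeval q p, ?_, ?_, ?_⟩
      · rw [map_mul]; exact mul_le_one' h1 (hq' l)
      · refine (Valuation.map_add w _ _).trans (max_le ?_ hpq)
        rw [map_mul]; exact mul_le_one' h2 (hq' l)
      · rw [map_mul, map_mul, MvPolynomial.aeval_X, MvPolynomial.aeval_X]
        linear_combination (q' l) * h3

theorem ve_od_eq (w : Valuation K ℤᵐ⁰) {f g : K} (h : w f = w g) : od w f = od w g := by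
  unfold od
  rw [h]

/-- the relation at one point -/
theorem ve_one (w : Valuation K ℤᵐ⁰) (hw : Pl k K w) (i i' : Fin 2) (hi : i ≠ i')
    (P U V : MvPolynomial (Fin 2) k) (c : Fin 2 → k) (r : ℕ) (hr : 1 ≤ r)
    (hP : P = (MvPolynomial.X i - MvPolynomial.C (c i)) * U +
      (MvPolynomial.X i' - MvPolynomial.C (c i')) ^ r * V)
    (hU : MvPolynomial.eval c U ≠ 0) (hV : MvPolynomial.eval c V ≠ 0)
    (q : Fin 2 → K) (hq : MvPolynomial.aeval q P = 0) (hn : ∃ l, q l ∉ Set.range (algebraMap k K))
    (hc : ∀ l, w (q l - algebraMap k K (c l)) < 1) :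
    q i' - algebraMap k K (c i') ≠ 0 ∧
    (q i - algebraMap k K (c i)) * MvPolynomial.aeval q U +
      (q i' - algebraMap k K (c i')) ^ r * MvPolynomial.aeval q V = 0 ∧
    w (q i - algebraMap k K (c i)) = w (q i' - algebraMap k K (c i')) ^ r := by
  have h1 : (q i - algebraMap k K (c i)) * MvPolynomial.aeval q U +
      (q i' - algebraMap k K (c i')) ^ r * MvPolynomial.aeval q V = 0 := by
    rw [hP] at hq
    simpa using hq
  have wU := ve_eval_one w hw q c hc U hU
  have wV := ve_eval_one w hw q c hc V hV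
  have h2 : w (q i - algebraMap k K (c i)) = w (q i' - algebraMap k K (c i')) ^ r := by
    have h3 : (q i - algebraMap k K (c i)) * MvPolynomial.aeval q U =
      -((q i' - algebraMap k K (c i')) ^ r * MvPolynomial.aeval q V) := by
      linear_combination h1
    have h4 := congrArg w h3
    rw [Valuation.map_neg, map_mul, map_mul, wU, wV, mul_one, mul_one, map_pow] at h4
    exact h4
  refine ⟨?_, h1, h2⟩
  intro h0
  rw [h0, map_zero, zero_pow (by omega), Valuation.zero_iff] at h2
  obtain ⟨l, hl⟩ := hn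
  apply hl
  have hl : l = i ∨ l = i' := by
    fin_cases l <;> fin_cases i <;> fin_cases i' <;> simp_all
  rcases hl with rfl | rfl
  · exact ⟨c l, (sub_eq_zero.mp h2).symm⟩
  · exact ⟨c l, (sub_eq_zero.mp h0).symm⟩

end VEaux

theorem VE_proof : St_VE := by
  intro k K _ _ _ _ w hw i i' hi P c r hr hCt q q' hq hn hc hq' hn' hc' hne μ μ' s t hμ hμ' hs ht
  obtain ⟨U, V, hP, hU, hV⟩ := hCt
  obtain ⟨x0, hx, hy⟩ := ve_one w hw i i' hi P U V c r hr hP hU hV q hq hn hc
  obtain ⟨x0', hx', hy'⟩ := ve_one w hw i i' hi P U V c r hr hP hU hV q' hq' hn' hc'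
  have wq : ∀ l, w (q l) ≤ 1 := fun l => ve_q_le w hw (hc l)
  have wq' : ∀ l, w (q' l) ≤ 1 := fun l => ve_q_le w hw (hc' l)
  obtain ⟨U1, U2, wU1, wU2, hU12⟩ := ve_dq w hw i i' hi q q' wq wq' U
  obtain ⟨V1, V2, wV1, wV2, hV12⟩ := ve_dq w hw i i' hi q q' wq wq' V
  have wU' := ve_eval_one w hw q' c hc' U hU
  have wV' := ve_eval_one w hw q' c hc' V hV
  have x1 := hc i'
  have x1' := hc' i'
  have y1 := hc i
  have hDE : q' i - q i ≠ 0 := sub_ne_zero.mpr (hne i)
  have hDD : q' i' - q i' ≠ 0 := sub_ne_zero.mpr (hne i')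
  -- names
  set x := q i' - algebraMap k K (c i') with hxd
  set x' := q' i' - algebraMap k K (c i') with hxd'
  set y := q i - algebraMap k K (c i) with hyd
  set D := q' i' - q i' with hD
  set E := q' i - q i with hE
  have hDx : D = x' - x := by rw [hD, hxd, hxd']; ring
  set h := ∑ j ∈ Finset.range r, x' ^ j * x ^ (r - 1 - j) with hh
  have hgs : h * D = x' ^ r - x ^ r := by
    rw [hh, hDx]
    exact (Commute.all x' x).geom_sum₂_mul r
  set W := h * MvPolynomial.aeval q' V + (x ^ r * V2 + y * U2) with hW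
  set A := MvPolynomial.aeval q' U + (y * U1 + x ^ r * V1) with hA
  have key : E * A = -(D * W) := by
    have e1 : q' i - algebraMap k K (c i) = y + E := by rw [hyd, hE]; ring
    rw [e1] at hx'
    rw [hA, hW]
    linear_combination hx' - hx + (MvPolynomial.aeval q' V) * hgs - y * hU12 - x ^ r * hV12
  have wx0 : w x ≠ 0 := (Valuation.ne_zero_iff w).mpr x0
  have wxp : 0 < w x := zero_lt_iff.mpr wx0
  have wx0' : w x' ≠ 0 := (Valuation.ne_zero_iff w).mpr x0'
  have wxp' : 0 < w x' := zero_lt_iff.mpr wx0'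
  have wrest : w (x ^ r * V2 + y * U2) ≤ w x ^ r := by
    refine (Valuation.map_add w _ _).trans (max_le ?_ ?_)
    · rw [map_mul, map_pow]; exact mul_le_of_le_one_right' wV2
    · rw [map_mul, hy]; exact mul_le_of_le_one_right' wU2
  have wrest1 : w (y * U1 + x ^ r * V1) < 1 := by
    apply Valuation.map_add_lt w
    · rw [map_mul]; exact mul_lt_one_of_lt_of_le y1 wU1
    · rw [map_mul, map_pow]
      exact mul_lt_one_of_lt_of_le (pow_lt_one₀ zero_le x1 (by omega)) wV1
  have wA : w A = 1 := by
    rw [hA, Valuation.map_add_eq_of_lt_left w (by rw [wU']; exact wrest1), wU']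
  have wE : w E = w D * w W := by
    have := congrArg w key
    rwa [Valuation.map_neg, map_mul, map_mul, wA, mul_one] at this
  have W0 : W ≠ 0 := by
    intro h0
    rw [h0, map_zero, mul_zero, Valuation.zero_iff] at wE
    exact hDE wE
  have tW : t = od w W := by
    have : od w E = od w D + od w W := by
      rw [← od_mul w hDD W0]
      apply ve_od_eq
      rw [wE, map_mul]
    rw [ht, hs] at this
    linarith
  have rr : r = (r - 1) + 1 := by omega
  have wxr : w x ^ r = w x ^ (r - 1) * w x := by
    conv_lhs => rw [rr]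
    rw [pow_succ]
  have wxr' : w x' ^ r = w x' ^ (r - 1) * w x' := by
    conv_lhs => rw [rr]
    rw [pow_succ]
  have rcast : ((r - 1 : ℕ) : ℤ) = (r : ℤ) - 1 := by omega
  rcases lt_trichotomy μ μ' with hlt | heq | hgt
  · -- w x' < w x
    have hw1 : w x' < w x := by
      rw [lt_iff w x0' x0, hμ, hμ']; exact hlt
    have wD : w D = w x := by
      rw [hDx]
      exact Valuation.map_sub_eq_of_lt_right w hw1
    have wh : w h = w x ^ (r - 1) := by
      have h1 := congrArg w hgs
      rw [map_mul, wD] at h1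
      have h2 : w (x' ^ r - x ^ r) = w x ^ r := by
        rw [← map_pow]
        apply Valuation.map_sub_eq_of_lt_right
        rw [map_pow, map_pow]
        exact pow_lt_pow_left₀ hw1 zero_le (by omega)
      rw [h2, wxr] at h1
      exact mul_right_cancel₀ wx0 h1
    have wW : w W = w (x ^ (r - 1)) := by
      rw [hW, Valuation.map_add_eq_of_lt_left w, map_mul, wV', mul_one, wh, map_pow]
      rw [map_mul, wV', mul_one, wh]
      refine lt_of_le_of_lt wrest ?_
      rw [wxr]
      exact mul_lt_of_lt_one_right (pow_pos wxp _) x1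
    have hs' : s = μ := by rw [← hs, ← hμ]; exact ve_od_eq w wD
    have ht' : t = ((r : ℤ) - 1) * μ := by
      rw [tW, ve_od_eq w wW, od_pow, hμ, rcast]
    rw [min_eq_left hlt.le]
    refine ⟨hs'.ge, fun _ => hs', ht'.ge, fun _ => ht', fun h => absurd h (by rw [ht']; exact lt_irrefl _)⟩
  · -- w x = w x'
    have hw1 : w x' = w x := by
      rw [w_eq w x0, w_eq w x0', hμ, hμ', heq]
    have wD : w D ≤ w x := by
      rw [hDx]
      exact (Valuation.map_sub w _ _).trans (by rw [hw1, max_self])
    have wh : w h ≤ w x ^ (r - 1) := by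
      apply Valuation.map_sum_le
      intro j hj
      rw [Finset.mem_range] at hj
      rw [map_mul, map_pow, map_pow, hw1, ← pow_add]
      have : j + (r - 1 - j) = r - 1 := by omega
      rw [this]
    have wrest' : w (x ^ r * V2 + y * U2) < w x ^ (r - 1) := by
      refine lt_of_le_of_lt wrest ?_
      rw [wxr]
      exact mul_lt_of_lt_one_right (pow_pos wxp _) x1
    have wW : w W ≤ w (x ^ (r - 1)) := by
      rw [map_pow]
      refine (Valuation.map_add w _ _).trans (max_le ?_ wrest'.le)
      rw [map_mul, wV', mul_one]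
      exact wh
    have hs' : μ ≤ s := by
      rw [← hs, ← hμ]
      exact (le_iff w hDD x0).mp wD
    have ht' : ((r : ℤ) - 1) * μ ≤ t := by
      rw [tW, ← hμ, ← rcast, ← od_pow]
      exact (le_iff w W0 (pow_ne_zero _ x0)).mp wW
    rw [← heq, min_self]
    refine ⟨hs', fun h => absurd rfl h, ht', fun h => absurd rfl h, fun hlt => ?_⟩
    have wW' : w W < w x ^ (r - 1) := by
      rw [← map_pow, lt_iff w W0 (pow_ne_zero _ x0), od_pow, hμ, rcast, ← tW]
      exact hlt
    have wh' : w h < w x ^ (r - 1) := by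
      have h1 : h * MvPolynomial.aeval q' V = W - (x ^ r * V2 + y * U2) := by rw [hW]; ring
      have h2 : w h = w (h * MvPolynomial.aeval q' V) := by rw [map_mul, wV', mul_one]
      rw [h2, h1]
      exact Valuation.map_sub_lt w wW' wrest'
    have r2 : 2 ≤ r := by
      by_contra hcon
      have r1 : r = 1 := by omega
      rw [hh, r1] at wh'
      simp at wh'
    refine ⟨?_, r2⟩
    by_contra hcon
    have hs2 : μ < s := lt_of_le_of_ne hs' (Ne.symm hcon)
    have wD' : w D < w x := by
      rw [lt_iff w hDD x0, hs, hμ]; exact hs2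
    -- x' ^ j ≡ x ^ j
    have hj : ∀ j : ℕ, 0 < j → w (x' ^ j - x ^ j) < w x ^ j := by
      intro j hj
      induction j with
      | zero => omega
      | succ j ih =>
        by_cases hj0 : j = 0
        · rw [hj0, zero_add, pow_one, pow_one, pow_one, ← hDx]; exact wD'
        · have e1 : x' ^ (j + 1) - x ^ (j + 1) = x' * (x' ^ j - x ^ j) + D * x ^ j := by
            rw [hDx]; ring
          rw [e1]
          apply Valuation.map_add_lt w
          · rw [map_mul, hw1, pow_succ, mul_comm]
            exact mul_lt_mul_of_pos_right (ih (by omega)) wxp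
          · rw [map_mul, map_pow, pow_succ, mul_comm]
            exact mul_lt_mul_of_pos_left wD' (pow_pos wxp j)
    have hsum : h = r * x ^ (r - 1) + ∑ j ∈ Finset.range r, (x' ^ j - x ^ j) * x ^ (r - 1 - j) := by
      have e2 : ∑ j ∈ Finset.range r, (x' ^ j - x ^ j) * x ^ (r - 1 - j) =
          ∑ j ∈ Finset.range r, (x' ^ j * x ^ (r - 1 - j) - x ^ (r - 1)) := by
        apply Finset.sum_congr rfl
        intro j hj
        rw [Finset.mem_range] at hj
        rw [sub_mul, ← pow_add]
        have : j + (r - 1 - j) = r - 1 := by omega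
        rw [this]
      rw [e2, Finset.sum_sub_distrib, Finset.sum_const, Finset.card_range, nsmul_eq_mul, ← hh]
      ring
    have wsmall : w (∑ j ∈ Finset.range r, (x' ^ j - x ^ j) * x ^ (r - 1 - j)) < w x ^ (r - 1) := by
      apply Valuation.map_sum_lt w (pow_ne_zero _ wx0)
      intro j hjr
      rw [Finset.mem_range] at hjr
      by_cases hj0 : j = 0
      · rw [hj0]; simp only [pow_zero, sub_self, zero_mul, map_zero]; exact pow_pos wxp _
      · rw [map_mul, map_pow]
        have : w x ^ (r - 1) = w x ^ j * w x ^ (r - 1 - j) := by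
          rw [← pow_add]; congr 1; omega
        rw [this]
        exact mul_lt_mul_of_pos_right (hj j (by omega)) (pow_pos wxp _)
    have wr : w ((r : K)) = 1 := by
      have : (r : K) = algebraMap k K (r : k) := by simp
      rw [this]
      apply hw.triv
      exact_mod_cast (by omega : r ≠ 0)
    have whr : w ((r : K) * x ^ (r - 1)) = w x ^ (r - 1) := by
      rw [map_mul, wr, one_mul, map_pow]
    have : w h = w x ^ (r - 1) := by
      rw [hsum, Valuation.map_add_eq_of_lt_left w, whr]
      rw [whr]; exact wsmall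
    rw [this] at wh'
    exact lt_irrefl _ wh'
  · -- w x < w x'
    have hw1 : w x < w x' := by
      rw [lt_iff w x0 x0', hμ, hμ']; exact hgt
    have wD : w D = w x' := by
      rw [hDx]
      exact Valuation.map_sub_eq_of_lt_left w hw1
    have wh : w h = w x' ^ (r - 1) := by
      have h1 := congrArg w hgs
      rw [map_mul, wD] at h1
      have h2 : w (x' ^ r - x ^ r) = w x' ^ r := by
        rw [← map_pow]
        apply Valuation.map_sub_eq_of_lt_left
        rw [map_pow, map_pow]
        exact pow_lt_pow_left₀ hw1 zero_le (by omega)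
      rw [h2, wxr'] at h1
      exact mul_right_cancel₀ wx0' h1
    have wW : w W = w (x' ^ (r - 1)) := by
      rw [hW, Valuation.map_add_eq_of_lt_left w, map_mul, wV', mul_one, wh, map_pow]
      rw [map_mul, wV', mul_one, wh]
      refine lt_of_le_of_lt wrest ?_
      rw [wxr]
      calc w x ^ (r - 1) * w x < w x ^ (r - 1) * 1 := mul_lt_mul_of_pos_left x1 (pow_pos wxp _)
        _ = w x ^ (r - 1) := mul_one _
        _ ≤ w x' ^ (r - 1) := pow_le_pow_left₀ zero_le hw1.le _
    have hs' : s = μ' := by rw [← hs, ← hμ']; exact ve_od_eq w wD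
    have ht' : t = ((r : ℤ) - 1) * μ' := by
      rw [tW, ve_od_eq w wW, od_pow, hμ', rcast]
    rw [min_eq_right hgt.le]
    refine ⟨hs'.ge, fun _ => hs', ht'.ge, fun _ => ht', fun h => absurd h (by rw [ht']; exact lt_irrefl _)⟩

end H719FO
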