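import Mathlib
import Pool.Agent.H719R3.FO.Stubs

set_option autoImplicit false

namespace H719FO

open IntermediateField H450BH WithZero Pool.Agent.H719R3.BG

namespace VXaux

variable {k K : Type} [Field k] [Field K] [Algebra k K] {w : Valuation K ℤᵐ⁰}

lemma w_alg_le (hw : Pl k K w) (a : k) : w (algebraMap k K a) ≤ 1 := by
  by_cases h : a = 0
  · subst h; simp
  · rw [hw.triv a h]

lemma coord_le (hw : Pl k K w) {c : k} {x : K} (h : w (x - algebraMap k K c) < 1) : w x ≤ 1 := by
  have : x = (x - algebraMap k K c) + algebraMap k K c := by ring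
  rw [this]
  exact (w.map_add _ _).trans (max_le h.le (w_alg_le hw c))

lemma polyval (hw : Pl k K w) (c : Fin 2 → k) (q : Fin 2 → K)
    (hq : ∀ l, w (q l - algebraMap k K (c l)) < 1) (G : MvPolynomial (Fin 2) k) :
    w (MvPolynomial.aeval q G) ≤ 1 ∧
      w (MvPolynomial.aeval q G - algebraMap k K (MvPolynomial.eval c G)) < 1 := by
  induction G using MvPolynomial.induction_on with
  | C a =>
    constructor
    · simpa using w_alg_le hw a
    · simp
  | add p p' h1 h2 =>
    constructor
    · rw [map_add]
      exact (w.map_add _ _).trans (max_le h1.1 h2.1)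
    · rw [map_add, map_add, map_add]
      have : MvPolynomial.aeval q p + MvPolynomial.aeval q p' -
          (algebraMap k K (MvPolynomial.eval c p) + algebraMap k K (MvPolynomial.eval c p')) =
          (MvPolynomial.aeval q p - algebraMap k K (MvPolynomial.eval c p)) +
          (MvPolynomial.aeval q p' - algebraMap k K (MvPolynomial.eval c p')) := by ring
      rw [this]
      exact (w.map_add _ _).trans_lt (max_lt h1.2 h2.2)
  | mul_X p l h1 =>
    have hl := coord_le hw (hq l)
    constructor
    · rw [map_mul, MvPolynomial.aeval_X, map_mul]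
      exact mul_le_one' h1.1 hl
    · rw [map_mul, MvPolynomial.aeval_X, map_mul, MvPolynomial.eval_X, map_mul]
      have : MvPolynomial.aeval q p * q l -
          algebraMap k K (MvPolynomial.eval c p) * algebraMap k K (c l) =
          (MvPolynomial.aeval q p - algebraMap k K (MvPolynomial.eval c p)) * q l +
          algebraMap k K (MvPolynomial.eval c p) * (q l - algebraMap k K (c l)) := by ring
      rw [this]
      refine (w.map_add _ _).trans_lt (max_lt ?_ ?_)
      · rw [map_mul]
        exact mul_lt_one_of_lt_of_le h1.2 hl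
      · rw [map_mul, mul_comm]
        exact mul_lt_one_of_lt_of_le (hq l) (w_alg_le hw _)

lemma polyval_unit (hw : Pl k K w) (c : Fin 2 → k) (q : Fin 2 → K)
    (hq : ∀ l, w (q l - algebraMap k K (c l)) < 1) (G : MvPolynomial (Fin 2) k)
    (hG : MvPolynomial.eval c G ≠ 0) : w (MvPolynomial.aeval q G) = 1 := by
  have h1 := (polyval hw c q hq G).2
  have h2 := hw.triv _ hG
  have : MvPolynomial.aeval q G = algebraMap k K (MvPolynomial.eval c G) +
      (MvPolynomial.aeval q G - algebraMap k K (MvPolynomial.eval c G)) := by ring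
  rw [this, Valuation.map_add_eq_of_lt_left w (by rw [h2]; exact h1), h2]

end VXaux

open VXaux

theorem VX_proof : St_VX := by
  intro k K _ _ _ _ w hw i i' hii' P c r hr hCt q hP hnc hq
  obtain ⟨U, V, hPUV, hU, hV⟩ := hCt
  have hwU : w (MvPolynomial.aeval q U) = 1 := polyval_unit hw c q hq U hU
  have hwV : w (MvPolynomial.aeval q V) = 1 := polyval_unit hw c q hq V hV
  have hU0 : MvPolynomial.aeval q U ≠ 0 := by
    intro h; rw [h, map_zero] at hwU; exact zero_ne_one hwU
  have hV0 : MvPolynomial.aeval q V ≠ 0 := by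
    intro h; rw [h, map_zero] at hwV; exact zero_ne_one hwV
  set x : K := q i' - algebraMap k K (c i') with hx
  set y : K := q i - algebraMap k K (c i) with hy
  have hwx : w x < 1 := hq i'
  have hwy : w y < 1 := hq i
  have hrel : y * MvPolynomial.aeval q U + x ^ r * MvPolynomial.aeval q V = 0 := by
    rw [hPUV] at hP
    simpa using hP
  have hr0 : r ≠ 0 := by omega
  have hx0 : x ≠ 0 := by
    intro h0
    rw [h0, zero_pow hr0, zero_mul, add_zero] at hrel
    have hy0 : y = 0 := by
      rcases mul_eq_zero.mp hrel with h | h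
      · exact h
      · exact absurd h hU0
    obtain ⟨l, hl⟩ := hnc
    apply hl
    have hl2 : l = i ∨ l = i' := by
      revert hii' ; fin_cases i <;> fin_cases i' <;> fin_cases l <;> simp
    rcases hl2 with rfl | rfl
    · exact ⟨c l, by rw [hy] at hy0; exact (sub_eq_zero.mp hy0).symm⟩
    · exact ⟨c l, by rw [hx] at h0; exact (sub_eq_zero.mp h0).symm⟩
  have hwyr : w y = w x ^ r := by
    have h1 : y * MvPolynomial.aeval q U = -(x ^ r * MvPolynomial.aeval q V) := by
      linear_combination hrel
    have h2 := congrArg w h1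
    rw [map_mul, Valuation.map_neg, map_mul, map_pow, hwU, hwV, mul_one, mul_one] at h2
    exact h2
  have hody : od w y = r * od w x := by
    rw [← od_pow]
    unfold od
    rw [hwyr, map_pow]
  have hodx : 0 < od w x := (lt_one_iff w hx0).1 hwx
  -- pderiv i
  have hd1 : MvPolynomial.pderiv i P = U + (MvPolynomial.X i - MvPolynomial.C (c i)) *
      MvPolynomial.pderiv i U + (MvPolynomial.X i' - MvPolynomial.C (c i')) ^ r *
      MvPolynomial.pderiv i V := by
    rw [hPUV, map_add, Derivation.leibniz, Derivation.leibniz, Derivation.leibniz_pow, map_sub,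
      map_sub, MvPolynomial.pderiv_X_self, MvPolynomial.pderiv_C, MvPolynomial.pderiv_C,
      MvPolynomial.pderiv_X_of_ne (Ne.symm hii')]
    simp only [smul_eq_mul, sub_zero, mul_one, mul_zero, smul_zero, add_zero]
    ring
  have hd2 : MvPolynomial.pderiv i' P = (MvPolynomial.X i - MvPolynomial.C (c i)) *
      MvPolynomial.pderiv i' U + (MvPolynomial.X i' - MvPolynomial.C (c i')) ^ r *
      MvPolynomial.pderiv i' V + (MvPolynomial.C (r : k)) *
        (MvPolynomial.X i' - MvPolynomial.C (c i')) ^ (r - 1) * V := by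
    rw [hPUV, map_add, Derivation.leibniz, Derivation.leibniz, Derivation.leibniz_pow, map_sub,
      map_sub, MvPolynomial.pderiv_X_self, MvPolynomial.pderiv_C, MvPolynomial.pderiv_C,
      MvPolynomial.pderiv_X_of_ne hii']
    simp only [smul_eq_mul, sub_zero, mul_one, mul_zero, add_zero, nsmul_eq_mul,
      map_natCast]
    ring
  have hE1 : MvPolynomial.eval c (MvPolynomial.pderiv i P) ≠ 0 := by
    rw [hd1]
    simp [hr0, hU]
  have hw1 : w (MvPolynomial.aeval q (MvPolynomial.pderiv i P)) = 1 :=
    polyval_unit hw c q hq _ hE1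
  have hne1 : MvPolynomial.aeval q (MvPolynomial.pderiv i P) ≠ 0 := by
    intro h; rw [h, map_zero] at hw1; exact zero_ne_one hw1
  -- pderiv i'
  set B : K := algebraMap k K (r : k) * MvPolynomial.aeval q V + x *
    (MvPolynomial.aeval q (MvPolynomial.pderiv i' V) -
      MvPolynomial.aeval q V / MvPolynomial.aeval q U *
        MvPolynomial.aeval q (MvPolynomial.pderiv i' U)) with hB
  have hval : MvPolynomial.aeval q (MvPolynomial.pderiv i' P) = x ^ (r - 1) * B := by
    rw [hd2]
    have hyx : y = - (x ^ r * MvPolynomial.aeval q V) / MvPolynomial.aeval q U := by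
      field_simp
      linear_combination hrel
    have hxr : x ^ r = x ^ (r - 1) * x := by
      rw [← pow_succ]; congr 1; omega
    simp only [map_add, map_mul, map_sub, map_pow, MvPolynomial.aeval_X, MvPolynomial.aeval_C]
    rw [← hx, ← hy, hyx, hB, hxr]
    field_simp
    ring
  have hwr : w (algebraMap k K (r : k) * MvPolynomial.aeval q V) = 1 := by
    rw [map_mul, hwV, mul_one]
    exact hw.triv _ (by exact_mod_cast hr0)
  have hwrest : w (x * (MvPolynomial.aeval q (MvPolynomial.pderiv i' V) -
      MvPolynomial.aeval q V / MvPolynomial.aeval q U *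
        MvPolynomial.aeval q (MvPolynomial.pderiv i' U))) < 1 := by
    rw [map_mul]
    refine mul_lt_one_of_lt_of_le hwx ?_
    refine (w.map_sub _ _).trans (max_le (polyval hw c q hq _).1 ?_)
    rw [map_mul, map_div₀, hwU, hwV, div_one, one_mul]
    exact (polyval hw c q hq _).1
  have hwB : w B = 1 := by
    rw [hB, Valuation.map_add_eq_of_lt_left w (by rw [hwr]; exact hwrest), hwr]
  have hB0 : B ≠ 0 := by
    intro h; rw [h, map_zero] at hwB; exact zero_ne_one hwB
  have hne2 : MvPolynomial.aeval q (MvPolynomial.pderiv i' P) ≠ 0 := by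
    rw [hval]
    exact mul_ne_zero (pow_ne_zero _ hx0) hB0
  refine ⟨sub_ne_zero.mp hx0, hodx, hne1, (eq_one_iff w hne1).1 hw1, hne2, ?_, hody⟩
  rw [hval, od_mul w (pow_ne_zero _ hx0) hB0, od_pow, (eq_one_iff w hB0).1 hwB, add_zero]
  congr 1
  push_cast [Nat.cast_sub hr]
  ring

end H719FO
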