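import Mathlib
import Pool.Agent.H719R3.FO.FIN
import Pool.Agent.H719R3.FO.CNT
import Pool.Agent.H719R3.FO.CEN
import Pool.Agent.H719R3.FO.DED
import Pool.Agent.H719R3.FO.DEG
import Pool.Agent.H719R3.FO.DU
import Pool.Agent.H719R3.FO.FLD2
import Pool.Agent.H719R3.FO.FLI
import Pool.Agent.H719R3.FO.FLP
import Pool.Agent.H719R3.FO.FLZ
import Pool.Agent.H719R3.FO.GER2
import Pool.Agent.H719R3.FO.LOC
import Pool.Agent.H719R3.FO.LOCE
import Pool.Agent.H719R3.FO.LOCI
import Pool.Agent.H719R3.FO.LOCX
import Pool.Agent.H719R3.FO.NOR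
import Pool.Agent.H719R3.FO.SLC
import Pool.Agent.H719R3.FO.SLE
import Pool.Agent.H719R3.FO.SLM
import Pool.Agent.H719R3.FO.SLT
import Pool.Agent.H719R3.FO.SLV
import Pool.Agent.H719R3.FO.SYM
import Pool.Agent.H719R3.FO.VE
import Pool.Agent.H719R3.FO.VX
import Pool.Agent.H450R3.BH.Top

/-!
All the parts together.
-/

set_option autoImplicit false

namespace H719FO

open H450BH Pool.Agent.H719R3.BG
open scoped ComplexConjugate

/-- Tables bounded by curves with many isotropic tangent lines. -/
theorem finite_polygons : St_FIN :=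
  FIN_proof (GER2_proof GER_proof TAN_proof) FLD2_proof ABS_proof SYM_proof SLT_proof SLM_proof
    (CNT_proof (LOC_proof LOCE_proof LOCX_proof LOCI_proof) (DEG_proof (DU_proof DED_proof))
      (NOR_proof (DU_proof DED_proof) LIN_proof) (SLV_proof VX_proof FLP_proof)
      (SLE_proof VE_proof FLP_proof)
      (SLC_proof (CEN_proof DED_proof) FLP_proof FLI_proof FLZ_proof))

end H719FO
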